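import Pool.Agent.Lib.MP_869d3b_nt.L.StmL

/-!
# MP_869d3b_nt, piece L1: `FB B` is the set of the limits of rational numbers
-/

set_option autoImplicit false

namespace Pool.Agent.Lib.MP_869d3b_nt.Lo

section
variable {Ω : Type} [Field Ω] [CharZero Ω] {B : ValuationSubring Ω}

omit [CharZero Ω] in
private theorem l1_rat (q : ℚ) : Lim B (q : Ω) := by
  intro N
  refine ⟨q, ?_⟩
  rw [sub_self, zero_div]
  exact B.zero_mem

private theorem l1_add {x y : Ω} (hx : Lim B x) (hy : Lim B y) : Lim B (x + y) := by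
  intro N
  obtain ⟨q, hq⟩ := hx N
  obtain ⟨r, hr⟩ := hy N
  refine ⟨q + r, ?_⟩
  convert B.add_mem _ _ hq hr using 1
  push_cast
  ring

private theorem l1_neg {x : Ω} (hx : Lim B x) : Lim B (-x) := by
  intro N
  obtain ⟨q, hq⟩ := hx N
  refine ⟨-q, ?_⟩
  convert B.neg_mem _ hq using 1
  push_cast
  ring

private theorem l1_bound (h2 : (2 : Ω) ∈ B.nonunits) {x : Ω} (hx : Lim B x) :
    ∃ i : ℕ, ∀ i', i ≤ i' → (2 : Ω) ^ i' * x ∈ B := by
  obtain ⟨q, hq⟩ := hx 0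
  obtain ⟨i, hi⟩ := exists_pow_mul_rat_mem (B := B) h2 q
  refine ⟨i, fun i' hi' => ?_⟩
  obtain ⟨l, rfl⟩ := Nat.exists_eq_add_of_le hi'
  have h3 := B.add_mem _ _ (B.mul_mem _ _ (pow_two_mem h2 l) hi)
    (B.mul_mem _ _ (pow_two_mem h2 (i + l)) hq)
  convert h3 using 1
  rw [pow_zero, div_one, pow_add]
  ring

private theorem l1_mul (h2 : (2 : Ω) ∈ B.nonunits) {x y : Ω} (hx : Lim B x) (hy : Lim B y) :
    Lim B (x * y) := by
  intro N
  obtain ⟨i1, h1⟩ := l1_bound h2 hx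
  obtain ⟨i2, h3⟩ := l1_bound h2 hy
  obtain ⟨i, hi⟩ : ∃ i, i = max i1 i2 := ⟨_, rfl⟩
  have hxi := h1 i (by rw [hi]; exact le_max_left _ _)
  have hyi := h3 i (by rw [hi]; exact le_max_right _ _)
  obtain ⟨q, hq⟩ := hx (N + i)
  obtain ⟨r, hr⟩ := hy (N + i)
  refine ⟨q * r, ?_⟩
  have h20 : (2 : Ω) ^ i ≠ 0 := pow_ne_zero _ two_ne_zero
  have h2N : (2 : Ω) ^ N ≠ 0 := pow_ne_zero _ two_ne_zero
  have hri : (2 : Ω) ^ i * (r : Ω) ∈ B := by
    have h4 := B.mul_mem _ _ (B.mul_mem _ _ (pow_two_mem h2 i) (pow_two_mem h2 (N + i))) hr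
    have h5 := sub_mem hyi h4
    convert h5 using 1
    rw [pow_add]
    field_simp
    ring
  have h6 := B.add_mem _ _ (B.mul_mem _ _ hxi hr) (B.mul_mem _ _ hri hq)
  convert h6 using 1
  push_cast
  rw [pow_add]
  field_simp
  ring

private theorem l1_inv (hL2 : S_L2) (halg : Algebra.IsAlgebraic ℚ Ω) (h2 : (2 : Ω) ∈ B.nonunits)
    {x : Ω} (hx : Lim B x) : Lim B x⁻¹ := by
  by_cases hx0 : x = 0
  · rw [hx0, inv_zero]
    have := l1_rat (B := B) (Ω := Ω) 0
    rwa [Rat.cast_zero] at this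
  obtain ⟨M, hM⟩ : ∃ M : ℕ, x / 2 ^ M ∉ B := by
    by_contra hcon
    push Not at hcon
    exact hx0 (hL2 Ω B halg h2 x hcon)
  intro N
  obtain ⟨q, hq⟩ := hx (N + 2 * M)
  have h2M : (2 : Ω) ^ M ≠ 0 := pow_ne_zero _ two_ne_zero
  have h2N : (2 : Ω) ^ N ≠ 0 := pow_ne_zero _ two_ne_zero
  have hqM : (q : Ω) / 2 ^ M ∉ B := by
    intro hcon
    apply hM
    have h3 := B.add_mem _ _ hcon (B.mul_mem _ _ (pow_two_mem h2 (N + M)) hq)
    convert h3 using 1
    rw [show N + 2 * M = (N + M) + M by ring, pow_add (2 : Ω) (N + M) M]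
    have : (2 : Ω) ^ (N + M) ≠ 0 := pow_ne_zero _ two_ne_zero
    field_simp
    ring
  have hq0 : (q : Ω) ≠ 0 := by
    intro hcon
    apply hqM
    rw [hcon, zero_div]
    exact B.zero_mem
  have hx' : (2 : Ω) ^ M / x ∈ B := by
    have := (B.mem_or_inv_mem _).resolve_left hM
    rwa [inv_div] at this
  have hq' : (2 : Ω) ^ M / q ∈ B := by
    have := (B.mem_or_inv_mem _).resolve_left hqM
    rwa [inv_div] at this
  refine ⟨q⁻¹, ?_⟩
  have h3 := B.neg_mem _ (B.mul_mem _ _ (B.mul_mem _ _ hq hx') hq')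
  convert h3 using 1
  rw [pow_add, pow_mul']
  push_cast
  field_simp
  ring

end

theorem piece_L1 (hL2 : S_L2) : S_L1 := by
  intro Ω _ _ B halg h2 x
  constructor
  · intro hx
    unfold FB at hx
    induction hx using Subfield.closure_induction with
    | mem x hx => exact hx
    | one =>
      have := l1_rat (B := B) (Ω := Ω) 1
      rwa [Rat.cast_one] at this
    | add x y _ _ hx hy => exact l1_add hx hy
    | neg x _ hx => exact l1_neg hx
    | inv x _ hx => exact l1_inv hL2 halg h2 hx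
    | mul x y _ _ hx hy => exact l1_mul h2 hx hy
  · intro hx
    exact Subfield.subset_closure hx

end Pool.Agent.Lib.MP_869d3b_nt.Lo
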