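import Pool.Agent.Lib.MP_869d3b_nt.L.StmL

/-!
# MP_869d3b_nt, local part: two valuation rings are conjugate at every finite level
-/

set_option autoImplicit false

namespace Pool.Agent.Lib.MP_869d3b_nt.Lo

private theorem l10_comap {M Ω : Type} [Field M] [CharZero M] [Field Ω] [CharZero Ω]
    (j : M →+* Ω) (B : ValuationSubring Ω) (h : (2 : Ω) ∈ B.nonunits) :
    (2 : M) ∈ (B.comap j).nonunits := by
  rw [ValuationSubring.mem_nonunits_iff_or] at h ⊢
  right
  intro h1
  rw [ValuationSubring.mem_comap, map_inv₀, map_ofNat] at h1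
  exact h.resolve_left two_ne_zero h1

theorem piece_L10 (hTRA : S_TRA) : S_L10 := by
  intro Ω _ _ _ B₀ B halg h₀ h X
  have hcl : IsAlgClosure ℚ Ω := ⟨inferInstance, halg⟩
  have hnorm : Normal ℚ Ω := IsAlgClosure.normal ℚ Ω
  have hfd : FiniteDimensional ℚ (IntermediateField.adjoin ℚ (X : Set Ω)) :=
    IntermediateField.finiteDimensional_adjoin fun x _ => (halg.isAlgebraic x).isIntegral
  let M : IntermediateField ℚ Ω :=
    IntermediateField.normalClosure ℚ (IntermediateField.adjoin ℚ (X : Set Ω)) Ω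
  have hM1 : FiniteDimensional ℚ M := normalClosure.is_finiteDimensional ℚ _ Ω
  have hM2 : Normal ℚ M := normalClosure.normal ℚ _ Ω
  have hM3 : IsGalois ℚ M := ⟨⟩
  have hM4 : NumberField M := ⟨⟩
  obtain ⟨g₀, hg₀⟩ := hTRA M (B₀.comap (algebraMap M Ω)) (B.comap (algebraMap M Ω))
    (l10_comap _ B₀ h₀) (l10_comap _ B h)
  have hle : IntermediateField.adjoin ℚ (X : Set Ω) ≤ M := IntermediateField.le_normalClosure _
  refine ⟨(g₀.liftNormal Ω).toRingEquiv, fun x hx => ?_⟩
  have h1 := hg₀ ⟨x, hle hx⟩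
  rw [ValuationSubring.mem_comap, ValuationSubring.mem_comap] at h1
  have h2 := g₀.liftNormal_commutes Ω ⟨x, hle hx⟩
  rw [← h2] at h1
  exact h1

end Pool.Agent.Lib.MP_869d3b_nt.Lo
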