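import Pool.Agent.Lib.MP_869d3b_nt.L.StmL

/-!
# MP_869d3b_nt, local part, piece L10p
-/

set_option autoImplicit false

namespace Pool.Agent.Lib.MP_869d3b_nt.Lo

theorem piece_L10p (hL10 : S_L10) : S_L10p := by
  classical
  intro Ω _ _ _ B₀ B p halg h20 h2 hp hp0 hpB X
  obtain ⟨g, hg⟩ := hL10 Ω B₀ B halg h20 h2 (insert p X)
  have hsub : (X : Set Ω) ⊆ ((insert p X : Finset Ω) : Set Ω) := by
    intro x hx
    simp only [Finset.coe_insert, Set.mem_insert_iff]
    exact Or.inr hx
  have hmono : IntermediateField.adjoin ℚ (X : Set Ω) ≤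
      IntermediateField.adjoin ℚ ((insert p X : Finset Ω) : Set Ω) :=
    IntermediateField.adjoin.mono ℚ _ _ hsub
  refine ⟨g, ?_, fun x hx => hg x (hmono hx)⟩
  have hpmem : p ∈ IntermediateField.adjoin ℚ ((insert p X : Finset Ω) : Set Ω) := by
    apply IntermediateField.subset_adjoin
    simp
  have hpne : p ≠ 0 := by
    rintro rfl
    norm_num at hp
  have hpinv : p⁻¹ ∉ B₀ := by
    intro h
    exact not_nonunits_of_inv_mem hpne h hp0
  have hginv : (g p)⁻¹ ∉ B := by
    rw [← map_inv₀]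
    intro h
    exact hpinv ((hg p⁻¹ (inv_mem hpmem)).2 h)
  have hgp : g p ∈ B.nonunits := by
    by_contra h
    exact hginv (inv_mem_of_not_nonunits h)
  have h1 : (g p) ^ 2 = g p - 2 := by
    rw [← map_pow, hp, map_sub, map_ofNat]
  have h3 : (g p - p) * (g p - (1 - p)) = 0 := by
    linear_combination h1 - hp
  rcases mul_eq_zero.1 h3 with h | h
  · exact sub_eq_zero.1 h
  · exfalso
    rw [sub_eq_zero] at h
    rw [h] at hgp
    have := nonunits_add hgp hpB
    rw [sub_add_cancel] at this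
    exact one_not_nonunits this

end Pool.Agent.Lib.MP_869d3b_nt.Lo
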