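import Pool.Agent.Lib.MP_869d3b_nt.L.StmL

/-!
# MP_869d3b_nt, piece L2: an element divisible by all powers of `2` is zero
-/

set_option autoImplicit false

namespace Pool.Agent.Lib.MP_869d3b_nt.Lo

/-- integral elements are in every valuation ring -/
private theorem l2_integral_mem {Ω : Type} [Field Ω] (B : ValuationSubring Ω) {x : Ω}
    (hx : IsIntegral ℤ x) : x ∈ B := by
  have h1 : IsIntegral B x := hx.tower_top
  obtain ⟨y, hy⟩ := IsIntegrallyClosed.isIntegral_iff.1 h1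
  rw [← hy]
  exact y.2

theorem piece_L2 : S_L2 := by
  intro Ω _ _ B halg h2 x hx
  by_contra hx0
  have h3 : IsAlgebraic ℤ x⁻¹ :=
    (IsFractionRing.isAlgebraic_iff ℤ ℚ Ω).2 (halg.isAlgebraic x⁻¹)
  obtain ⟨m, hm, hint⟩ := h3.exists_integral_multiple
  have h4 : (m : Ω) * x⁻¹ ∈ B := by
    have := l2_integral_mem B hint
    rwa [zsmul_eq_mul] at this
  obtain ⟨j, hj⟩ := exists_pow_div_mem h2 m hm
  have h5 := B.mul_mem _ _ (B.mul_mem _ _ hj h4) (hx (j + 1))
  apply half_not_mem h2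
  convert h5 using 1
  have hm' : (m : Ω) ≠ 0 := Int.cast_ne_zero.2 hm
  have h6 : (2 : Ω) ^ j ≠ 0 := pow_ne_zero _ two_ne_zero
  rw [pow_succ]
  field_simp

end Pool.Agent.Lib.MP_869d3b_nt.Lo
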