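import Pool.Agent.Lib.MP_869d3b_nt.L.StmL

/-!
# MP_869d3b_nt, piece L3: automorphisms which preserve `B` fix the limits of rational numbers
-/

set_option autoImplicit false

namespace Pool.Agent.Lib.MP_869d3b_nt.Lo

theorem piece_L3 (hL1 : S_L1) (hL2 : S_L2) : S_L3 := by
  intro Ω _ _ B halg h2 L σ hσ x hxL hx
  have hlim := (hL1 Ω B halg h2 x).1 hx
  have h0 : σ x - x = 0 := by
    apply hL2 Ω B halg h2
    intro N
    obtain ⟨q, hq⟩ := hlim N
    have hL : (x - (q : Ω)) / 2 ^ N ∈ L :=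
      div_mem (sub_mem hxL (SubfieldClass.ratCast_mem L q)) (pow_mem (by exact_mod_cast natCast_mem L 2) N)
    have h3 := hσ _ hL hq
    convert h3 using 1
    rw [map_div₀, map_sub, map_ratCast, map_pow, map_ofNat]
    ring
  exact sub_eq_zero.1 h0

end Pool.Agent.Lib.MP_869d3b_nt.Lo
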