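import Pool.Agent.Lib.MP_869d3b_nt.L.StmL

/-!
# MP_869d3b_nt, piece L4: square roots of elements congruent to `1` modulo `8`
-/

set_option autoImplicit false

namespace Pool.Agent.Lib.MP_869d3b_nt.Lo

section
variable {Ω : Type} [Field Ω] [CharZero Ω] {B : ValuationSubring Ω}

/-- a rational number in `B` is congruent to `0` or `1` modulo `2 B` -/
private theorem l4_mod2 (h2 : (2 : Ω) ∈ B.nonunits) (e : ℚ) (he : (e : Ω) ∈ B) :
    (e : Ω) / 2 ∈ B ∨ ((e : Ω) - 1) / 2 ∈ B := by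
  have hden0 : ((e.den : ℤ) : Ω) ≠ 0 := by
    rw [Int.cast_ne_zero]
    exact_mod_cast e.den_ne_zero
  have hcast : (e : Ω) = ((e.num : ℤ) : Ω) * ((e.den : ℤ) : Ω)⁻¹ := by
    rw [Rat.cast_def, div_eq_mul_inv]
    push_cast
    rfl
  have hodd : Odd (e.den : ℤ) := by
    rw [← Int.not_even_iff_odd]
    intro hev
    obtain ⟨l, hl⟩ := hev
    have hnum : Odd e.num := by
      rw [← Int.not_even_iff_odd]
      intro hev2
      have h3 : (2 : ℤ) ∣ e.num := hev2.two_dvd
      have h4 : (2 : ℤ) ∣ (e.den : ℤ) := ⟨l, by rw [hl]; ring⟩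
      have h5 : (2 : ℕ) ∣ e.num.natAbs := Int.natCast_dvd.1 h3
      have h6 : (2 : ℕ) ∣ e.den := by exact_mod_cast h4
      have h7 := Nat.dvd_gcd h5 h6
      rw [Nat.Coprime.gcd_eq_one e.reduced] at h7
      exact absurd h7 (by norm_num)
    have h8 := odd_inv_mem h2 e.num hnum
    have hnum0 : ((e.num : ℤ) : Ω) ≠ 0 := by
      rw [Int.cast_ne_zero]
      intro hcon
      rw [hcon] at hnum
      exact absurd hnum (by decide)
    have h9 := B.mul_mem _ _ (B.mul_mem _ _ he h8) (intCast_mem B l)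
    apply half_not_mem h2
    convert h9 using 1
    rw [hcast]
    have hl' : ((e.den : ℤ) : Ω) = (l : Ω) + l := by rw [hl]; push_cast; rfl
    have hl0 : (l : Ω) ≠ 0 := by
      intro hcon
      rw [hcon, add_zero] at hl'
      exact hden0 hl'
    rw [hl'] at hden0 ⊢
    have h22 : (l : Ω) + l = 2 * l := by ring
    rw [h22]
    field_simp
  have hinv := odd_inv_mem h2 _ hodd
  rcases Int.even_or_odd e.num with ⟨l, hl⟩ | hnum
  · left
    convert B.mul_mem _ _ (intCast_mem B l) hinv using 1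
    rw [hcast, hl]
    push_cast
    ring
  · right
    obtain ⟨l, hl⟩ : Even (e.num - (e.den : ℤ)) := hnum.sub_odd hodd
    convert B.mul_mem _ _ (intCast_mem B l) hinv using 1
    have h3 : ((e.num : ℤ) : Ω) - ((e.den : ℤ) : Ω) = (l : Ω) + l := by
      rw [← Int.cast_sub, hl]
      push_cast
      rfl
    have h4 : (e : Ω) - 1 = (((e.num : ℤ) : Ω) - ((e.den : ℤ) : Ω)) * ((e.den : ℤ) : Ω)⁻¹ := by
      rw [hcast, sub_mul, mul_inv_cancel₀ hden0]
    rw [h4, h3]
    ring

/-- approximate rational square roots -/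
private theorem l4_claim (hL1 : S_L1) (halg : Algebra.IsAlgebraic ℚ Ω)
    (h2 : (2 : Ω) ∈ B.nonunits) {c : Ω} (hc : c ∈ FB B) (hc8 : (c - 1) / 8 ∈ B) (l : ℕ) :
    ∃ q : ℚ, ((q : Ω) - 1) / 4 ∈ B ∧ (c - (q : Ω) ^ 2) / 2 ^ (l + 3) ∈ B := by
  induction l with
  | zero =>
    refine ⟨1, ?_, ?_⟩
    · rw [Rat.cast_one, sub_self, zero_div]
      exact B.zero_mem
    · convert hc8 using 2
      · rw [Rat.cast_one, one_pow]
      · norm_num
  | succ l ih =>
    obtain ⟨q, hq1, hq2⟩ := ih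
    obtain ⟨d, hd⟩ : ∃ d, d = (c - (q : Ω) ^ 2) / 2 ^ (l + 3) := ⟨_, rfl⟩
    rw [← hd] at hq2
    have h20 : (2 : Ω) ^ (l + 3) ≠ 0 := pow_ne_zero _ two_ne_zero
    have hc' : c - (q : Ω) ^ 2 = d * 2 ^ (l + 3) := by rw [hd, div_mul_cancel₀ _ h20]
    have hdF : d ∈ FB B := by
      rw [hd]
      refine div_mem (sub_mem hc (pow_mem (SubfieldClass.ratCast_mem _ q) 2)) (pow_mem ?_ _)
      exact ofNat_mem _ 2
    obtain ⟨e, he⟩ := (hL1 Ω B halg h2 d).1 hdF 1
    rw [pow_one] at he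
    have heB : (e : Ω) ∈ B := by
      have h3 := sub_mem hq2 (B.mul_mem _ _ (two_mem h2) he)
      convert h3 using 1
      ring
    rcases l4_mod2 h2 e heB with h3 | h3
    · refine ⟨q, hq1, ?_⟩
      convert B.add_mem _ _ he h3 using 1
      rw [hc', show l + 1 + 3 = (l + 3) + 1 by ring, pow_succ]
      field_simp
      ring
    · refine ⟨q + 2 ^ (l + 2), ?_, ?_⟩
      · convert B.add_mem _ _ hq1 (pow_two_mem h2 l) using 1
        push_cast
        ring
      · have h4 : ((q : Ω) - 1) / 2 ∈ B := by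
          convert B.mul_mem _ _ (two_mem h2) hq1 using 1
          ring
        have h5 := sub_mem (sub_mem (B.add_mem _ _ he h3) h4) (pow_two_mem h2 l)
        convert h5 using 1
        push_cast
        rw [div_eq_iff (pow_ne_zero _ two_ne_zero)]
        have h6 : c = d * 2 ^ (l + 3) + (q : Ω) ^ 2 := by rw [← hc']; ring
        rw [h6]
        ring

/-- square roots congruent to `1` modulo `4` -/
private theorem l4_lim (hL1 : S_L1) (halg : Algebra.IsAlgebraic ℚ Ω)
    (h2 : (2 : Ω) ∈ B.nonunits) {c x : Ω} (hc : c ∈ FB B) (hc8 : (c - 1) / 8 ∈ B)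
    (hx : x ^ 2 = c) (hx1 : (x - 1) / 4 ∈ B) : x ∈ FB B := by
  apply (hL1 Ω B halg h2 x).2
  intro N
  obtain ⟨q, hq1, hq2⟩ := l4_claim hL1 halg h2 hc hc8 N
  refine ⟨q, ?_⟩
  have h3 : (2 : Ω) * ((x - 1) / 4 + ((q : Ω) - 1) / 4) ∈ B.nonunits :=
    nonunits_mul h2 (B.add_mem _ _ hx1 hq1)
  have h4 := one_add_not_nonunits h3
  have h5 := inv_mem_of_not_nonunits h4
  have h6 : 1 + (2 : Ω) * ((x - 1) / 4 + ((q : Ω) - 1) / 4) = (x + q) / 2 := by ring
  rw [h6] at h4 h5
  have h7 : x + (q : Ω) ≠ 0 := by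
    intro hcon
    apply h4
    rw [hcon, zero_div]
    exact B.nonunits.zero_mem
  have h8 : (4 : Ω) ∈ B := by exact_mod_cast intCast_mem B 4
  convert B.mul_mem _ _ (B.mul_mem _ _ hq2 h5) h8 using 1
  rw [← hx, pow_add]
  have h9 : (2 : Ω) ^ N ≠ 0 := pow_ne_zero _ two_ne_zero
  have h10 : x ^ 2 - (q : Ω) ^ 2 = (x - q) * (x + q) := by ring
  rw [h10]
  field_simp
  ring

end

theorem piece_L4 (hL1 : S_L1) : S_L4 := by
  intro Ω _ _ B halg h2 c x hc hc8 hx
  obtain ⟨u, hu⟩ : ∃ u, u = (x - 1) / 2 := ⟨_, rfl⟩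
  have huu : u * (u + 1) = 2 * ((c - 1) / 8) := by
    rw [hu, ← hx]
    ring
  have hor : (x - 1) / 4 ∈ B ∨ (x + 1) / 4 ∈ B := by
    by_cases h3 : u ∈ B.nonunits
    · left
      have h4 := one_add_not_nonunits h3
      have h5 := inv_mem_of_not_nonunits h4
      have h6 : 1 + u ≠ 0 := by
        intro hcon
        apply h4
        rw [hcon]
        exact B.nonunits.zero_mem
      convert B.mul_mem _ _ hc8 h5 using 1
      have h7 : (c - 1) / 8 = u * (1 + u) / 2 := by
        rw [add_comm 1 u, huu]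
        ring
      rw [h7]
      have h8 : (x - 1) / 4 = u / 2 := by rw [hu]; ring
      rw [h8]
      field_simp
    · right
      have h5 := inv_mem_of_not_nonunits h3
      have h6 : u ≠ 0 := by
        rintro rfl
        exact h3 B.nonunits.zero_mem
      convert B.mul_mem _ _ hc8 h5 using 1
      have h7 : (c - 1) / 8 = u * (u + 1) / 2 := by
        rw [huu]
        ring
      rw [h7]
      have h8 : (x + 1) / 4 = (u + 1) / 2 := by rw [hu]; ring
      rw [h8]
      field_simp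
  refine ⟨?_, hor⟩
  rcases hor with h | h
  · exact l4_lim hL1 halg h2 hc hc8 hx h
  · have h3 : -x ∈ FB B := by
      apply l4_lim hL1 halg h2 hc hc8 (by rw [neg_sq]; exact hx)
      convert B.neg_mem _ h using 1
      ring
    have h4 := neg_mem h3
    rwa [neg_neg] at h4

end Pool.Agent.Lib.MP_869d3b_nt.Lo
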