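import Pool.Agent.Lib.MP_869d3b_nt.L.StmL

/-!
# MP_869d3b_nt, piece L5: the non-zero limits of rational numbers
-/

set_option autoImplicit false

namespace Pool.Agent.Lib.MP_869d3b_nt.Lo

/-- a non-zero rational number is a power of two times a quotient of odd integers. -/
private theorem l5_rat {q : ℚ} (hq : q ≠ 0) :
    ∃ (j : ℤ) (m n : ℤ), Odd m ∧ Odd n ∧ q = 2 ^ j * ((m : ℚ) / (n : ℚ)) := by
  obtain ⟨a, m, hm, hqm⟩ := int_two_pow_odd (Rat.num_ne_zero.2 hq)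
  obtain ⟨b, n, hn, hqn⟩ := int_two_pow_odd (n := (q.den : ℤ)) (by exact_mod_cast q.den_ne_zero)
  refine ⟨(a : ℤ) - b, m, n, hm, hn, ?_⟩
  have h1 : q = (q.num : ℚ) / ((q.den : ℤ) : ℚ) := by
    rw [Int.cast_natCast]
    exact (Rat.num_div_den q).symm
  rw [h1, hqn, hqm, zpow_sub₀ two_ne_zero]
  push_cast
  rw [zpow_natCast, zpow_natCast, div_mul_div_comm]

theorem piece_L5 (hL1 : S_L1) (hL2 : S_L2) : S_L5 := by
  intro Ω _ _ B halg h2 x hx hx0
  -- the exponent `M`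
  obtain ⟨M, hM⟩ : ∃ M : ℕ, x / 2 ^ M ∉ B := by
    by_contra h
    push Not at h
    exact hx0 (hL2 Ω B halg h2 x h)
  obtain ⟨q, hq⟩ := (hL1 Ω B halg h2 x).1 hx (M + 3)
  -- `(x - q) / 2 ^ M ∈ B`
  have hqM : (x - (q : Ω)) / 2 ^ M ∈ B := by
    have h := B.mul_mem _ _ (pow_two_mem h2 3) hq
    convert h using 1
    rw [pow_add]
    field_simp
  have hq0 : q ≠ 0 := by
    rintro rfl
    rw [Rat.cast_zero, sub_zero] at hqM
    exact hM hqM
  obtain ⟨j, m, n, hm, hn, hqj⟩ := l5_rat hq0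
  have hn0 : (n : Ω) ≠ 0 := by
    rw [Int.cast_ne_zero]
    rintro rfl
    simp at hn
  have hqΩ : (q : Ω) = 2 ^ j * ((m : Ω) / (n : Ω)) := by
    rw [hqj]
    push_cast
    rfl
  have hmn : (m : Ω) / (n : Ω) ∈ B := by
    rw [div_eq_mul_inv]
    exact B.mul_mem _ _ (intCast_mem B m) (odd_inv_mem h2 n hn)
  -- `j ≤ M`
  have hjM : j ≤ M := by
    by_contra hj
    push Not at hj
    apply hM
    have h1 : (2 : Ω) ^ (j - (M : ℤ)) * ((m : Ω) / (n : Ω)) ∈ B :=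
      B.mul_mem _ _ (zpow_mem' h2 (by omega)) hmn
    have h3 := B.add_mem _ _ h1 hqM
    convert h3 using 1
    rw [hqΩ, zpow_sub₀ two_ne_zero, zpow_natCast]
    ring
  -- the unit `w`
  have h2j : (2 : Ω) ^ j ≠ 0 := zpow_ne_zero _ two_ne_zero
  have hw8 : (x / 2 ^ j - (m : Ω) / (n : Ω)) / 8 ∈ B := by
    have h1 := B.mul_mem _ _ (zpow_mem' h2 (j := (M : ℤ) - j) (by omega)) hq
    convert h1 using 1
    rw [hqΩ, zpow_sub₀ two_ne_zero, zpow_natCast, pow_add]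
    field_simp
    ring
  -- the residue `i`
  obtain ⟨a, rfl⟩ := hm
  obtain ⟨b, rfl⟩ := hn
  set m : ℤ := 2 * a + 1 with hm
  set n : ℤ := 2 * b + 1 with hn
  have hnn : (8 : ℤ) ∣ n * n - 1 := by
    have : n * n - 1 = 4 * (b * (b + 1)) := by rw [hn]; ring
    rw [this]
    obtain ⟨c, hc⟩ := Int.even_mul_succ_self b
    rw [hc]
    exact ⟨c, by ring⟩
  have hi : (m * n) % 8 = 1 ∨ (m * n) % 8 = 3 ∨ (m * n) % 8 = 5 ∨ (m * n) % 8 = 7 := by
    have h1 : m * n = 2 * (2 * a * b + a + b) + 1 := by rw [hm, hn]; ring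
    omega
  have h8 : (8 : ℤ) ∣ m - ((m * n) % 8) * n := by
    have h1 : (8 : ℤ) ∣ m * n - (m * n) % 8 := Int.dvd_self_sub_emod
    have h3 : m - ((m * n) % 8) * n = n * (m * n - (m * n) % 8) - m * (n * n - 1) := by ring
    rw [h3]
    exact dvd_sub (h1.mul_left _) (hnn.mul_left _)
  obtain ⟨c, hc⟩ := h8
  refine ⟨j, x / 2 ^ j, (m * n) % 8, ?_, ?_, ?_, hi⟩
  · field_simp
  · refine div_mem hx ?_
    exact zpow_mem (ofNat_mem (FB B) 2) j
  · have h1 : ((m : Ω) / (n : Ω) - (((m * n) % 8 : ℤ) : Ω)) / 8 ∈ B := by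
      have h3 := B.mul_mem _ _ (intCast_mem B c) (odd_inv_mem h2 n ⟨b, rfl⟩)
      convert h3 using 1
      have hc' : (m : Ω) - (((m * n) % 8 : ℤ) : Ω) * (n : Ω) = 8 * (c : Ω) := by
        exact_mod_cast hc
      have h4 : (m : Ω) / (n : Ω) - (((m * n) % 8 : ℤ) : Ω)
          = ((m : Ω) - (((m * n) % 8 : ℤ) : Ω) * (n : Ω)) / (n : Ω) := by
        rw [sub_div, mul_div_cancel_right₀ _ hn0]
      rw [h4, hc']
      ring
    have h3 := B.add_mem _ _ hw8 h1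
    convert h3 using 1
    ring

end Pool.Agent.Lib.MP_869d3b_nt.Lo
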