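import Pool.Agent.Lib.MP_869d3b_nt.L.StmL

/-!
# MP_869d3b_nt, local part: piece L6a
-/

set_option autoImplicit false

namespace Pool.Agent.Lib.MP_869d3b_nt.Lo

theorem piece_L6a (hL4 : S_L4) : S_L6a := by
  intro Ω _ _ B halg h2
  have hint : ∀ n : ℤ, (n : Ω) ∈ FB B := fun n => intCast_mem (FB B) n
  have h8 : ∀ (n m : ℤ), n - 1 = 8 * m → ((n : Ω) - 1) / 8 ∈ B := by
    intro n m hnm
    have e : ((n : Ω) - 1) / 8 = (m : Ω) := by
      have : (n : Ω) - 1 = 8 * (m : Ω) := by exact_mod_cast hnm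
      rw [this]
      field_simp
    rw [e]
    exact intCast_mem B m
  have key : ∀ (n m : ℤ), n - 1 = 8 * m → ∀ x : Ω, x ^ 2 = (n : Ω) → x ∈ FB B :=
    fun n m hnm x hx => (hL4 Ω B halg h2 (n : Ω) x (hint n) (h8 n m hnm) hx).1
  refine ⟨?_, ?_, ?_⟩
  · intro p hp
    have hs : (2 * p - 1) ∈ FB B := by
      refine key (-7) (-1) (by norm_num) _ ?_
      push_cast
      linear_combination 4 * hp
    have e : p = (((1 : ℤ) : Ω) + (2 * p - 1)) / ((2 : ℤ) : Ω) := by
      push_cast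
      field_simp
      ring
    rw [e]
    exact (FB B).div_mem ((FB B).add_mem (hint 1) hs) (hint 2)
  · intro r hr
    exact key 2145 268 (by norm_num) r (by rw [hr]; norm_num)
  · intro x hx
    exact key (-39) (-5) (by norm_num) x (by rw [hx]; norm_num)

end Pool.Agent.Lib.MP_869d3b_nt.Lo
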