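import Pool.Agent.Lib.MP_869d3b_nt.L.StmL

/-!
# MP_869d3b_nt, local part, piece L6c
-/

set_option autoImplicit false

namespace Pool.Agent.Lib.MP_869d3b_nt.Lo

theorem piece_L6c (hL4 : S_L4) (hL6a : S_L6a) (hL6b : S_L6b) (hSQ8 : S_SQ8) : S_L6c := by
  intro Ω _ _ _ B p hAlg h2 hp hpe
  obtain ⟨hp6, -, -⟩ := hL6b Ω B p h2 hp hpe
  have hpF : p ∈ FB B := (hL6a Ω B hAlg h2).1 p hpe
  have hp0 : p ≠ 0 := by
    rintro rfl
    norm_num at hpe
  have hz : ∀ n : ℤ, (n : Ω) ∈ FB B := fun n => intCast_mem (FB B) n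
  refine ⟨?_, ?_⟩
  · have hc : -p / 10 ∈ FB B := by
      have h10 : (10 : Ω) ∈ FB B := by exact_mod_cast hz 10
      exact div_mem (neg_mem hpF) h10
    have hc8 : (-p / 10 - 1) / 8 ∈ B := by
      have h5 : ((5 : ℤ) : Ω)⁻¹ ∈ B := odd_inv_mem h2 5 (by decide)
      have : (-p / 10 - 1) / 8 = -(((5 : ℤ) : Ω)⁻¹ * (1 + (p - 6) / 16)) := by
        push_cast
        ring
      rw [this]
      exact B.neg_mem _ (B.mul_mem _ _ h5 (B.add_mem _ _ B.one_mem hp6))
    obtain ⟨u, hu⟩ := IsAlgClosed.exists_pow_nat_eq (-p / 10) (n := 2) (by norm_num)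
    obtain ⟨huF, -⟩ := hL4 Ω B hAlg h2 (-p / 10) u hc hc8 hu
    refine ⟨u, huF, ?_, ?_⟩
    · rintro rfl
      apply hp0
      have : -p / 10 = 0 := by rw [← hu]; simp
      have h10 : (10 : Ω) ≠ 0 := by norm_num
      rw [div_eq_zero_iff] at this
      rcases this with h | h
      · exact neg_eq_zero.1 h
      · exact absurd h h10
    · rw [hu]
      ring
  · intro x hx h
    have hx0 : x ≠ 0 := by
      rintro rfl
      have h1 : p = 1 := by
        have : (0 : Ω) = -(1 - p) := by rw [← h]; simp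
        linear_combination -this
      rw [h1] at hpe
      norm_num at hpe
    have := hSQ8 Ω B hAlg h2 x (-(1 - p)) 0 5 hx hx0 (by rw [h]; simp) ?_ (by decide)
    · exact absurd this.2 (by decide)
    · have h3 : (-(1 - p) - ((5 : ℤ) : Ω)) / 8 = 2 * ((p - 6) / 16) := by
        push_cast
        ring
      rw [h3]
      exact B.mul_mem _ _ (two_mem h2) hp6

end Pool.Agent.Lib.MP_869d3b_nt.Lo
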