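import Pool.Agent.Lib.MP_869d3b_nt.L.StmL

/-! MP_869d3b_nt, local part, piece L7: the local image. -/

set_option autoImplicit false

namespace Pool.Agent.Lib.MP_869d3b_nt.Lo

private theorem l7_sq {Ω : Type} [Field Ω] [CharZero Ω] {B : ValuationSubring Ω}
    (h2 : (2 : Ω) ∈ B.nonunits) {v : Ω} {m : ℤ} (hm : m = 1 ∨ m = 3 ∨ m = 5 ∨ m = 7)
    (hv : (v - m) / 8 ∈ B) : (v ^ 2 - 1) / 8 ∈ B := by
  have hodd : Odd m := by
    rcases hm with rfl | rfl | rfl | rfl <;> decide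
  obtain ⟨hvB, -, -⟩ := unit_of_congr8 h2 m hodd hv
  have h8 : ∃ c : ℤ, m ^ 2 - 1 = 8 * c := by
    rcases hm with rfl | rfl | rfl | rfl
    · exact ⟨0, by norm_num⟩
    · exact ⟨1, by norm_num⟩
    · exact ⟨3, by norm_num⟩
    · exact ⟨6, by norm_num⟩
  obtain ⟨c, hc⟩ := h8
  have hc' : ((m : Ω) ^ 2 - 1) = 8 * (c : Ω) := by exact_mod_cast hc
  have h1 : (v ^ 2 - 1) / 8 = (v - m) / 8 * (v + m) + (c : Ω) := by
    linear_combination hc' / 8
  rw [h1]
  exact B.add_mem _ _ (B.mul_mem _ _ hv (B.add_mem _ _ hvB (intCast_mem B m))) (intCast_mem B c)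

private theorem l7_four {Ω : Type} [Field Ω] [CharZero Ω] {B : ValuationSubring Ω}
    (h2 : (2 : Ω) ∈ B.nonunits) {w : Ω} {i : ℤ} (hi : i = 1 ∨ i = 5)
    (hw : (w - i) / 8 ∈ B) : (w - 1) / 4 ∈ B := by
  have h8 : ∃ c : ℤ, i - 1 = 4 * c := by
    rcases hi with rfl | rfl
    · exact ⟨0, by norm_num⟩
    · exact ⟨1, by norm_num⟩
  obtain ⟨c, hc⟩ := h8
  have hc' : ((i : Ω) - 1) = 4 * (c : Ω) := by exact_mod_cast hc
  have h1 : (w - 1) / 4 = 2 * ((w - i) / 8) + (c : Ω) := by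
    linear_combination hc' / 4
  rw [h1]
  exact B.add_mem _ _ (B.mul_mem _ _ (two_mem h2) hw) (intCast_mem B c)

/-- **L7.** -/
theorem piece_L7 (hL5 : S_L5) (hL6b : S_L6b) (hL7a : S_L7a) (hL7b : S_L7b) (hL7c : S_L7c) :
    S_L7 := by
  intro Ω _ _ B p z y halg h2 hp hpp hz hy hz0 hC
  obtain ⟨-, -, hu⟩ := hL6b Ω B p h2 hp hpp
  unfold OnC at hC
  by_cases hy0 : y = 0
  · have h0 : z * (z - 1) * (z - p ^ 4) = 0 := by
      rw [← hC, hy0]
      ring
    rcases mul_eq_zero.1 h0 with h | h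
    · rcases mul_eq_zero.1 h with h | h
      · exact absurd h hz0
      · refine ⟨0, 1, ?_, ?_⟩
        · rw [zpow_zero]
          linear_combination h
        · rw [sub_self, zero_div]
          exact B.zero_mem
    · refine ⟨4, p ^ 4 / 16, ?_, ?_⟩
      · have h16 : (2 : Ω) ^ (4 : ℤ) = 16 := by norm_num
        rw [h16]
        linear_combination h
      · have h1 : (p ^ 4 / 16 - 1) / 4 = 2 * ((p ^ 4 / 16 - 1) / 8) := by ring
        rw [h1]
        exact B.mul_mem _ _ (two_mem h2) hu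
  · obtain ⟨j, w, i, hz1, -, hw, hi⟩ := hL5 Ω B halg h2 z hz hz0
    obtain ⟨a, v, m, hy1, -, hv, hm⟩ := hL5 Ω B halg h2 y hy hy0
    have hv2 := l7_sq h2 hm hv
    have key : i = 3 ∨ i = 7 → False := by
      intro hi'
      have H : L7H B a j i v w (p ^ 4 / 16) := by
        refine ⟨hi', hw, hv2, hu, ?_⟩
        have e1 : (2 : Ω) ^ (2 * a) = ((2 : Ω) ^ a) ^ 2 := by
          rw [mul_comm, zpow_mul, zpow_ofNat]
        rw [e1, ← mul_pow, ← hy1, hC, ← hz1]
        ring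
      rcases le_or_gt j (-1) with hj | hj
      · exact hL7a Ω B a j i v w _ h2 H hj
      · rcases le_or_gt j 3 with hj3 | hj3
        · exact hL7b Ω B a j i v w _ h2 H (by omega) hj3
        · exact hL7c Ω B a j i v w _ h2 H (by omega)
    refine ⟨j, w, hz1, ?_⟩
    rcases hi with hi | hi | hi | hi
    · exact l7_four h2 (Or.inl hi) hw
    · exact absurd (Or.inl hi) key
    · exact l7_four h2 (Or.inr hi) hw
    · exact absurd (Or.inr hi) key

end Pool.Agent.Lib.MP_869d3b_nt.Lo
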