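import Pool.Agent.Lib.MP_869d3b_nt.L.StmL

/-!
# MP_869d3b_nt, local part, piece L7a
-/

set_option autoImplicit false

namespace Pool.Agent.Lib.MP_869d3b_nt.Lo

section

variable {Ω : Type} [Field Ω] {B : ValuationSubring Ω}

private theorem mul_not_nonunits {x y : Ω} (hx : x ∉ B.nonunits) (hy : y ∉ B.nonunits) :
    x * y ∉ B.nonunits := by
  rw [ValuationSubring.mem_nonunits_iff, not_lt] at *
  rw [map_mul]
  exact one_le_mul hx hy

private theorem ne_zero_of_not_nonunits {x : Ω} (hx : x ∉ B.nonunits) : x ≠ 0 := by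
  rintro rfl
  exact hx B.nonunits.zero_mem

/-- if `2 ^ m * x = 2 ^ n * y` with `x`, `y` units of `B`, then `m = n`. -/
private theorem zpow_unit_eq [CharZero Ω] (h2 : (2 : Ω) ∈ B.nonunits) {m n : ℤ} {x y : Ω}
    (hx : x ∈ B) (hx' : x ∉ B.nonunits) (hy : y ∈ B) (hy' : y ∉ B.nonunits)
    (h : (2 : Ω) ^ m * x = 2 ^ n * y) : m = n := by
  have h20 : (2 : Ω) ≠ 0 := two_ne_zero
  apply le_antisymm
  · have h1 : (2 : Ω) ^ (n - m) * y = x := by
      rw [zpow_sub₀ h20, div_mul_eq_mul_div, ← h, mul_div_cancel_left₀ _ (zpow_ne_zero _ h20)]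
    have := zpow_mul_mem h2 (inv_mem_of_not_nonunits hy') (ne_zero_of_not_nonunits hy')
      (by rw [h1]; exact hx)
    omega
  · have h1 : (2 : Ω) ^ (m - n) * x = y := by
      rw [zpow_sub₀ h20, div_mul_eq_mul_div, h, mul_div_cancel_left₀ _ (zpow_ne_zero _ h20)]
    have := zpow_mul_mem h2 (inv_mem_of_not_nonunits hx') (ne_zero_of_not_nonunits hx')
      (by rw [h1]; exact hy)
    omega

end

theorem piece_L7a : S_L7a := by
  intro Ω _ _ B a j i v w u h2 H hj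
  obtain ⟨hi, hw, hv, hu, heq⟩ := H
  have h20 : (2 : Ω) ≠ 0 := two_ne_zero
  have hiodd : Odd i := by rcases hi with rfl | rfl <;> decide
  obtain ⟨hwB, hwi, hwn⟩ := unit_of_congr8 h2 i hiodd hw
  obtain ⟨hvB, -, hvn⟩ := unit_of_congr8 h2 1 (by decide) (by simpa using hv)
  obtain ⟨huB, -, -⟩ := unit_of_congr8 h2 1 (by decide) (by simpa using hu)
  have hw0 : w ≠ 0 := ne_zero_of_not_nonunits hwn
  -- `t`
  obtain ⟨k, hk⟩ : ∃ k : ℕ, j = -(k + 1) := ⟨(-1 - j).toNat, by omega⟩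
  set s : Ω := 2 ^ (k + 1) with hs
  have hs0 : s ≠ 0 := pow_ne_zero _ h20
  have hjs : (2 : Ω) ^ j = s⁻¹ := by
    rw [hk, zpow_neg, hs]
    congr 1
    exact_mod_cast zpow_natCast (2 : Ω) (k + 1)
  have hsn : s ∈ B.nonunits := by
    rw [hs, pow_succ']
    exact nonunits_mul h2 (pow_two_mem h2 k)
  set t : Ω := s * w⁻¹ with ht
  have htn : t ∈ B.nonunits := nonunits_mul hsn hwi
  have ht1 : 1 - t ∉ B.nonunits := by
    have := one_add_not_nonunits (B := B) (x := -t) (by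
      have := nonunits_mul htn (intCast_mem B (-1))
      simpa using this)
    rwa [← sub_eq_add_neg] at this
  have h16 : (16 : Ω) ∈ B := by exact_mod_cast intCast_mem B 16
  have ht2 : 1 - 16 * u * t ∉ B.nonunits := by
    have := one_add_not_nonunits (B := B) (x := -(16 * u * t)) (by
      have := nonunits_mul htn (B.mul_mem _ _ (B.mul_mem _ _ h16 huB) (intCast_mem B (-1)))
      convert this using 1
      push_cast
      ring)
    rwa [← sub_eq_add_neg] at this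
  have htB := nonunits_mem htn
  have hb1 : (1 - t) ∈ B := sub_mem B.one_mem htB
  have hb2 : (1 - 16 * u * t) ∈ B :=
    sub_mem B.one_mem (B.mul_mem _ _ (B.mul_mem _ _ h16 huB) htB)
  have heq2 : (2 : Ω) ^ (2 * a) * v ^ 2 =
      2 ^ (3 * j) * (w ^ 3 * ((1 - t) * (1 - 16 * u * t))) := by
    rw [heq]
    have h3 : (2 : Ω) ^ (3 * j) = (2 ^ j) ^ 3 := by
      rw [mul_comm, zpow_mul]
      norm_cast
    rw [h3, hjs, ht]
    field_simp
  have hn1 : w ^ 3 * ((1 - t) * (1 - 16 * u * t)) ∉ B.nonunits := by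
    refine mul_not_nonunits ?_ (mul_not_nonunits ht1 ht2)
    rw [pow_succ, pow_succ, pow_one]
    exact mul_not_nonunits (mul_not_nonunits hwn hwn) hwn
  have hn2 : w ^ 3 * ((1 - t) * (1 - 16 * u * t)) ∈ B :=
    B.mul_mem _ _ (pow_mem hwB 3) (B.mul_mem _ _ hb1 hb2)
  have hexp : 2 * a = 3 * j := zpow_unit_eq h2 hvB hvn hn2 hn1 heq2
  rw [hexp] at heq2
  have heq3 := mul_left_cancel₀ (zpow_ne_zero _ h20) heq2
  -- `k + 1 ≥ 2`
  have hk1 : 1 ≤ k := by omega
  obtain ⟨l, rfl⟩ : ∃ l, k = l + 1 := ⟨k - 1, by omega⟩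
  have hs4 : s / 4 ∈ B := by
    have : s / 4 = 2 ^ l := by
      rw [hs]
      ring
    rw [this]
    exact pow_two_mem h2 l
  have ht4 : t / 4 ∈ B := by
    have : t / 4 = (s / 4) * w⁻¹ := by rw [ht]; ring
    rw [this]
    exact B.mul_mem _ _ hs4 hwi
  -- everything modulo 4
  have hv4 : (v ^ 2 - 1) / 4 ∈ B := by
    have : (v ^ 2 - 1) / 4 = 2 * ((v ^ 2 - 1) / 8) := by ring
    rw [this]
    exact B.mul_mem _ _ (two_mem h2) hv
  have hw4 : (w - i) / 4 ∈ B := by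
    have : (w - i) / 4 = 2 * ((w - i) / 8) := by ring
    rw [this]
    exact B.mul_mem _ _ (two_mem h2) hw
  have hiB : (i : Ω) ∈ B := intCast_mem B i
  have hw34 : (w ^ 3 - i ^ 3) / 4 ∈ B := by
    have : (w ^ 3 - i ^ 3) / 4 = (w - i) / 4 * (w ^ 2 + w * i + i ^ 2) := by ring
    rw [this]
    exact B.mul_mem _ _ hw4 (B.add_mem _ _ (B.add_mem _ _ (pow_mem hwB 2) (B.mul_mem _ _ hwB hiB))
      (pow_mem hiB 2))
  have hfin : ((1 - i ^ 3 : ℤ) : Ω) / 2 ^ 2 ∈ B := by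
    have h4 : ((1 - i ^ 3 : ℤ) : Ω) / 2 ^ 2 = -((v ^ 2 - 1) / 4) + (w ^ 3 - i ^ 3) / 4 -
        w ^ 3 * (t / 4 * (1 + 16 * u * (1 - t))) := by
      push_cast
      linear_combination (1 / 4 : Ω) * heq3
    rw [h4]
    refine sub_mem (B.add_mem _ _ (B.neg_mem _ hv4) hw34) ?_
    refine B.mul_mem _ _ (pow_mem hwB 3) (B.mul_mem _ _ ht4 ?_)
    exact B.add_mem _ _ B.one_mem (B.mul_mem _ _ (B.mul_mem _ _ h16 huB) hb1)
  rw [int_div_mem h2] at hfin
  rcases hi with rfl | rfl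
  · exact absurd hfin (by decide)
  · exact absurd hfin (by decide)

end Pool.Agent.Lib.MP_869d3b_nt.Lo
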