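import Pool.Agent.Lib.MP_869d3b_nt.L.StmL

/-!
# MP_869d3b_nt, local part, piece L7b
-/

set_option autoImplicit false

namespace Pool.Agent.Lib.MP_869d3b_nt.Lo

section

variable {Ω : Type} [Field Ω] [CharZero Ω] {B : ValuationSubring Ω}

/-- `x` is a unit of `B`. -/
private def U (B : ValuationSubring Ω) (x : Ω) : Prop := x ∈ B ∧ x⁻¹ ∈ B ∧ x ≠ 0

omit [CharZero Ω] in
private theorem U_mul {x y : Ω} (hx : U B x) (hy : U B y) : U B (x * y) :=
  ⟨B.mul_mem _ _ hx.1 hy.1, by rw [mul_inv]; exact B.mul_mem _ _ hx.2.1 hy.2.1,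
    mul_ne_zero hx.2.2 hy.2.2⟩

omit [CharZero Ω] in
private theorem U_congr (h2 : (2 : Ω) ∈ B.nonunits) {x : Ω} (i : ℤ) (hi : Odd i) {b : Ω}
    (hb : b ∈ B) (h : x = i + 2 * b) : U B x := by
  have h1 : x - i ∈ B.nonunits := by
    rw [h, add_sub_cancel_left]
    exact nonunits_mul h2 hb
  obtain ⟨hx1, hx2, hx3⟩ := unit_of_congr h2 i hi h1
  refine ⟨hx1, hx2, ?_⟩
  rintro rfl
  apply hx3
  rw [ValuationSubring.mem_nonunits_iff, map_zero]
  exact zero_lt_one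

private theorem key (h2 : (2 : Ω) ∈ B.nonunits) {n m : ℤ} {X Y : Ω} (hX : U B X) (hY : U B Y)
    (h : (2 : Ω) ^ n * X = 2 ^ m * Y) : n = m ∧ X = Y := by
  have h20 : (2 : Ω) ≠ 0 := two_ne_zero
  have h1 : (2 : Ω) ^ (n - m) * X = Y := by
    rw [zpow_sub₀ h20, div_mul_eq_mul_div, h, mul_div_cancel_left₀ _ (zpow_ne_zero _ h20)]
  have h3 : (2 : Ω) ^ (m - n) * Y = X := by
    rw [zpow_sub₀ h20, div_mul_eq_mul_div, ← h, mul_div_cancel_left₀ _ (zpow_ne_zero _ h20)]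
  have h4 := zpow_mul_mem h2 hX.2.1 hX.2.2 (j := n - m) (by rw [h1]; exact hY.1)
  have h5 := zpow_mul_mem h2 hY.2.1 hY.2.2 (j := m - n) (by rw [h3]; exact hX.1)
  have h6 : n = m := by omega
  refine ⟨h6, ?_⟩
  rw [h6, sub_self, zpow_zero, one_mul] at h1
  exact h1

/-- `x` is congruent to the integer `c` modulo `8 B`. -/
private def C (B : ValuationSubring Ω) (x : Ω) (c : ℤ) : Prop := ∃ b ∈ B, x = c + 8 * b

omit [CharZero Ω] in
private theorem C_mul {x y : Ω} {c d : ℤ} (hx : C B x c) (hy : C B y d) : C B (x * y) (c * d) := by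
  obtain ⟨b, hb, rfl⟩ := hx
  obtain ⟨e, he, rfl⟩ := hy
  refine ⟨c * e + d * b + 8 * (b * e), ?_, by push_cast; ring⟩
  refine B.add_mem _ _ (B.add_mem _ _ (B.mul_mem _ _ (intCast_mem B c) he)
    (B.mul_mem _ _ (intCast_mem B d) hb)) (B.mul_mem _ _ ?_ (B.mul_mem _ _ hb he))
  exact_mod_cast natCast_mem B 8

private theorem C_unique (h2 : (2 : Ω) ∈ B.nonunits) {x : Ω} {c d : ℤ} (hx : C B x c)
    (hy : C B x d) : (8 : ℤ) ∣ c - d := by
  obtain ⟨b, hb, h⟩ := hx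
  obtain ⟨e, he, h'⟩ := hy
  have h1 : ((c - d : ℤ) : Ω) / 2 ^ 3 ∈ B := by
    have : ((c - d : ℤ) : Ω) / 2 ^ 3 = e - b := by
      push_cast
      linear_combination (h' - h) / 8
    rw [this]
    exact B.sub_mem he hb
  have := (int_div_mem h2).1 h1
  norm_num at this
  exact this

end

theorem piece_L7b : S_L7b := by
  intro Ω _ _ B a j i v w u h2 H hj0 hj3
  have h20 : (2 : Ω) ≠ 0 := two_ne_zero
  obtain ⟨w', hw', hww⟩ : ∃ w' ∈ B, w = i + 8 * w' :=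
    ⟨(w - i) / 8, H.hw, by field_simp; ring⟩
  obtain ⟨v', hv', hvv⟩ : ∃ v' ∈ B, v ^ 2 = 1 + 8 * v' :=
    ⟨(v ^ 2 - 1) / 8, H.hv, by field_simp; ring⟩
  obtain ⟨u', hu', huu⟩ : ∃ u' ∈ B, u = 1 + 8 * u' :=
    ⟨(u - 1) / 8, H.hu, by field_simp; ring⟩
  have heq := H.eq
  have hZ : ∀ n : ℤ, (n : Ω) ∈ B := intCast_mem B
  have hN : ∀ n : ℕ, (n : Ω) ∈ B := natCast_mem B
  have hM : ∀ {x y : Ω}, x ∈ B → y ∈ B → x * y ∈ B := fun hx hy => B.mul_mem _ _ hx hy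
  have hA : ∀ {x y : Ω}, x ∈ B → y ∈ B → x + y ∈ B := fun hx hy => B.add_mem _ _ hx hy
  have hiodd : Odd i := by
    rcases H.hi with h | h <;> subst h
    · exact ⟨1, by norm_num⟩
    · exact ⟨3, by norm_num⟩
  have hUv : U B (v ^ 2) := U_congr h2 1 ⟨0, by norm_num⟩ (b := 4 * v')
    (hM (by exact_mod_cast hN 4) hv') (by rw [hvv]; push_cast; ring)
  have hUw : U B w := U_congr h2 i hiodd (b := 4 * w')
    (hM (by exact_mod_cast hN 4) hw') (by rw [hww]; ring)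
  have hBw : w ∈ B := hUw.1
  have hBu : u ∈ B := by
    rw [huu]
    exact hA B.one_mem (hM (by exact_mod_cast hN 8) hu')
  have hC1 : C B (v ^ 2) 1 := ⟨v', hv', by rw [hvv]; push_cast; ring⟩
  have hj : j = 0 ∨ j = 1 ∨ j = 2 ∨ j = 3 := by omega
  rcases hj with rfl | rfl | rfl | rfl
  · -- j = 0
    have hU1 : U B (w - 16 * u) := U_congr h2 i hiodd (b := 4 * w' - 8 * u)
      (B.sub_mem (hM (by exact_mod_cast hN 4) hw') (hM (by exact_mod_cast hN 8) hBu))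
      (by rw [hww]; ring)
    obtain ⟨q, hq, hwq⟩ : ∃ q, U B q ∧ w - 1 = 2 * q := by
      rcases H.hi with h | h <;> subst h
      · exact ⟨1 + 4 * w', U_congr h2 1 ⟨0, by norm_num⟩ (b := 2 * w')
          (hM (two_mem h2) hw') (by push_cast; ring), by rw [hww]; push_cast; ring⟩
      · exact ⟨3 + 4 * w', U_congr h2 3 ⟨1, by norm_num⟩ (b := 2 * w')
          (hM (two_mem h2) hw') (by push_cast; ring), by rw [hww]; push_cast; ring⟩
    have h1 : (2 : Ω) ^ (2 * a) * v ^ 2 = 2 ^ (1 : ℤ) * (w * q * (w - 16 * u)) := by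
      rw [heq, zpow_zero, one_mul, hwq, zpow_one]
      ring
    have := (key h2 hUv (U_mul (U_mul hUw hq) hU1) h1).1
    omega
  · -- j = 1
    have hU1 : U B (2 * w - 1) := U_congr h2 (-1) ⟨-1, by norm_num⟩ (b := w) hBw
      (by push_cast; ring)
    have hU2 : U B (w - 8 * u) := U_congr h2 i hiodd (b := 4 * w' - 4 * u)
      (B.sub_mem (hM (by exact_mod_cast hN 4) hw') (hM (by exact_mod_cast hN 4) hBu))
      (by rw [hww]; ring)
    have h1 : (2 : Ω) ^ (2 * a) * v ^ 2 = 2 ^ (2 : ℤ) * (w * (2 * w - 1) * (w - 8 * u)) := by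
      rw [heq, zpow_one, zpow_ofNat]
      ring
    have h3 := (key h2 hUv (U_mul (U_mul hUw hU1) hU2) h1).2
    have hC : C B (v ^ 2) (i * (2 * i - 1) * i) := by
      rw [h3]
      refine C_mul (C_mul ⟨w', hw', hww⟩ ⟨2 * w', hM (two_mem h2) hw', ?_⟩)
        ⟨w' - u, B.sub_mem hw' hBu, ?_⟩
      · rw [hww]; push_cast; ring
      · rw [hww]; ring
    have h4 := C_unique h2 hC hC1
    rcases H.hi with h | h <;> subst h <;> norm_num at h4
  · -- j = 2
    have hU1 : U B (4 * w - 1) := U_congr h2 (-1) ⟨-1, by norm_num⟩ (b := 2 * w)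
      (hM (two_mem h2) hBw) (by push_cast; ring)
    have hU2 : U B (w - 4 * u) := U_congr h2 i hiodd (b := 4 * w' - 2 * u)
      (B.sub_mem (hM (by exact_mod_cast hN 4) hw') (hM (two_mem h2) hBu))
      (by rw [hww]; ring)
    have h1 : (2 : Ω) ^ (2 * a) * v ^ 2 = 2 ^ (4 : ℤ) * (w * (4 * w - 1) * (w - 4 * u)) := by
      rw [heq, zpow_ofNat, zpow_ofNat]
      ring
    have h3 := (key h2 hUv (U_mul (U_mul hUw hU1) hU2) h1).2
    have hC : C B (v ^ 2) (i * (4 * i - 1) * (i - 4)) := by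
      rw [h3]
      refine C_mul (C_mul ⟨w', hw', hww⟩ ⟨4 * w', hM (by exact_mod_cast hN 4) hw', ?_⟩)
        ⟨w' - 4 * u', B.sub_mem hw' (hM (by exact_mod_cast hN 4) hu'), ?_⟩
      · rw [hww]; push_cast; ring
      · rw [hww, huu]; push_cast; ring
    have h4 := C_unique h2 hC hC1
    rcases H.hi with h | h <;> subst h <;> norm_num at h4
  · -- j = 3
    have hU1 : U B (8 * w - 1) := U_congr h2 (-1) ⟨-1, by norm_num⟩ (b := 4 * w)
      (hM (by exact_mod_cast hN 4) hBw) (by push_cast; ring)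
    have hU2 : U B (w - 2 * u) := U_congr h2 i hiodd (b := 4 * w' - u)
      (B.sub_mem (hM (by exact_mod_cast hN 4) hw') hBu)
      (by rw [hww]; ring)
    have h1 : (2 : Ω) ^ (2 * a) * v ^ 2 = 2 ^ (6 : ℤ) * (w * (8 * w - 1) * (w - 2 * u)) := by
      rw [heq, zpow_ofNat, zpow_ofNat]
      ring
    have h3 := (key h2 hUv (U_mul (U_mul hUw hU1) hU2) h1).2
    have hC : C B (v ^ 2) (i * (-1) * (i - 2)) := by
      rw [h3]
      refine C_mul (C_mul ⟨w', hw', hww⟩ ⟨w, hBw, ?_⟩)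
        ⟨w' - 2 * u', B.sub_mem hw' (hM (two_mem h2) hu'), ?_⟩
      · push_cast; ring
      · rw [hww, huu]; push_cast; ring
    have h4 := C_unique h2 hC hC1
    rcases H.hi with h | h <;> subst h <;> norm_num at h4

end Pool.Agent.Lib.MP_869d3b_nt.Lo
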