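import Pool.Agent.Lib.MP_869d3b_nt.L.StmL

/-!
# MP_869d3b_nt, local part: piece L7c
-/

set_option autoImplicit false

namespace Pool.Agent.Lib.MP_869d3b_nt.Lo

section

variable {Ω : Type} [Field Ω] {B : ValuationSubring Ω}

private theorem l7c_eq [CharZero Ω] (h2 : (2 : Ω) ∈ B.nonunits) {m n : ℤ} {x y : Ω} (hx : x ∈ B)
    (hx' : x⁻¹ ∈ B) (hx0 : x ≠ 0) (hy : y ∈ B) (hy' : y⁻¹ ∈ B) (hy0 : y ≠ 0)
    (h : (2 : Ω) ^ m * x = 2 ^ n * y) : m = n ∧ x = y := by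
  have h20 : (2 : Ω) ≠ 0 := two_ne_zero
  have h1 : (2 : Ω) ^ (m - n) * x = y := by
    rw [zpow_sub₀ h20, div_mul_eq_mul_div, h, mul_div_cancel_left₀ _ (zpow_ne_zero n h20)]
  have h3 : (2 : Ω) ^ (n - m) * y = x := by
    rw [zpow_sub₀ h20, div_mul_eq_mul_div, ← h, mul_div_cancel_left₀ _ (zpow_ne_zero m h20)]
  have h4 := zpow_mul_mem h2 hx' hx0 (h1.symm ▸ hy)
  have h5 := zpow_mul_mem h2 hy' hy0 (h3.symm ▸ hx)
  have h6 : m = n := by omega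
  refine ⟨h6, ?_⟩
  rw [← h1, h6, sub_self, zpow_zero, one_mul]

private theorem l7c_ne {x : Ω} (h : x ∉ B.nonunits) : x ≠ 0 := by
  rintro rfl
  exact h B.nonunits.zero_mem

private theorem l7c_unit [CharZero Ω] (h2 : (2 : Ω) ∈ B.nonunits) {w c : Ω} (i : ℤ) (hi : Odd i)
    (hc : c ∈ B) (h : w = i + 2 * c) : w ∈ B ∧ w⁻¹ ∈ B ∧ w ≠ 0 := by
  have h1 : w - i ∈ B.nonunits := by
    rw [h, add_sub_cancel_left]
    exact nonunits_mul h2 hc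
  obtain ⟨h3, h4, h5⟩ := unit_of_congr h2 i hi h1
  exact ⟨h3, h4, l7c_ne h5⟩

end

theorem piece_L7c : S_L7c := by
  intro Ω _ _ B a j i v w u h2 H hj
  obtain ⟨hi, hw, hv, hu, heq⟩ := H
  have hiodd : Odd i := by rcases hi with rfl | rfl <;> decide
  obtain ⟨w', hw', rfl⟩ : ∃ w', w' ∈ B ∧ w = i + 8 * w' := ⟨_, hw, by ring⟩
  obtain ⟨v', hv', hv2⟩ : ∃ v', v' ∈ B ∧ v ^ 2 = 1 + 8 * v' := ⟨_, hv, by ring⟩
  obtain ⟨u', hu', rfl⟩ : ∃ u', u' ∈ B ∧ u = 1 + 8 * u' := ⟨_, hu, by ring⟩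
  rw [hv2] at heq
  have hn : ∀ z : ℤ, (z : Ω) ∈ B := fun z => intCast_mem B z
  have hwB : (i : Ω) + 8 * w' ∈ B := B.add_mem _ _ (hn i) (B.mul_mem _ _ (by exact_mod_cast hn 8) hw')
  have h2B : (2 : Ω) ∈ B := two_mem h2
  have h4B : (4 : Ω) ∈ B := by exact_mod_cast hn 4
  have h8B : (8 : Ω) ∈ B := by exact_mod_cast hn 8
  have hVu : (1 + 8 * v') ∈ B ∧ (1 + 8 * v')⁻¹ ∈ B ∧ (1 + 8 * v') ≠ 0 :=
    l7c_unit h2 1 odd_one (c := 4 * v') (B.mul_mem _ _ h4B hv') (by push_cast; ring)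
  obtain ⟨m, rfl⟩ : ∃ m : ℕ, j = m + 4 := ⟨(j - 4).toNat, by omega⟩
  have hp : (2 : Ω) ^ ((m : ℤ) + 4) = 2 ^ m * 16 := by
    rw [zpow_add₀ two_ne_zero, zpow_natCast]
    norm_num
  rw [hp] at heq
  rcases Nat.eq_zero_or_pos m with rfl | hm
  · -- `j = 4`
    obtain ⟨k, hk, hik⟩ : ∃ k : ℤ, Odd k ∧ i = 2 * k + 1 := by
      rcases hi with rfl | rfl
      · exact ⟨1, odd_one, by norm_num⟩
      · exact ⟨3, by decide, by norm_num⟩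
    have hX : ((i : Ω) + 8 * w') * (16 * (i + 8 * w') - 1) * (k + 4 * (w' - u')) ∈ B ∧
        (((i : Ω) + 8 * w') * (16 * (i + 8 * w') - 1) * (k + 4 * (w' - u')))⁻¹ ∈ B ∧
        ((i : Ω) + 8 * w') * (16 * (i + 8 * w') - 1) * (k + 4 * (w' - u')) ≠ 0 := by
      obtain ⟨h3, h4, h5⟩ := l7c_unit h2 (w := (i : Ω) + 8 * w') i hiodd (c := 4 * w')
        (B.mul_mem _ _ h4B hw') (by ring)
      obtain ⟨h6, h7, h8⟩ := l7c_unit h2 (w := 16 * ((i : Ω) + 8 * w') - 1) (-1) (by decide)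
        (c := 8 * (i + 8 * w')) (B.mul_mem _ _ h8B hwB) (by push_cast; ring)
      obtain ⟨h9, h10, h11⟩ := l7c_unit h2 (w := (k : Ω) + 4 * (w' - u')) k hk
        (c := 2 * (w' - u')) (B.mul_mem _ _ h2B (B.sub_mem hw' hu')) (by ring)
      refine ⟨B.mul_mem _ _ (B.mul_mem _ _ h3 h6) h9, ?_, mul_ne_zero (mul_ne_zero h5 h8) h11⟩
      rw [mul_inv, mul_inv]
      exact B.mul_mem _ _ (B.mul_mem _ _ h4 h7) h10
    have h3 := (l7c_eq h2 (m := 2 * a) (n := 9) hVu.1 hVu.2.1 hVu.2.2 hX.1 hX.2.1 hX.2.2 (by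
      rw [heq]
      have h9 : (2 : Ω) ^ (9 : ℤ) = 512 := by norm_num
      rw [h9, hik]
      push_cast
      ring)).1
    omega
  · obtain ⟨m, rfl⟩ : ∃ m' : ℕ, m = m' + 1 := ⟨m - 1, by omega⟩
    have hq : ∀ t : ℕ, (2 : Ω) ^ t * (i + 8 * w') ∈ B := fun t =>
      B.mul_mem _ _ (pow_two_mem h2 t) hwB
    obtain ⟨h3, h4, h5⟩ := l7c_unit h2 (w := ((i : Ω) + 8 * w') *
        (2 * (2 ^ (m + 4) * (i + 8 * w')) - 1) * (2 * (2 ^ m * (i + 8 * w') - 4 * u') - 1)) i hiodd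
      (c := 4 * w' + (i + 8 * w') * (-(2 ^ (m + 4) * (i + 8 * w')) -
        (2 ^ m * (i + 8 * w') - 4 * u') +
        2 * ((2 ^ (m + 4) * (i + 8 * w')) * (2 ^ m * (i + 8 * w') - 4 * u')))) (by
      have hQ : (2 : Ω) ^ m * (i + 8 * w') - 4 * u' ∈ B :=
        B.sub_mem (hq m) (B.mul_mem _ _ h4B hu')
      refine B.add_mem _ _ (B.mul_mem _ _ h4B hw') (B.mul_mem _ _ hwB (B.add_mem _ _
        (B.sub_mem (B.neg_mem _ (hq _)) hQ) (B.mul_mem _ _ h2B (B.mul_mem _ _ (hq _) hQ)))))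
      (by ring)
    obtain ⟨h6, h7⟩ := l7c_eq h2 (m := 2 * a) (n := (m : ℤ) + 9) hVu.1 hVu.2.1 hVu.2.2 h3 h4 h5 (by
      rw [heq, zpow_add₀ two_ne_zero, zpow_natCast]
      have h9 : (2 : Ω) ^ (9 : ℤ) = 512 := by norm_num
      rw [h9, pow_succ, pow_add]
      ring)
    obtain ⟨m, rfl⟩ : ∃ m' : ℕ, m = m' + 1 := ⟨m - 1, by omega⟩
    have hQ : (2 : Ω) ^ m * (i + 8 * w') - 2 * u' ∈ B :=
      B.sub_mem (hq m) (B.mul_mem _ _ h2B hu')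
    have h8 : (((1 - i : ℤ) : Ω)) / 2 ^ 2 ∈ B := by
      have h9 : (((1 - i : ℤ) : Ω)) / 2 ^ 2 = (2 * w' + (i + 8 * w') *
          (-(2 ^ (m + 4) * (i + 8 * w')) - (2 ^ m * (i + 8 * w') - 2 * u') +
        4 * ((2 ^ (m + 4) * (i + 8 * w')) * (2 ^ m * (i + 8 * w') - 2 * u')))) - 2 * v' := by
        push_cast
        have h10 : (1 - (i : Ω)) = 4 * ((2 * w' + (i + 8 * w') *
          (-(2 ^ (m + 4) * (i + 8 * w')) - (2 ^ m * (i + 8 * w') - 2 * u') +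
        4 * ((2 ^ (m + 4) * (i + 8 * w')) * (2 ^ m * (i + 8 * w') - 2 * u')))) - 2 * v') := by
          rw [pow_succ (2 : Ω) m, show m + 1 + 4 = (m + 4) + 1 from rfl, pow_succ (2 : Ω) (m + 4)] at h7
          linear_combination h7
        rw [h10]
        ring
      rw [h9]
      refine B.sub_mem (B.add_mem _ _ (B.mul_mem _ _ h2B hw') (B.mul_mem _ _ hwB (B.add_mem _ _
        (B.sub_mem (B.neg_mem _ (hq _)) hQ) (B.mul_mem _ _ h4B (B.mul_mem _ _ (hq _) hQ)))))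
        (B.mul_mem _ _ h2B hv')
    rw [int_div_mem h2] at h8
    rcases hi with rfl | rfl
    · norm_num at h8
    · norm_num at h8

end Pool.Agent.Lib.MP_869d3b_nt.Lo
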