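import Pool.Agent.Lib.MP_869d3b_nt.L.StmL

/-!
# MP_869d3b_nt, local part, piece NSQ
-/

set_option autoImplicit false

namespace Pool.Agent.Lib.MP_869d3b_nt.Lo

theorem piece_NSQ (hSQ8 : S_SQ8) : S_NSQ := by
  intro Ω _ _ B hAlg h2 x hx
  have key : ∀ (j i : ℤ), Odd i → x ^ 2 = 2 ^ j * (i : Ω) → x ≠ 0 → Even j ∧ (8 : ℤ) ∣ i - 1 := by
    intro j i hi h hx0
    refine hSQ8 Ω B hAlg h2 x (i : Ω) j i hx hx0 h ?_ hi
    rw [sub_self, zero_div]
    exact B.zero_mem
  have hne : ∀ c : Ω, c ≠ 0 → x ^ 2 = c → x ≠ 0 := by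
    rintro c hc h rfl
    apply hc
    rw [← h]
    simp
  refine ⟨?_, ?_, ?_, ?_⟩
  · intro h
    have h1 := key 0 (-1) (by decide) (by rw [h]; simp) (hne _ (by simp) h)
    exact absurd h1.2 (by decide)
  · intro h
    have h1 := key 1 1 (by decide) (by rw [h]; simp) (hne _ (by simp) h)
    exact absurd h1.1 (by decide)
  · intro h
    have h1 := key 0 5 (by decide) (by rw [h]; simp) (hne _ (by simp) h)
    exact absurd h1.2 (by decide)
  · intro h
    have h1 := key 1 5 (by decide) (by rw [h]; norm_num) (hne _ (by simp) h)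
    exact absurd h1.1 (by decide)

end Pool.Agent.Lib.MP_869d3b_nt.Lo
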