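import Pool.Agent.Lib.MP_869d3b_nt.L.StmL

set_option autoImplicit false

namespace Pool.Agent.Lib.MP_869d3b_nt.Lo

theorem piece_O4c (hL4 : S_L4) (hL5 : S_L5) : S_O4c := by
  intro Ω _ _ _ B hA h2 x hx hO
  obtain ⟨k, w', hxk, hw'⟩ := hO
  obtain ⟨hw'B, hw'i, hw'n⟩ := unit_of_congr4 h2 (w := w') 1 odd_one (by simpa using hw')
  have hw'0 : w' ≠ 0 := by
    rintro rfl
    exact hw'n B.nonunits.zero_mem
  have two0 : (2 : Ω) ≠ 0 := two_ne_zero
  have hx0 : x ≠ 0 := by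
    rw [hxk]
    exact mul_ne_zero (zpow_ne_zero _ two0) hw'0
  obtain ⟨j, w, i, hxj, hwF, hwi, hi⟩ := hL5 Ω B hA h2 x hx hx0
  have hio : Odd i := by
    rcases hi with rfl | rfl | rfl | rfl <;> decide
  obtain ⟨hwB, hwi', hwn⟩ := unit_of_congr8 h2 i hio hwi
  have hw0 : w ≠ 0 := by
    rintro rfl
    exact hwn B.nonunits.zero_mem
  have e1 : (2 : Ω) ^ (j - k) * w = w' := by
    rw [zpow_sub₀ two0, div_mul_eq_mul_div, div_eq_iff (zpow_ne_zero _ two0), ← hxj, hxk, mul_comm]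
  have e2 : (2 : Ω) ^ (k - j) * w' = w := by
    rw [zpow_sub₀ two0, div_mul_eq_mul_div, div_eq_iff (zpow_ne_zero _ two0), ← hxk, hxj, mul_comm]
  have h1 : 0 ≤ j - k := zpow_mul_mem h2 hwi' hw0 (by rw [e1]; exact hw'B)
  have h3 : 0 ≤ k - j := zpow_mul_mem h2 hw'i hw'0 (by rw [e2]; exact hwB)
  have hjk : j = k := by omega
  have hww : w' = w := by
    rw [← e1, hjk, sub_self, zpow_zero, one_mul]
  rw [hww] at hw'
  have h4 : (4 : ℤ) ∣ i - 1 := by
    have : (((i - 1 : ℤ)) : Ω) / 2 ^ 2 ∈ B := by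
      have h5 := sub_mem hw' (B.mul_mem _ _ (two_mem h2) hwi)
      convert h5 using 1
      push_cast
      ring
    have := (int_div_mem h2).1 this
    simpa using this
  have hi' : i = 1 ∨ i = 5 := by
    rcases hi with rfl | rfl | rfl | rfl
    · left; rfl
    · exfalso; omega
    · right; rfl
    · exfalso; omega
  have hi0 : (i : Ω) ≠ 0 := by
    rw [Int.cast_ne_zero]
    rcases hi' with rfl | rfl <;> decide
  have hc8 : (w / (i : Ω) - 1) / 8 ∈ B := by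
    have := B.mul_mem _ _ hwi (odd_inv_mem h2 i hio)
    convert this using 1
    field_simp
  have hcF : w / (i : Ω) ∈ FB B := div_mem hwF (intCast_mem _ i)
  obtain ⟨v, hv⟩ := IsAlgClosed.exists_pow_nat_eq (w / (i : Ω)) (n := 2) (by norm_num)
  obtain ⟨hvF, -⟩ := hL4 Ω B hA h2 (w / (i : Ω)) v hcF hc8 hv
  have hc0 : w / (i : Ω) ≠ 0 := div_ne_zero hw0 hi0
  have hv0 : v ≠ 0 := by
    rintro rfl
    apply hc0
    rw [← hv]
    ring
  have h2F : (2 : Ω) ∈ FB B := by exact_mod_cast intCast_mem (FB B) 2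
  have hw : w = (i : Ω) * v ^ 2 := by
    rw [hv]
    field_simp
  obtain ⟨a, ha | ha⟩ := Int.even_or_odd' j
  · refine ⟨i, 2 ^ a * v, ?_, mul_mem (zpow_mem h2F a) hvF, mul_ne_zero (zpow_ne_zero _ two0) hv0, ?_⟩
    · rcases hi' with rfl | rfl <;> simp
    · rw [hxj, ha, hw, mul_comm 2 a, zpow_mul]
      norm_cast
      ring
  · refine ⟨2 * i, 2 ^ a * v, ?_, mul_mem (zpow_mem h2F a) hvF,
      mul_ne_zero (zpow_ne_zero _ two0) hv0, ?_⟩
    · rcases hi' with rfl | rfl <;> simp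
    · rw [hxj, ha, hw, zpow_add₀ two0, mul_comm 2 a, zpow_mul]
      push_cast
      norm_cast
      ring

end Pool.Agent.Lib.MP_869d3b_nt.Lo
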