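import Pool.Agent.Lib.MP_869d3b_nt.L.StmL

set_option autoImplicit false

namespace Pool.Agent.Lib.MP_869d3b_nt.Lo

private theorem o4m_unit {Ω : Type} [Field Ω] [CharZero Ω] {B : ValuationSubring Ω}
    (h2 : (2 : Ω) ∈ B.nonunits) {w : Ω} (h : (w - 1) / 4 ∈ B) : w ∈ B ∧ w⁻¹ ∈ B ∧ w ≠ 0 := by
  obtain ⟨h3, h4, h5⟩ := unit_of_congr4 h2 (w := w) 1 odd_one (by rw [Int.cast_one]; exact h)
  refine ⟨h3, h4, ?_⟩
  rintro rfl
  exact h5 (zero_mem _)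

theorem piece_O4m : S_O4m := by
  intro Ω _ _ B h2
  refine ⟨?_, ?_, ?_⟩
  · rintro x y ⟨j, w, rfl, hw⟩ ⟨j', w', rfl, hw'⟩
    obtain ⟨h3, -, -⟩ := o4m_unit h2 hw
    refine ⟨j + j', w * w', ?_, ?_⟩
    · rw [zpow_add₀ two_ne_zero]
      ring
    · have e : (w * w' - 1) / 4 = w * ((w' - 1) / 4) + (w - 1) / 4 := by ring
      rw [e]
      exact B.add_mem _ _ (B.mul_mem _ _ h3 hw') hw
  · rintro x ⟨j, w, rfl, hw⟩
    obtain ⟨-, h4, h5⟩ := o4m_unit h2 hw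
    refine ⟨-j, w⁻¹, ?_, ?_⟩
    · rw [mul_inv, zpow_neg]
    · have e : (w⁻¹ - 1) / 4 = -(w⁻¹ * ((w - 1) / 4)) := by
        field_simp
        ring
      rw [e]
      exact B.neg_mem _ (B.mul_mem _ _ h4 hw)
  · rintro x ⟨j, w, rfl, hw⟩
    obtain ⟨-, -, h5⟩ := o4m_unit h2 hw
    exact mul_ne_zero (zpow_ne_zero _ two_ne_zero) h5

end Pool.Agent.Lib.MP_869d3b_nt.Lo
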