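import Pool.Agent.Lib.MP_869d3b_nt.L.StmL

/-!
# MP_869d3b_nt, local part: piece O4s
-/

set_option autoImplicit false

namespace Pool.Agent.Lib.MP_869d3b_nt.Lo

private theorem O4s_int {Ω : Type} [Field Ω] (B : ValuationSubring Ω) (n : ℤ) {x : Ω} (h : x = n) :
    x ∈ B := by
  rw [h]
  exact intCast_mem B n

theorem piece_O4s (hL5 : S_L5) : S_O4s := by
  intro Ω _ _ B halg h2
  refine ⟨?_, ?_, ?_⟩
  · intro x hx hx0
    obtain ⟨j, w, i, hxw, -, hwi, hi⟩ := hL5 Ω B halg h2 x hx hx0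
    have hodd : Odd i := by rcases hi with rfl | rfl | rfl | rfl <;> decide
    obtain ⟨hw, -, -⟩ := unit_of_congr8 h2 i hodd hwi
    refine ⟨2 * j, w ^ 2, ?_, ?_⟩
    · rw [hxw, mul_pow, mul_comm 2 j, zpow_mul, zpow_ofNat]
    · have h3 : (w ^ 2 - 1) / 4 = 2 * ((w - i) / 8) * (w + i) + ((i : Ω) ^ 2 - 1) / 4 := by ring
      rw [h3]
      refine B.add_mem _ _ (B.mul_mem _ _ (B.mul_mem _ _ (two_mem h2) hwi)
        (B.add_mem _ _ hw (intCast_mem B i))) ?_
      rcases hi with rfl | rfl | rfl | rfl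
      · exact O4s_int B 0 (by norm_num)
      · exact O4s_int B 2 (by norm_num)
      · exact O4s_int B 6 (by norm_num)
      · exact O4s_int B 12 (by norm_num)
  · intro x hx hx0
    obtain ⟨j, w, i, hxw, -, hwi, hi⟩ := hL5 Ω B halg h2 x hx hx0
    have h5 : 2 * ((w - i) / 8) ∈ B := B.mul_mem _ _ (two_mem h2) hwi
    have hpos : ∀ m : ℤ, ((i : Ω) - 1) / 4 = m → O4 B x := by
      intro m hm
      refine ⟨j, w, hxw, ?_⟩
      have h3 : (w - 1) / 4 = 2 * ((w - i) / 8) + ((i : Ω) - 1) / 4 := by ring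
      rw [h3]
      exact B.add_mem _ _ h5 (O4s_int B m hm)
    have hneg : ∀ m : ℤ, ((i : Ω) + 1) / 4 = m → O4 B (-x) := by
      intro m hm
      refine ⟨j, -w, by rw [hxw]; ring, ?_⟩
      have h3 : (-w - 1) / 4 = -(2 * ((w - i) / 8) + ((i : Ω) + 1) / 4) := by ring
      rw [h3]
      exact B.neg_mem _ (B.add_mem _ _ h5 (O4s_int B m hm))
    rcases hi with rfl | rfl | rfl | rfl
    · exact Or.inl (hpos 0 (by norm_num))
    · exact Or.inr (hneg 1 (by norm_num))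
    · exact Or.inl (hpos 1 (by norm_num))
    · exact Or.inr (hneg 2 (by norm_num))
  · rintro x ⟨⟨j, w, hxw, hw⟩, ⟨k, w', hxw', hw'⟩⟩
    have h1 : Odd (1 : ℤ) := odd_one
    obtain ⟨a1, a2, a3⟩ := unit_of_congr4 h2 1 h1 (w := w) (by push_cast; exact hw)
    obtain ⟨b1, b2, b3⟩ := unit_of_congr4 h2 1 h1 (w := w') (by push_cast; exact hw')
    have hw0 : w ≠ 0 := by
      rintro rfl
      exact a3 (zero_mem _)
    have hw'0 : w' ≠ 0 := by
      rintro rfl
      exact b3 (zero_mem _)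
    have heq : (2 : Ω) ^ j * w = -((2 : Ω) ^ k * w') := by rw [← hxw, ← hxw', neg_neg]
    have hjk : (2 : Ω) ^ (j - k) * w = - w' := by
      rw [zpow_sub₀ two_ne_zero, div_mul_eq_mul_div, heq, neg_div,
        mul_div_cancel_left₀ _ (zpow_ne_zero _ two_ne_zero)]
    have hkj : (2 : Ω) ^ (k - j) * w' = - w := by
      rw [zpow_sub₀ two_ne_zero, div_mul_eq_mul_div]
      have : (2 : Ω) ^ k * w' = -((2 : Ω) ^ j * w) := by rw [heq, neg_neg]
      rw [this, neg_div, mul_div_cancel_left₀ _ (zpow_ne_zero _ two_ne_zero)]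
    have i1 : 0 ≤ j - k := zpow_mul_mem h2 a2 hw0 (by rw [hjk]; exact B.neg_mem _ b1)
    have i2 : 0 ≤ k - j := zpow_mul_mem h2 b2 hw'0 (by rw [hkj]; exact B.neg_mem _ a1)
    have i3 : j - k = 0 := by omega
    rw [i3, zpow_zero, one_mul] at hjk
    apply half_not_mem h2
    have h4 : (1 / 2 : Ω) = -((w - 1) / 4 + (w' - 1) / 4) := by
      rw [hjk]
      ring
    rw [h4]
    exact B.neg_mem _ (B.add_mem _ _ hw hw')

end Pool.Agent.Lib.MP_869d3b_nt.Lo
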