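import Pool.Agent.Lib.MP_869d3b_nt.L.StmL

/-!
# MP_869d3b_nt, local part: the piece R1a
-/

set_option autoImplicit false

namespace Pool.Agent.Lib.MP_869d3b_nt.Lo

section

variable {L : Type} [Field L]

private theorem R1a_key (B : ValuationSubring L) (K : Subfield L) (σ : L ≃+* L)
    (h2 : (2 : L) ∉ B.nonunits)
    (hσ : ∀ x ∈ K, x ∈ B → σ x - x ∈ B.nonunits) (c : L) (hcK : c ∈ K)
    (hc : B.valuation c = 1) (hsc : σ c = -c) :
    False := by
  have h2v : B.valuation (2 : L) = 1 := by
    apply le_antisymm
    · rw [ValuationSubring.valuation_le_one_iff]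
      exact_mod_cast natCast_mem B 2
    · rw [ValuationSubring.mem_nonunits_iff] at h2
      exact not_lt.1 h2
  have hcB : c ∈ B := by
    rw [← ValuationSubring.valuation_le_one_iff, hc]
  have h := hσ c hcK hcB
  rw [ValuationSubring.mem_nonunits_iff, hsc] at h
  have h3 : -c - c = -(2 * c) := by ring
  rw [h3, Valuation.map_neg, map_mul, h2v, hc, one_mul] at h
  exact lt_irrefl _ h

end

theorem piece_R1a : S_R1a := by
  intro L _ _ B K σ p z y r h2 hp hpn hσ hpK hzK hyK hrK hC hsp hsz hsy hrz hz
  by_contra hne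
  have hr0 : r ≠ 0 := by
    rintro rfl
    apply hz
    rw [← hrz]
    ring
  have hsr : σ r = -r := by
    have h1 : (σ r) ^ 2 = r ^ 2 := by
      rw [← map_pow, hrz, hsz]
    rcases sq_eq_sq_iff_eq_or_eq_neg.1 h1 with h | h
    · exact absurd h hne
    · exact h
  unfold OnC at hC
  have h20 : (2 : L) ≠ 0 := two_ne_zero
  -- the element `y` is not zero
  have hy0 : y ≠ 0 := by
    rintro rfl
    have h1 : z * (z - 1) * (z - p ^ 4) = 0 := by
      rw [← hC]
      ring
    have h3 : z - 1 = 0 ∨ z - p ^ 4 = 0 := by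
      rcases mul_eq_zero.1 h1 with h | h
      · rcases mul_eq_zero.1 h with h | h
        · exact absurd h hz
        · exact Or.inl h
      · exact Or.inr h
    rcases h3 with h | h
    · have h4 : r ^ 2 = 1 ^ 2 := by
        rw [hrz, sub_eq_zero.1 h]
        ring
      rcases sq_eq_sq_iff_eq_or_eq_neg.1 h4 with h5 | h5
      · exact hne (by rw [h5, map_one])
      · exact hne (by rw [h5, map_neg, map_one])
    · have h4 : r ^ 2 = (p ^ 2) ^ 2 := by
        rw [hrz, sub_eq_zero.1 h]
        ring
      rcases sq_eq_sq_iff_eq_or_eq_neg.1 h4 with h5 | h5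
      · exact hne (by rw [h5, map_pow, hsp])
      · exact hne (by rw [h5, map_neg, map_pow, hsp])
  -- valuations
  have hpv : B.valuation p = 1 := by
    apply le_antisymm
    · by_contra hlt
      push Not at hlt
      have h3 : B.valuation (p ^ 2) ≤ B.valuation p := by
        rw [hp]
        refine (Valuation.map_sub _ _ _).trans (max_le le_rfl ?_)
        refine le_trans ?_ hlt.le
        rw [ValuationSubring.valuation_le_one_iff]
        exact_mod_cast natCast_mem B 2
      rw [map_pow, sq] at h3
      have hpos : 0 < B.valuation p := lt_trans zero_lt_one hlt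
      have h4 : B.valuation p * 1 < B.valuation p * B.valuation p :=
        mul_lt_mul_of_pos_left hlt hpos
      rw [mul_one] at h4
      exact absurd h3 (not_le.2 h4)
    · rw [ValuationSubring.mem_nonunits_iff] at hpn
      exact not_lt.1 hpn
  have hp4 : B.valuation (p ^ 4) = 1 := by
    rw [map_pow, hpv, one_pow]
  have hrv : B.valuation r ^ 2 = B.valuation z := by
    rw [← map_pow, hrz]
  have hr0v : B.valuation r ≠ 0 := (Valuation.ne_zero_iff _).2 hr0
  rcases lt_trichotomy (B.valuation z) 1 with hlt | heq | hgt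
  · -- `z` is in the maximal ideal
    have h1 : B.valuation (z - 1) = 1 := by
      rw [Valuation.map_sub_eq_of_lt_right]
      · exact map_one _
      · rw [map_one]
        exact hlt
    have h3 : B.valuation (z - p ^ 4) = 1 := by
      rw [Valuation.map_sub_eq_of_lt_right]
      · exact hp4
      · rw [hp4]
        exact hlt
    have h4 : B.valuation y ^ 2 = B.valuation r ^ 2 := by
      rw [← map_pow, hC, map_mul, map_mul, h1, h3, mul_one, mul_one, hrv]
    have h5 : B.valuation y = B.valuation r :=
      (pow_left_inj₀ zero_le zero_le two_ne_zero).1 h4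
    refine R1a_key B K σ h2 hσ (y / r) (div_mem hyK hrK) ?_ ?_
    · rw [map_div₀, h5, div_self hr0v]
    · rw [map_div₀, hsy, hsr, div_neg]
  · refine R1a_key B K σ h2 hσ r hrK ?_ hsr
    have h4 : B.valuation r ^ 2 = 1 ^ 2 := by
      rw [hrv, heq, one_pow]
    exact (pow_left_inj₀ zero_le zero_le two_ne_zero).1 h4
  · have h1 : B.valuation (z - 1) = B.valuation z := by
      apply Valuation.map_sub_eq_of_lt_left
      rw [map_one]
      exact hgt
    have h3 : B.valuation (z - p ^ 4) = B.valuation z := by
      apply Valuation.map_sub_eq_of_lt_left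
      rw [hp4]
      exact hgt
    have h4 : B.valuation y ^ 2 = (B.valuation r ^ 3) ^ 2 := by
      rw [← map_pow, hC, map_mul, map_mul, h1, h3, ← hrv]
      simp only [pow_succ, pow_zero, one_mul, mul_assoc]
    have h5 : B.valuation y = B.valuation r ^ 3 :=
      (pow_left_inj₀ zero_le zero_le two_ne_zero).1 h4
    refine R1a_key B K σ h2 hσ (y / r ^ 3) (div_mem hyK (pow_mem hrK 3)) ?_ ?_
    · rw [map_div₀, h5, map_pow, div_self (pow_ne_zero _ hr0v)]
    · rw [map_div₀, hsy, map_pow, hsr]
      have h6 : (-r) ^ 3 = -(r ^ 3) := by ring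
      rw [h6, div_neg]

end Pool.Agent.Lib.MP_869d3b_nt.Lo
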