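import Pool.Agent.Lib.MP_869d3b_nt.L.StmL

/-!
# MP_869d3b_nt, local part: piece R1b (unramifiedness outside `p`, the case `2 ∈ B.nonunits`)
-/

set_option autoImplicit false

namespace Pool.Agent.Lib.MP_869d3b_nt.Lo

private theorem R1b_key {L : Type} [Field L] [CharZero L] (B : ValuationSubring L)
    (K : Subfield L) (σ : L ≃+* L)
    (h2 : (2 : L) ∈ B.nonunits) (hσ : ∀ x ∈ K, x ∈ B → σ x - x ∈ B.nonunits) (c : L) (hcK : c ∈ K)
    (hc : (c ^ 2 - 1) / 4 ∈ B) (hs : σ c = -c) : False := by
  have hθ : (1 + c) / 2 ∈ B := by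
    rcases B.mem_or_inv_mem ((1 + c) / 2) with h | h
    · exact h
    · by_cases h0 : (1 + c) / 2 = 0
      · rw [h0]
        exact zero_mem B
      · have e : (1 + c) / 2 = 1 + (c ^ 2 - 1) / 4 * ((1 + c) / 2)⁻¹ := by
          have e1 : (c ^ 2 - 1) / 4 = ((1 + c) / 2 - 1) * ((1 + c) / 2) := by ring
          rw [e1, mul_assoc, mul_inv_cancel₀ h0]
          ring
        rw [e]
        exact B.add_mem _ _ (one_mem B) (B.mul_mem _ _ hc h)
  have hθK : (1 + c) / 2 ∈ K :=
    div_mem (add_mem (one_mem K) hcK) (by exact_mod_cast natCast_mem K 2)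
  have h1 := hσ _ hθK hθ
  have e : σ ((1 + c) / 2) - (1 + c) / 2 = -c := by
    rw [map_div₀, map_add, map_one, map_ofNat, hs]
    ring
  rw [e] at h1
  have h3 : c ^ 2 ∈ B.nonunits := by
    have := nonunits_mul h1 (nonunits_mem h1)
    convert this using 1
    ring
  have hc' : (c ^ 2 - ((1 : ℤ) : L)) / 4 ∈ B := by
    rw [Int.cast_one]
    exact hc
  exact (unit_of_congr4 h2 1 odd_one hc').2.2 h3

theorem piece_R1b : S_R1b := by
  intro L _ _ B K σ p z y r h2 hp hpn hσ hpK hzK hyK hrK hC hσp hσz hσy hr hz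
  by_contra hne
  have hrr : σ r = -r := by
    have h1 : (σ r - r) * (σ r + r) = 0 := by
      have : (σ r) ^ 2 = z := by rw [← map_pow, hr, hσz]
      linear_combination this - hr
    rcases mul_eq_zero.1 h1 with h | h
    · exact absurd (sub_eq_zero.1 h) hne
    · exact eq_neg_of_add_eq_zero_left h
  have hp4 : p ^ 4 = -3 * p + 2 := by linear_combination (p ^ 2 + p - 1) * hp
  have hp0 : p ≠ 0 := by
    rintro rfl
    exact hpn B.nonunits.zero_mem
  have hpi : p⁻¹ ∈ B := inv_mem_of_not_nonunits hpn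
  have hq : 1 - p ^ 4 = 16 * (p⁻¹) ^ 4 := by
    have e : p * (1 - p) = 2 := by linear_combination -hp
    have e1 : 1 - p = 2 * p⁻¹ := by
      field_simp
      linear_combination e
    have e2 : (1 - p) ^ 4 = 1 - p ^ 4 := by
      have e3 : (1 - p) ^ 2 = -1 - p := by linear_combination hp
      linear_combination ((1 - p) ^ 2 - 1 - p) * e3 + hp + hp4
    rw [← e2, e1]
    ring
  have hpi4 : (p⁻¹) ^ 4 ∈ B := pow_mem hpi 4
  unfold OnC at hC
  by_cases hy : y = 0
  · -- `r = ± 1` or `r = ± p ^ 2`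
    rw [hy] at hC
    have h1 : z * (z - 1) * (z - p ^ 4) = 0 := by
      rw [← hC]
      ring
    have key : ∀ x : L, σ x = x → r ^ 2 = x ^ 2 → False := by
      intro x hx h
      apply hne
      have h3 : (r - x) * (r + x) = 0 := by linear_combination h
      rcases mul_eq_zero.1 h3 with h4 | h4
      · rw [sub_eq_zero.1 h4, hx]
      · rw [eq_neg_of_add_eq_zero_left h4, map_neg, hx]
    rcases mul_eq_zero.1 h1 with h | h
    · rcases mul_eq_zero.1 h with h | h
      · exact hz h
      · exact key 1 (map_one σ) (by rw [hr, sub_eq_zero.1 h]; ring)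
    · refine key (p ^ 2) (by rw [map_pow, hσp]) ?_
      rw [hr, sub_eq_zero.1 h]
      ring
  · have hh : z - 1 ≠ 0 := by
      intro h
      apply hy
      rw [h, mul_zero, zero_mul] at hC
      exact pow_eq_zero_iff two_ne_zero |>.1 hC
    by_cases h4 : (z - 1) / 4 ∈ B
    · refine R1b_key B K σ h2 hσ r hrK ?_ hrr
      rw [hr]
      exact h4
    · have hn : ((z - 1) / 4)⁻¹ ∈ B.nonunits :=
        (ValuationSubring.inv_mem_nonunits_iff B).2 (Or.inr h4)
      have h40 : (4 : L) ≠ 0 := by norm_num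
      -- `e / 4`
      set e4 : L := (p⁻¹) ^ 4 * 4 / (z - 1) with he4
      have he4n : e4 ∈ B.nonunits := by
        have := nonunits_mul hn hpi4
        convert this using 1
        rw [he4, inv_div]
        ring
      have hen : 4 * e4 ∈ B.nonunits := by
        have h4B : (4 : L) ∈ B := by exact_mod_cast intCast_mem B 4
        have := nonunits_mul he4n h4B
        rwa [mul_comm] at this
      have hu : 1 + 4 * e4 ∉ B.nonunits := one_add_not_nonunits hen
      have hu0 : 1 + 4 * e4 ≠ 0 := by
        intro h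
        rw [h] at hu
        exact hu B.nonunits.zero_mem
      have hui := inv_mem_of_not_nonunits hu
      have hy2 : y ^ 2 = z * (z - 1) ^ 2 * (1 + 4 * e4) := by
        have e1 : 4 * e4 * (z - 1) = 1 - p ^ 4 := by
          rw [he4, hq]
          field_simp
          ring
        rw [hC]
        linear_combination (-z * (z - 1)) * e1
      refine R1b_key B K σ h2 hσ (r * (z - 1) / y)
        (div_mem (mul_mem hrK (sub_mem hzK (one_mem K))) hyK) ?_ ?_
      · have e1 : (r * (z - 1) / y) ^ 2 = (1 + 4 * e4)⁻¹ := by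
          rw [div_pow, mul_pow, hr, hy2]
          have hz1 : z * (z - 1) ^ 2 ≠ 0 := mul_ne_zero hz (pow_ne_zero 2 hh)
          rw [div_mul_eq_div_div, div_self hz1, one_div]
        have e2 : ((r * (z - 1) / y) ^ 2 - 1) / 4 = -(e4 * (1 + 4 * e4)⁻¹) := by
          rw [e1]
          field_simp
          ring
        rw [e2]
        exact B.neg_mem _ (B.mul_mem _ _ (nonunits_mem he4n) hui)
      · rw [map_div₀, map_mul, map_sub, map_one, hrr, hσz, hσy]
        ring

end Pool.Agent.Lib.MP_869d3b_nt.Lo
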