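import Pool.Agent.Lib.MP_869d3b_nt.L.StmL

/-!
# MP_869d3b_nt, local part, piece SQ8
-/

set_option autoImplicit false

namespace Pool.Agent.Lib.MP_869d3b_nt.Lo

theorem piece_SQ8 (hL5 : S_L5) : S_SQ8 := by
  intro Ω _ _ B hal h2 x w j i hx hx0 heq hw hi
  obtain ⟨a, v, m, hxv, -, hvm, hm⟩ := hL5 Ω B hal h2 x hx hx0
  have hmodd : Odd m := by
    rcases hm with rfl | rfl | rfl | rfl <;> decide
  have h8m : (8 : ℤ) ∣ m ^ 2 - 1 := by
    rcases hm with rfl | rfl | rfl | rfl <;> decide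
  obtain ⟨hvB, hvi, hvn⟩ := unit_of_congr8 h2 m hmodd hvm
  obtain ⟨hwB, hwi, hwn⟩ := unit_of_congr8 h2 i hi hw
  have hv0 : v ≠ 0 := by
    rintro rfl
    apply hx0
    rw [hxv, mul_zero]
  have hw0 : w ≠ 0 := by
    rintro rfl
    apply hx0
    rw [mul_zero] at heq
    exact pow_eq_zero_iff (two_ne_zero) |>.1 heq
  have h20 : (2 : Ω) ≠ 0 := two_ne_zero
  -- (v² - 1)/8
  have hv2 : (v ^ 2 - 1) / 8 ∈ B := by
    obtain ⟨r, hr⟩ := h8m
    have h1 : ((v - m) / 8) * (v + m) + (r : Ω) ∈ B :=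
      B.add_mem _ _ (B.mul_mem _ _ hvm (B.add_mem _ _ hvB (intCast_mem B m))) (intCast_mem B r)
    convert h1 using 1
    have h3 : ((m : Ω)) ^ 2 - 1 = 8 * (r : Ω) := by exact_mod_cast hr
    have h8 : (8 : Ω) ≠ 0 := by norm_num
    field_simp
    linear_combination h3
  have e1 : (2 : Ω) ^ (2 * a) * v ^ 2 = 2 ^ j * w := by
    rw [← heq, hxv, mul_pow, two_mul a, zpow_add₀ h20, sq ((2 : Ω) ^ a)]
  have e2 : (2 : Ω) ^ (2 * a - j) * v ^ 2 = w := by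
    rw [zpow_sub₀ h20, div_mul_eq_mul_div, e1, mul_div_assoc, mul_comm ((2 : Ω) ^ j), div_mul_cancel₀]
    exact zpow_ne_zero _ h20
  have e3 : (2 : Ω) ^ (j - 2 * a) * w = v ^ 2 := by
    rw [zpow_sub₀ h20, div_mul_eq_mul_div, ← e1, mul_div_assoc, mul_comm ((2 : Ω) ^ (2 * a)),
      div_mul_cancel₀]
    exact zpow_ne_zero _ h20
  have f1 : 0 ≤ 2 * a - j := by
    refine zpow_mul_mem h2 ?_ (pow_ne_zero 2 hv0) (by rw [e2]; exact hwB)
    rw [← inv_pow]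
    exact pow_mem hvi 2
  have f2 : 0 ≤ j - 2 * a := by
    refine zpow_mul_mem h2 hwi hw0 ?_
    rw [e3]
    exact pow_mem hvB 2
  have f3 : j = 2 * a := by omega
  refine ⟨⟨a, by omega⟩, ?_⟩
  have e4 : v ^ 2 = w := by
    rw [f3, sub_self, zpow_zero, one_mul] at e2
    exact e2
  have h1 : ((i - 1 : ℤ) : Ω) / 2 ^ 3 ∈ B := by
    have h3 : (v ^ 2 - 1) / 8 - (w - (i : Ω)) / 8 ∈ B := B.sub_mem hv2 hw
    convert h3 using 1
    rw [← e4]
    push_cast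
    have h8 : (8 : Ω) ≠ 0 := by norm_num
    field_simp
    ring
  have h3 := (int_div_mem h2).1 h1
  exact_mod_cast h3

end Pool.Agent.Lib.MP_869d3b_nt.Lo
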