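import Pool.Agent.Lib.MP_869d3b_nt.L.StmL

/-!
# MP_869d3b_nt, local part: piece TRA
-/

set_option autoImplicit false

namespace Pool.Agent.Lib.MP_869d3b_nt.Lo

open NumberField

private theorem tra_prime (hLOC : S_LOC) (M : Type) [Field M] [NumberField M]
    (B : ValuationSubring M) (h2 : (2 : M) ∈ B.nonunits) :
    ∃ P : Ideal (𝓞 M), P.IsPrime ∧ P.LiesOver (Ideal.span {((2 : ℕ) : ℤ)}) ∧
      ∀ a : 𝓞 M, a ∈ P ↔ (a : M) ∈ B.nonunits := by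
  have hmem : ∀ a : 𝓞 M, algebraMap (𝓞 M) M a ∈ B.toSubring := fun a =>
    (hLOC M B h2 a).2 ⟨a, 1, by
      rw [RingOfIntegers.coe_eq_algebraMap, map_one]
      exact one_not_nonunits, by
      rw [RingOfIntegers.coe_eq_algebraMap (1 : 𝓞 M), map_one, div_one]⟩
  obtain ⟨f, hf⟩ : ∃ f : 𝓞 M →+* B, ∀ a, ((f a : B) : M) = a :=
    ⟨(algebraMap (𝓞 M) M).codRestrict B.toSubring hmem, fun a => rfl⟩
  have hP : ((IsLocalRing.maximalIdeal B).comap f).IsPrime := Ideal.comap_isPrime f _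
  have hm : ∀ a : 𝓞 M, a ∈ (IsLocalRing.maximalIdeal B).comap f ↔ (a : M) ∈ B.nonunits := by
    intro a
    rw [Ideal.mem_comap, ← ValuationSubring.coe_mem_nonunits_iff, hf]
  refine ⟨(IsLocalRing.maximalIdeal B).comap f, hP, ⟨?_⟩, hm⟩
  have hmax : (Ideal.span {((2 : ℕ) : ℤ)}).IsMaximal :=
    PrincipalIdealRing.isMaximal_of_irreducible (Nat.prime_iff_prime_int.1 Nat.prime_two).irreducible
  refine hmax.eq_of_le ?_ ?_
  · have h3 := hP.under ℤ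
    exact h3.ne_top
  · rw [Ideal.span_singleton_le_iff_mem, Ideal.mem_comap, hm]
    have h5 : ((algebraMap ℤ (𝓞 M) ((2 : ℕ) : ℤ) : 𝓞 M) : M) = 2 := by
      rw [RingOfIntegers.coe_eq_algebraMap, map_natCast, map_natCast]
      norm_num
    rw [h5]
    exact h2

theorem piece_TRA (hLOC : S_LOC) : S_TRA := by
  intro M _ _ _ B₁ B₂ h1 h2
  obtain ⟨P₁, hP₁, hL₁, hm₁⟩ := tra_prime hLOC M B₁ h1
  obtain ⟨P₂, hP₂, hL₂, hm₂⟩ := tra_prime hLOC M B₂ h2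
  obtain ⟨σ, hσ⟩ := Ideal.exists_smul_eq_of_isGaloisGroup (Ideal.span {((2 : ℕ) : ℤ)}) P₁ P₂
    (M ≃ₐ[ℚ] M)
  have hsm : ∀ a : 𝓞 M, ((σ • a : 𝓞 M) : M) = σ (a : M) := fun a => rfl
  have hg : ∀ a : 𝓞 M, (a : M) ∈ B₁.nonunits ↔ ((σ • a : 𝓞 M) : M) ∈ B₂.nonunits := by
    intro a
    rw [← hm₁, ← hm₂, ← hσ, Ideal.smul_mem_pointwise_smul_iff]
  refine ⟨σ, fun x => ?_⟩
  rw [hLOC M B₁ h1, hLOC M B₂ h2]
  constructor
  · rintro ⟨a, b, hb, rfl⟩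
    refine ⟨σ • a, σ • b, ?_, ?_⟩
    · rwa [← hg]
    · rw [map_div₀, hsm, hsm]
  · rintro ⟨a, b, hb, hx⟩
    refine ⟨σ⁻¹ • a, σ⁻¹ • b, ?_, ?_⟩
    · rw [hg, smul_inv_smul]
      exact hb
    · have h3 : ∀ c : 𝓞 M, ((σ⁻¹ • c : 𝓞 M) : M) = σ.symm (c : M) := fun c => rfl
      rw [h3, h3, ← map_div₀, ← hx, AlgEquiv.symm_apply_apply]

end Pool.Agent.Lib.MP_869d3b_nt.Lo
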