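import Pool.Agent.Lib.MP_869d3b_nt.L.StmL

/-!
# MP_869d3b_nt, local part: piece V1
-/

set_option autoImplicit false

namespace Pool.Agent.Lib.MP_869d3b_nt.Lo

section
variable {Ω : Type} [Field Ω] [CharZero Ω] [IsAlgClosed Ω] (F : Subfield Ω)
  [Algebra.IsAlgebraic F Ω]

private theorem V1_gal : IsGalois F Ω := by
  have h0 : CharZero F := (RingHom.charZero_iff (algebraMap F Ω).injective).2 inferInstance
  have h1 : Algebra.IsSeparable F Ω := inferInstance
  have h2 : Normal F Ω := by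
    rw [normal_iff]
    intro x
    exact ⟨Algebra.IsIntegral.isIntegral x, IsAlgClosed.splits _⟩
  exact ⟨⟩

/-- elements fixed by all automorphisms are in `F` -/
private theorem V1_mem {x : Ω} (h : ∀ σ : Ω ≃ₐ[F] Ω, σ x = x) : x ∈ F := by
  have := V1_gal F
  obtain ⟨y, hy⟩ := (InfiniteGalois.mem_range_algebraMap_iff_fixed (k := F) (K := Ω) x).2 h
  rw [← hy]
  exact y.2

/-- an open subgroup is detected by its fixed elements -/
private theorem V1_moves (H : Subgroup (Ω ≃ₐ[F] Ω)) (hH : IsOpen (H : Set (Ω ≃ₐ[F] Ω)))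
    (g : Ω ≃ₐ[F] Ω) (hg : g ∉ H) : ∃ γ : Ω, (∀ h ∈ H, h γ = γ) ∧ g γ ≠ γ := by
  have := V1_gal F
  let C : ClosedSubgroup (Ω ≃ₐ[F] Ω) := ⟨H, Subgroup.isClosed_of_isOpen H hH⟩
  have h1 := InfiniteGalois.fixingSubgroup_fixedField (k := F) (K := Ω) C
  by_contra hcon
  push Not at hcon
  apply hg
  have h2 : g ∈ (IntermediateField.fixedField (C : Subgroup (Ω ≃ₐ[F] Ω))).fixingSubgroup := by
    rw [IntermediateField.mem_fixingSubgroup_iff]
    intro x hx
    exact hcon x fun h hh => (IntermediateField.mem_fixedField_iff _ _).1 hx h hh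
  rw [h1] at h2
  exact h2

end

private theorem V1_z4 (z : ZMod 4) : ¬ (z = 0 ∨ z = 2) → (z - 1 = 0 ∨ z - 1 = 2) ∧
    (z + 1 = 0 ∨ z + 1 = 2) := by
  revert z
  decide

theorem piece_V1 : S_V1 := by
  intro Ω _ _ _ F _ ψ g α hop hg hα hi hσ
  -- additive form of the homomorphism
  let f : (Ω ≃ₐ[F] Ω) → ZMod 4 := fun σ => Multiplicative.toAdd (ψ σ)
  have fmul : ∀ σ τ, f (σ * τ) = f σ + f τ := fun σ τ => by
    show Multiplicative.toAdd (ψ (σ * τ)) = _
    rw [map_mul]; rfl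
  have finv : ∀ σ, f σ⁻¹ = - f σ := fun σ => by
    show Multiplicative.toAdd (ψ σ⁻¹) = _
    rw [map_inv]; rfl
  have fg : f g = 1 := by
    show Multiplicative.toAdd (ψ g) = 1
    rw [hg]; rfl
  have fker : ∀ σ, f σ = 0 → σ ∈ ψ.ker := fun σ h => by
    rw [MonoidHom.mem_ker]
    exact Multiplicative.toAdd.injective h
  have fE : ∀ σ : Ω ≃ₐ[F] Ω, σ α = α ↔ (f σ = 0 ∨ f σ = 2) := fun σ => hσ σ
  have fEg : ∀ σ, ¬ (f σ = 0 ∨ f σ = 2) → (f (g⁻¹ * σ) = 0 ∨ f (g⁻¹ * σ) = 2) := fun σ h => by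
    rw [fmul, finv, fg]
    have := (V1_z4 _ h).1
    rwa [sub_eq_neg_add] at this
  -- the element moved by `g ^ 2`
  have hg2 : g * g ∉ ψ.ker := by
    intro h
    have h1 : f (g * g) = 0 := by
      show Multiplicative.toAdd (ψ (g * g)) = 0
      rw [MonoidHom.mem_ker.1 h]; rfl
    rw [fmul, fg] at h1
    exact absurd h1 (by decide)
  obtain ⟨γ, hγ, hγ2⟩ := V1_moves F ψ.ker hop (g * g) hg2
  have hfix : ∀ h, f h = 0 → h γ = γ := fun h hh => hγ h (fker h hh)
  set β : Ω := γ - (g * g) γ with hβ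
  have hβ0 : β ≠ 0 := fun h => hγ2 (sub_eq_zero.1 h).symm
  -- `β` is fixed by the kernel
  have hβH : ∀ h, f h = 0 → h β = β := by
    intro h hh
    have e1 : h ((g * g) γ) = (g * g) ((((g * g)⁻¹ * h) * (g * g)) γ) := by
      rw [← AlgEquiv.mul_apply, ← AlgEquiv.mul_apply]
      congr 1
      group
    have e2 : f (((g * g)⁻¹ * h) * (g * g)) = 0 := by
      rw [fmul, fmul, finv, hh, add_zero, neg_add_cancel]
    rw [hβ, map_sub, hfix h hh, e1, hfix _ e2]
  have hβ2 : g (g β) = -β := by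
    have e1 : g (g ((g * g) γ)) = γ := by
      have e3 : g (g ((g * g) γ)) = (g * g * (g * g)) γ := rfl
      rw [e3]
      apply hfix
      rw [fmul, fmul, fg]
      decide
    have e2 : g (g γ) = (g * g) γ := rfl
    rw [hβ, map_sub, map_sub, e1, e2, neg_sub]
  have hgβ0 : g β ≠ 0 := (map_ne_zero g).2 hβ0
  set b : Ω := g β / β with hb
  have hbH : ∀ h, f h = 0 → h b = b := by
    intro h hh
    have e1 : h (g β) = g ((g⁻¹ * h * g) β) := by
      rw [← AlgEquiv.mul_apply, ← AlgEquiv.mul_apply]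
      congr 1
      group
    have e2 : f (g⁻¹ * h * g) = 0 := by
      rw [fmul, fmul, finv, hh, add_zero, neg_add_cancel]
    rw [hb, map_div₀, e1, hβH _ e2, hβH h hh]
  have hbg2 : g (g b) = b := by
    rw [hb, map_div₀, map_div₀, hβ2, map_neg, neg_div_neg_eq]
  -- elements of even parity fix `b`
  have hbE : ∀ σ, (f σ = 0 ∨ f σ = 2) → σ b = b := by
    intro σ h
    rcases h with h | h
    · exact hbH σ h
    · have e1 : f ((g * g)⁻¹ * σ) = 0 := by
        rw [fmul, finv, fmul, fg, h]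
        decide
      have e2 : σ b = (g * g) (((g * g)⁻¹ * σ) b) := by
        rw [← AlgEquiv.mul_apply]
        congr 1
        group
      rw [e2, hbH _ e1]
      exact hbg2
  have hbO : ∀ σ, ¬ (f σ = 0 ∨ f σ = 2) → σ b = g b := by
    intro σ h
    have e2 : σ b = g ((g⁻¹ * σ) b) := by
      rw [← AlgEquiv.mul_apply]
      congr 1
      group
    rw [e2, hbE _ (fEg σ h)]
  have hcE : ∀ σ, (f σ = 0 ∨ f σ = 2) → σ (g b) = g b := by
    intro σ h
    have e1 : σ (g b) = g ((g⁻¹ * σ * g) b) := by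
      rw [← AlgEquiv.mul_apply, ← AlgEquiv.mul_apply]
      congr 1
      group
    have e2 : f (g⁻¹ * σ * g) = f σ := by
      rw [fmul, fmul, finv]; ring
    rw [e1, hbE _ (by rw [e2]; exact h)]
  have hcO : ∀ σ, ¬ (f σ = 0 ∨ f σ = 2) → σ (g b) = b := by
    intro σ h
    have e1 : σ (g b) = (σ * g) b := rfl
    rw [e1]
    apply hbE
    rw [fmul, fg]
    exact (V1_z4 _ h).2
  have hαO : ∀ σ : Ω ≃ₐ[F] Ω, ¬ (f σ = 0 ∨ f σ = 2) → σ α = -α := by
    intro σ h
    have e1 : σ (α ^ 2) = α ^ 2 := σ.commutes ⟨α ^ 2, hα⟩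
    rw [map_pow] at e1
    rcases sq_eq_sq_iff_eq_or_eq_neg.1 e1 with h2 | h2
    · exact absurd ((fE σ).1 h2) h
    · exact h2
  have hgO : ¬ (f g = 0 ∨ f g = 2) := by
    rw [fg]; decide
  have hα0 : α ≠ 0 := by
    intro h
    have h1 : g α = α := by rw [h, map_zero]
    exact hgO ((fE g).1 h1)
  have h20 : (2 : Ω) ≠ 0 := two_ne_zero
  set x : Ω := (b + g b) / 2 with hx
  set y : Ω := (b - g b) / (2 * α) with hy
  have hσ2 : ∀ σ : Ω ≃ₐ[F] Ω, σ (2 : Ω) = 2 := fun σ => map_ofNat σ 2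
  have hxF : x ∈ F := by
    apply V1_mem
    intro σ
    rw [hx, map_div₀, map_add, hσ2]
    by_cases h : f σ = 0 ∨ f σ = 2
    · rw [hbE σ h, hcE σ h]
    · rw [hbO σ h, hcO σ h, add_comm]
  have hyF : y ∈ F := by
    apply V1_mem
    intro σ
    rw [hy, map_div₀, map_sub, map_mul, hσ2]
    by_cases h : f σ = 0 ∨ f σ = 2
    · rw [hbE σ h, hcE σ h, (fE σ).2 h]
    · rw [hbO σ h, hcO σ h, hαO σ h, mul_neg, ← neg_sub b (g b), neg_div_neg_eq]
  have hbgb : b * g b = -1 := by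
    rw [hb, map_div₀, hβ2]
    field_simp
  have key : α ^ 2 * y ^ 2 = x ^ 2 + 1 := by
    have e1 : x ^ 2 - (α * y) ^ 2 = b * g b := by
      rw [hx, hy]
      field_simp
      ring
    rw [hbgb] at e1
    linear_combination -e1
  refine ⟨x, y, hxF, hyF, ?_, key⟩
  intro h0
  apply hi x hxF
  rw [h0] at key
  linear_combination -key

end Pool.Agent.Lib.MP_869d3b_nt.Lo
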