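import Pool.Agent.Lib.MP_869d3b_nt.L.StmL

/-!
# MP_869d3b_nt, local part: piece V1a
-/

set_option autoImplicit false

namespace Pool.Agent.Lib.MP_869d3b_nt.Lo

theorem piece_V1a (hL5 : S_L5) : S_V1a := by
  intro Ω _ _ B halg h2 x hx
  rcases eq_or_ne x 0 with rfl | hx0
  · exact ⟨0, 1, by simp, by simp⟩
  obtain ⟨j, w, i, hxw, -, hw8, hi⟩ := hL5 Ω B halg h2 x hx hx0
  have hodd : Odd i := by
    rcases hi with rfl | rfl | rfl | rfl <;> decide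
  have hwB : w ∈ B := (unit_of_congr8 h2 i hodd hw8).1
  have hi8 : ∃ c : ℤ, ((i : Ω) ^ 2 - 1) / 8 = (c : Ω) := by
    rcases hi with rfl | rfl | rfl | rfl
    · exact ⟨0, by norm_num⟩
    · exact ⟨1, by norm_num⟩
    · exact ⟨3, by norm_num⟩
    · exact ⟨6, by norm_num⟩
  obtain ⟨c, hc⟩ := hi8
  have hsq : (w ^ 2 - 1) / 8 ∈ B := by
    have h1 : (w - i) / 8 * (w + i) + (c : Ω) ∈ B :=
      B.add_mem _ _ (B.mul_mem _ _ hw8 (B.add_mem _ _ hwB (intCast_mem B i))) (intCast_mem B c)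
    convert h1 using 1
    rw [← hc]
    ring
  have hw2 : w ^ 2 ∈ B := pow_mem hwB 2
  have h20 : (2 : Ω) ≠ 0 := two_ne_zero
  have hx2 : x ^ 2 = 2 ^ (2 * j) * w ^ 2 := by
    rw [hxw, mul_pow, ← zpow_natCast ((2 : Ω) ^ j) 2, ← zpow_mul]
    congr 2
    push_cast
    ring
  have h4 : ∀ n : ℤ, (2 : Ω) ^ n = 2 ^ (n - 2) * 4 := by
    intro n
    have : (4 : Ω) = 2 ^ (2 : ℤ) := by norm_num
    rw [this, ← zpow_add₀ h20]
    congr 1
    ring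
  rcases lt_trichotomy j 0 with hj | rfl | hj
  · refine ⟨2 * j, w ^ 2 + 2 ^ (-(2 * j)), ?_, ?_⟩
    · rw [hx2, mul_add, ← zpow_add₀ h20, add_neg_cancel, zpow_zero]
    · have h1 : 2 * ((w ^ 2 - 1) / 8) + (2 : Ω) ^ (-(2 * j) - 2) ∈ B :=
        B.add_mem _ _ (B.mul_mem _ _ (two_mem h2) hsq) (zpow_mem' h2 (by omega))
      convert h1 using 1
      rw [h4 (-(2 * j))]
      ring
  · refine ⟨1, (w ^ 2 + 1) / 2, ?_, ?_⟩
    · rw [hx2, mul_zero, zpow_zero, one_mul, zpow_one]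
      ring
    · convert hsq using 1
      ring
  · refine ⟨0, 1 + 2 ^ (2 * j) * w ^ 2, ?_, ?_⟩
    · rw [hx2]
      simp [add_comm]
    · have h1 : (2 : Ω) ^ (2 * j - 2) * w ^ 2 ∈ B :=
        B.mul_mem _ _ (zpow_mem' h2 (by omega)) hw2
      convert h1 using 1
      rw [h4 (2 * j)]
      ring

end Pool.Agent.Lib.MP_869d3b_nt.Lo
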