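import Pool.Agent.Lib.MP_869d3b_nt.L.StmL

/-!
# MP_869d3b_nt, local part, piece V2
-/

set_option autoImplicit false

namespace Pool.Agent.Lib.MP_869d3b_nt.Lo

private theorem two_inj : Function.Injective (fun x : ℤ_[2] => 2 * x) := by
  intro x y h
  exact mul_left_cancel₀ two_ne_zero h

private theorem two_emb : Topology.IsClosedEmbedding (fun x : ℤ_[2] => 2 * x) :=
  (continuous_const.mul continuous_id).isClosedEmbedding two_inj

private theorem eq_zero_of_div (x : ℤ_[2]) (h : ∀ n : ℕ, ∃ c : ℤ_[2], x = 2 ^ n * c) : x = 0 := by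
  have h1 : ∀ n : ℕ, ‖x‖ ≤ (1 / 2 : ℝ) ^ n := by
    intro n
    obtain ⟨c, hc⟩ := h n
    have h2 : ‖(2 : ℤ_[2])‖ = 1 / 2 := by
      have := PadicInt.norm_p (p := 2)
      norm_num at this ⊢
      exact this
    rw [hc, norm_mul, norm_pow, h2]
    calc (1 / 2 : ℝ) ^ n * ‖c‖ ≤ (1 / 2 : ℝ) ^ n * 1 :=
          mul_le_mul_of_nonneg_left (PadicInt.norm_le_one c) (by positivity)
      _ = (1 / 2 : ℝ) ^ n := mul_one _
  have h3 : Filter.Tendsto (fun n : ℕ => (1 / 2 : ℝ) ^ n) Filter.atTop (nhds 0) :=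
    tendsto_pow_atTop_nhds_zero_of_lt_one (by norm_num) (by norm_num)
  have h4 : ‖x‖ ≤ 0 := ge_of_tendsto' h3 h1
  exact norm_le_zero_iff.1 h4

theorem piece_V2 (hV2g : S_V2g) (hV2s : S_V2s) : S_V2 := by
  intro Ω _ _ _ B halg h2
  obtain ⟨g₁, g₂, hg1, hg2, hg3⟩ := hV2g Ω B halg h2
  refine ⟨g₁, g₂, ?_⟩
  have key : ∀ n : ℕ, ∀ ψ : (Ω ≃ₐ[FB B] Ω) →* Multiplicative ℤ_[2], Continuous ψ → ψ g₁ = 1 →
      ψ g₂ = 1 → ∀ σ, ∃ c : ℤ_[2], (ψ σ).toAdd = 2 ^ n * c := by
    intro n
    induction n with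
    | zero =>
      intro ψ _ _ _ σ
      exact ⟨(ψ σ).toAdd, by rw [pow_zero, one_mul]⟩
    | succ n ih =>
      intro ψ hψ h1 h3 σ
      have hev := hV2s Ω B halg h2 g₁ g₂ hg1 hg2 hg3 ψ hψ h1 h3
      choose c hc using hev
      have hc' : ∀ τ, (ψ τ).toAdd = 2 * c τ := by
        intro τ
        rw [hc τ, toAdd_ofAdd]
      have hz : ∀ τ, ψ τ = 1 → c τ = 0 := by
        intro τ hτ
        have := hc' τ
        rw [hτ, toAdd_one] at this
        have h5 := mul_eq_zero.1 this.symm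
        rcases h5 with h5 | h5
        · exact absurd h5 two_ne_zero
        · exact h5
      let ψ' : (Ω ≃ₐ[FB B] Ω) →* Multiplicative ℤ_[2] :=
        { toFun := fun τ => Multiplicative.ofAdd (c τ)
          map_one' := by rw [hz 1 (map_one ψ), ofAdd_zero]
          map_mul' := by
            intro τ ρ
            rw [← ofAdd_add]
            apply congrArg
            apply two_inj
            show 2 * c (τ * ρ) = 2 * (c τ + c ρ)
            rw [mul_add, ← hc', ← hc', ← hc', map_mul, toAdd_mul] }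
      have hcont : Continuous ψ' := by
        have h6 : Continuous c := by
          rw [two_emb.isInducing.continuous_iff]
          have : (fun x : ℤ_[2] => 2 * x) ∘ c = fun τ => (ψ τ).toAdd := by
            funext τ
            exact (hc' τ).symm
          rw [this]
          exact continuous_toAdd.comp hψ
        exact continuous_ofAdd.comp h6
      obtain ⟨d, hd⟩ := ih ψ' hcont (by show Multiplicative.ofAdd (c g₁) = 1; rw [hz g₁ h1, ofAdd_zero])
        (by show Multiplicative.ofAdd (c g₂) = 1; rw [hz g₂ h3, ofAdd_zero]) σ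
      refine ⟨d, ?_⟩
      have hd' : c σ = 2 ^ n * d := hd
      rw [hc' σ, hd', pow_succ]
      ring
  intro ψ hψ h1 h3
  ext σ
  have : (ψ σ).toAdd = 0 := eq_zero_of_div _ (fun n => key n ψ hψ h1 h3 σ)
  rw [MonoidHom.one_apply, toAdd_one]
  exact congrArg _ this

end Pool.Agent.Lib.MP_869d3b_nt.Lo
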