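import Pool.Agent.Lib.MP_869d3b_nt.L.StmL

/-!
# MP_869d3b_nt, piece V2g
-/

set_option autoImplicit false

namespace Pool.Agent.Lib.MP_869d3b_nt.Lo

private theorem V2g_move {F Ω : Type} [Field F] [Field Ω] [Algebra F Ω] [IsGalois F Ω]
    (K : IntermediateField F Ω) (s : Ω) (hs : s ∉ K) :
    ∃ g : Ω ≃ₐ[F] Ω, (∀ x ∈ K, g x = x) ∧ g s ≠ s := by
  by_contra hcon
  push Not at hcon
  apply hs
  rw [← InfiniteGalois.fixedField_fixingSubgroup K, IntermediateField.mem_fixedField_iff]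
  intro g hg
  exact hcon g fun x hx => (IntermediateField.mem_fixingSubgroup_iff K g).1 hg x hx

private theorem V2g_neg {Ω : Type} [Field Ω] {a b c : Ω} (ha : a ^ 2 = c) (hb : b ^ 2 = c) (h : a ≠ b) :
    a = -b := by
  have h1 : (a - b) * (a + b) = 0 := by
    have : (a - b) * (a + b) = a ^ 2 - b ^ 2 := by ring
    rw [this, ha, hb, sub_self]
  rcases mul_eq_zero.1 h1 with h2 | h2
  · exact absurd (sub_eq_zero.1 h2) h
  · exact eq_neg_of_add_eq_zero_left h2

/-- the elements `a + b t` form an intermediate field if `t ^ 2 ∈ F`. -/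
private theorem V2g_adjoin {Ω : Type} [Field Ω] (F : Subfield Ω) (t : Ω) (ht : t ^ 2 ∈ F)
    (x : Ω) (hx : x ∈ IntermediateField.adjoin F ({t} : Set Ω)) :
    ∃ a b : Ω, a ∈ F ∧ b ∈ F ∧ x = a + b * t := by
  have hint : IsIntegral F t := by
    refine ⟨Polynomial.X ^ 2 - Polynomial.C ⟨t ^ 2, ht⟩, ?_, ?_⟩
    · exact Polynomial.monic_X_pow_sub_C _ two_ne_zero
    · simp only [Polynomial.eval₂_sub, Polynomial.eval₂_X_pow, Polynomial.eval₂_C]
      exact sub_self _
  rw [← IntermediateField.mem_toSubalgebra,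
    IntermediateField.adjoin_simple_toSubalgebra_of_isAlgebraic hint.isAlgebraic] at hx
  induction hx using Algebra.adjoin_induction with
  | mem y hy => exact ⟨0, 1, F.zero_mem, F.one_mem, by rw [Set.mem_singleton_iff.1 hy]; ring⟩
  | algebraMap r => exact ⟨r, 0, r.2, F.zero_mem, by rw [zero_mul, add_zero]; rfl⟩
  | add y z _ _ hy hz =>
    obtain ⟨a, b, ha, hb, rfl⟩ := hy
    obtain ⟨c, d, hc, hd, rfl⟩ := hz
    exact ⟨a + c, b + d, F.add_mem ha hc, F.add_mem hb hd, by ring⟩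
  | mul y z _ _ hy hz =>
    obtain ⟨a, b, ha, hb, rfl⟩ := hy
    obtain ⟨c, d, hc, hd, rfl⟩ := hz
    exact ⟨a * c + b * d * t ^ 2, a * d + b * c,
      F.add_mem (F.mul_mem ha hc) (F.mul_mem (F.mul_mem hb hd) ht),
      F.add_mem (F.mul_mem ha hd) (F.mul_mem hb hc), by ring⟩

theorem piece_V2g (hNSQ : S_NSQ) : S_V2g := by
  intro Ω _ _ _ B halg h2
  have hN := hNSQ Ω B halg h2
  have halgF : Algebra.IsAlgebraic (FB B) Ω := Algebra.IsAlgebraic.tower_top (K := ℚ) (FB B)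
  have hcl : IsAlgClosure (FB B) Ω := ⟨inferInstance, halgF⟩
  have hnorm : Normal (FB B) Ω := IsAlgClosure.normal _ _
  have hsep : Algebra.IsSeparable (FB B) Ω := inferInstance
  have hgal : IsGalois (FB B) Ω := ⟨⟩
  obtain ⟨s, hs⟩ := IsAlgClosed.exists_pow_nat_eq (2 : Ω) (n := 2) (by norm_num)
  obtain ⟨t, ht⟩ := IsAlgClosed.exists_pow_nat_eq (5 : Ω) (n := 2) (by norm_num)
  have h5 : (5 : Ω) ∈ FB B := by exact_mod_cast natCast_mem (FB B) 5
  have htF : t ∉ FB B := fun h => (hN t h).2.2.1 ht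
  have hsK : s ∉ IntermediateField.adjoin (FB B) ({t} : Set Ω) := by
    intro h
    obtain ⟨a, b, ha, hb, hab⟩ := V2g_adjoin (FB B) t (by rw [ht]; exact h5) s h
    have h1 : (2 : Ω) = a ^ 2 + 5 * b ^ 2 + 2 * (a * b) * t := by
      linear_combination (-1) * hs + (s + a + b * t) * hab + b ^ 2 * ht
    have hab0 : a * b = 0 := by
      by_contra hne
      apply htF
      have h20 : (2 : Ω) ≠ 0 := two_ne_zero
      have : t = (2 - a ^ 2 - 5 * b ^ 2) / (2 * (a * b)) := by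
        rw [eq_div_iff (mul_ne_zero h20 hne)]
        linear_combination -h1
      rw [this]
      have h2F : (2 : Ω) ∈ FB B := by exact_mod_cast natCast_mem (FB B) 2
      exact (FB B).div_mem ((FB B).sub_mem ((FB B).sub_mem h2F ((FB B).pow_mem ha 2))
        ((FB B).mul_mem h5 ((FB B).pow_mem hb 2))) ((FB B).mul_mem h2F ((FB B).mul_mem ha hb))
    rw [hab0] at h1
    rcases mul_eq_zero.1 hab0 with h0 | h0
    · refine (hN (5 * b) ((FB B).mul_mem h5 hb)).2.2.2 ?_
      rw [h0] at h1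
      linear_combination (-5) * h1
    · refine (hN a ha).2.1 ?_
      rw [h0] at h1
      linear_combination (-1) * h1
  obtain ⟨g₁, hg1, hg1s⟩ := V2g_move _ s hsK
  obtain ⟨g₂, hg2, hg2t⟩ := V2g_move (⊥ : IntermediateField (FB B) Ω) t (by
    rw [IntermediateField.mem_bot]
    rintro ⟨x, rfl⟩
    exact htF x.2)
  have htK : t ∈ IntermediateField.adjoin (FB B) ({t} : Set Ω) :=
    IntermediateField.mem_adjoin_simple_self _ _
  have key : ∀ (g : Ω ≃ₐ[FB B] Ω) (c : Ω) (hc : g c = c) (u v : Ω), u ^ 2 = c → v ^ 2 = c →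
      g u = -u → g v = -v := by
    intro g c _ u v hu hv h
    rcases eq_or_ne v u with rfl | hne
    · exact h
    · rw [V2g_neg hv hu hne, map_neg, h]
  have hs1 : g₁ s = -s := by
    refine V2g_neg (c := 2) ?_ hs hg1s
    rw [← map_pow, hs, map_ofNat]
  have ht2 : g₂ t = -t := by
    refine V2g_neg (c := 5) ?_ ht hg2t
    rw [← map_pow, ht, map_ofNat]
  refine ⟨g₁, g₂, fun v hv => key g₁ 2 (map_ofNat _ _) s v hs hv hs1, fun v hv => ?_,
    fun v hv => key g₂ 5 (map_ofNat _ _) t v ht hv ht2⟩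
  have := hg1 t htK
  rcases eq_or_ne v t with rfl | hne
  · exact this
  · rw [V2g_neg hv ht hne, map_neg, this]

end Pool.Agent.Lib.MP_869d3b_nt.Lo
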