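import Pool.Agent.Lib.MP_869d3b_nt.L.StmL

/-!
# MP_869d3b_nt, local part: piece V2s
-/

set_option autoImplicit false

namespace Pool.Agent.Lib.MP_869d3b_nt.Lo

section
variable {Ω : Type} [Field Ω] [CharZero Ω] [IsAlgClosed Ω] (F : Subfield Ω)
  [Algebra.IsAlgebraic F Ω]

private theorem V2s_gal : IsGalois F Ω := by
  have h0 : CharZero F := (RingHom.charZero_iff (algebraMap F Ω).injective).2 inferInstance
  have h1 : Algebra.IsSeparable F Ω := inferInstance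
  have h2 : Normal F Ω := by
    rw [normal_iff]
    intro x
    exact ⟨Algebra.IsIntegral.isIntegral x, IsAlgClosed.splits _⟩
  exact ⟨⟩

/-- elements fixed by all automorphisms are in `F` -/
private theorem V2s_mem {x : Ω} (h : ∀ σ : Ω ≃ₐ[F] Ω, σ x = x) : x ∈ F := by
  have := V2s_gal F
  obtain ⟨y, hy⟩ := (InfiniteGalois.mem_range_algebraMap_iff_fixed (k := F) (K := Ω) x).2 h
  rw [← hy]
  exact y.2

/-- an open subgroup is detected by its fixed elements -/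
private theorem V2s_moves (H : Subgroup (Ω ≃ₐ[F] Ω)) (hH : IsOpen (H : Set (Ω ≃ₐ[F] Ω)))
    (g : Ω ≃ₐ[F] Ω) (hg : g ∉ H) : ∃ γ : Ω, (∀ h ∈ H, h γ = γ) ∧ g γ ≠ γ := by
  have := V2s_gal F
  let C : ClosedSubgroup (Ω ≃ₐ[F] Ω) := ⟨H, Subgroup.isClosed_of_isOpen H hH⟩
  have h1 := InfiniteGalois.fixingSubgroup_fixedField (k := F) (K := Ω) C
  by_contra hcon
  push Not at hcon
  apply hg
  have h2 : g ∈ (IntermediateField.fixedField (C : Subgroup (Ω ≃ₐ[F] Ω))).fixingSubgroup := by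
    rw [IntermediateField.mem_fixingSubgroup_iff]
    intro x hx
    exact hcon x fun h hh => (IntermediateField.mem_fixedField_iff _ _).1 hx h hh
  rw [h1] at h2
  exact h2

/-- an index two subgroup given by the parity of a homomorphism to `ZMod 4` -/
private theorem V2s_sqrt (ψ : (Ω ≃ₐ[F] Ω) →* Multiplicative (ZMod 4))
    (hop : IsOpen (ψ.ker : Set (Ω ≃ₐ[F] Ω))) (g : Ω ≃ₐ[F] Ω)
    (hg : ψ g = Multiplicative.ofAdd 1) : ∃ α : Ω, α ^ 2 ∈ F ∧ g α ≠ α ∧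
      ∀ σ : Ω ≃ₐ[F] Ω, σ α = α ↔ (ψ σ = Multiplicative.ofAdd 0 ∨ ψ σ = Multiplicative.ofAdd 2) := by
  let f : (Ω ≃ₐ[F] Ω) → ZMod 4 := fun σ => Multiplicative.toAdd (ψ σ)
  have fmul : ∀ σ τ, f (σ * τ) = f σ + f τ := fun σ τ => by
    show Multiplicative.toAdd (ψ (σ * τ)) = _
    rw [map_mul]; rfl
  have finv : ∀ σ, f σ⁻¹ = - f σ := fun σ => by
    show Multiplicative.toAdd (ψ σ⁻¹) = _
    rw [map_inv]; rfl
  have f1 : f 1 = 0 := by
    show Multiplicative.toAdd (ψ 1) = _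
    rw [map_one]; rfl
  have fg : f g = 1 := by
    show Multiplicative.toAdd (ψ g) = 1
    rw [hg]; rfl
  have dec1 : ∀ z w : ZMod 4, (z = 0 ∨ z = 2) → (w = 0 ∨ w = 2) → (z + w = 0 ∨ z + w = 2) := by
    decide
  have dec2 : ∀ z : ZMod 4, (z = 0 ∨ z = 2) → (-z = 0 ∨ -z = 2) := by decide
  have dec3 : ∀ z : ZMod 4, ¬ (z = 0 ∨ z = 2) → (-1 + z = 0 ∨ -1 + z = 2) := by decide
  let H : Subgroup (Ω ≃ₐ[F] Ω) :=
    { carrier := {σ | f σ = 0 ∨ f σ = 2}
      mul_mem' := fun {a b} ha hb => by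
        show f (a * b) = 0 ∨ f (a * b) = 2
        rw [fmul]; exact dec1 _ _ ha hb
      one_mem' := Or.inl f1
      inv_mem' := fun {a} ha => by
        show f a⁻¹ = 0 ∨ f a⁻¹ = 2
        rw [finv]; exact dec2 _ ha }
  have hH : IsOpen (H : Set (Ω ≃ₐ[F] Ω)) := by
    refine Subgroup.isOpen_mono (H₁ := ψ.ker) ?_ hop
    intro σ hσ
    left
    show Multiplicative.toAdd (ψ σ) = 0
    rw [MonoidHom.mem_ker.1 hσ]; rfl
  have hgH : g ∉ H := by
    intro h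
    have h' : f g = 0 ∨ f g = 2 := h
    rw [fg] at h'
    exact absurd h' (by decide)
  obtain ⟨γ, hγ, hγ2⟩ := V2s_moves F H hH g hgH
  set α : Ω := γ - g γ with hα
  have hα0 : α ≠ 0 := fun h => hγ2 (sub_eq_zero.1 h).symm
  have hE : ∀ h : Ω ≃ₐ[F] Ω, h ∈ H → h α = α := by
    intro h hh
    have e1 : h (g γ) = g ((g⁻¹ * h * g) γ) := by
      rw [← AlgEquiv.mul_apply, ← AlgEquiv.mul_apply]
      congr 1
      group
    have e2 : g⁻¹ * h * g ∈ H := by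
      show f (g⁻¹ * h * g) = 0 ∨ f (g⁻¹ * h * g) = 2
      have e3 : f (g⁻¹ * h * g) = f h := by rw [fmul, fmul, finv]; ring
      rw [e3]; exact hh
    rw [hα, map_sub, hγ h hh, e1, hγ _ e2]
  have hgα : g α = -α := by
    have e1 : g (g γ) = γ := by
      have e2 : g (g γ) = (g * g) γ := rfl
      rw [e2]
      apply hγ
      show f (g * g) = 0 ∨ f (g * g) = 2
      rw [fmul, fg]
      decide
    rw [hα, map_sub, e1, neg_sub]
  have hO : ∀ h : Ω ≃ₐ[F] Ω, h ∉ H → h α = -α := by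
    intro h hh
    have e1 : h α = g ((g⁻¹ * h) α) := by
      rw [← AlgEquiv.mul_apply]
      congr 1
      group
    have e2 : g⁻¹ * h ∈ H := by
      show f (g⁻¹ * h) = 0 ∨ f (g⁻¹ * h) = 2
      rw [fmul, finv, fg]
      exact dec3 _ hh
    rw [e1, hE _ e2, hgα]
  have hneg : -α ≠ α := by
    intro h
    apply hα0
    have : (2 : Ω) * α = 0 := by linear_combination -h
    rcases mul_eq_zero.1 this with h | h
    · exact absurd h two_ne_zero
    · exact h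
  refine ⟨α, ?_, by rw [hgα]; exact hneg, ?_⟩
  · apply V2s_mem
    intro σ
    rw [map_pow]
    by_cases h : σ ∈ H
    · rw [hE σ h]
    · rw [hO σ h]; ring
  · intro σ
    constructor
    · intro h
      by_contra hcon
      have : σ ∉ H := hcon
      rw [hO σ this] at h
      exact hneg h
    · intro h
      exact hE σ h

end

/-- reduction modulo four -/
private noncomputable def V2s_r : ℤ_[2] →+* ZMod 4 := PadicInt.toZModPow 2

private theorem V2s_ker (x : ℤ_[2]) : V2s_r x = 0 ↔ ‖x‖ < (2 : ℝ)⁻¹ := by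
  have h1 : V2s_r x = 0 ↔ x ∈ (Ideal.span {((2 : ℕ) : ℤ_[2]) ^ 2} : Ideal ℤ_[2]) := by
    rw [← PadicInt.ker_toZModPow 2 (p := 2)]
    rfl
  rw [h1, ← PadicInt.norm_le_pow_iff_mem_span_pow]
  rw [PadicInt.norm_le_pow_iff_norm_lt_pow_add_one]
  norm_num

private theorem V2s_red (ψ : ℤ_[2]) (h : ∀ c : ℤ_[2], ψ ≠ 2 * c) : V2s_r ψ = 1 ∨ V2s_r ψ = -1 := by
  have h1 : ¬ ‖ψ‖ < 1 := by
    intro h1
    rw [PadicInt.norm_lt_one_iff_dvd] at h1
    obtain ⟨c, hc⟩ := h1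
    exact h c (by rw [hc]; norm_cast)
  have h2 : IsUnit ψ := by
    rw [PadicInt.isUnit_iff]
    exact le_antisymm (PadicInt.norm_le_one ψ) (not_lt.1 h1)
  have h3 : IsUnit (V2s_r ψ) := h2.map V2s_r
  have h4 : ∀ z : ZMod 4, (∃ w, z * w = 1) → (z = 1 ∨ z = -1) := by decide
  obtain ⟨w, hw⟩ := h3.exists_right_inv
  exact h4 _ ⟨w, hw⟩

theorem piece_V2s (hV1 : S_V1) (hV1a : S_V1a) (hO4m : S_O4m) (hO4s : S_O4s) (hO4c : S_O4c)
    (hNSQ : S_NSQ) : S_V2s := by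
  intro Ω _ _ _ B halg h2 g₁ g₂ hg1 hg1' hg2 ψ hψ hψ1 hψ2 σ₀
  by_contra hcon
  push Not at hcon
  have : Algebra.IsAlgebraic (FB B) Ω := Algebra.IsAlgebraic.tower_top (K := ℚ) (FB B)
  let ψ4 : (Ω ≃ₐ[FB B] Ω) →* Multiplicative (ZMod 4) :=
    (AddMonoidHom.toMultiplicative V2s_r.toAddMonoidHom).comp ψ
  have hψ4 : ∀ σ, ψ4 σ = Multiplicative.ofAdd (V2s_r (Multiplicative.toAdd (ψ σ))) := fun σ => rfl
  have hop : IsOpen (ψ4.ker : Set (Ω ≃ₐ[FB B] Ω)) := by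
    have e1 : (ψ4.ker : Set (Ω ≃ₐ[FB B] Ω)) =
        (fun σ => Multiplicative.toAdd (ψ σ)) ⁻¹' {x : ℤ_[2] | ‖x‖ < (2 : ℝ)⁻¹} := by
      ext σ
      rw [SetLike.mem_coe, MonoidHom.mem_ker, hψ4]
      exact V2s_ker (Multiplicative.toAdd (ψ σ))
    rw [e1]
    refine IsOpen.preimage (continuous_toAdd.comp hψ) ?_
    exact isOpen_lt continuous_norm continuous_const
  obtain ⟨g, hg⟩ : ∃ g, ψ4 g = Multiplicative.ofAdd 1 := by
    rcases V2s_red (Multiplicative.toAdd (ψ σ₀)) (fun c hc => hcon c (by rw [← hc]; rfl)) with h | h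
    · exact ⟨σ₀, by rw [hψ4, h]⟩
    · refine ⟨σ₀⁻¹, ?_⟩
      rw [map_inv, hψ4, h]
      rfl
  obtain ⟨α, hα, hgα, hσ⟩ := V2s_sqrt (FB B) ψ4 hop g hg
  have hα0 : α ≠ 0 := by
    intro h
    apply hgα
    rw [h, map_zero]
  obtain ⟨x, y, hx, hy, hy0, hxy⟩ := hV1 Ω (FB B) ψ4 g α hop hg hα
    (fun x hx => (hNSQ Ω B halg h2 x hx).1) hσ
  obtain ⟨m1, m2, -⟩ := hO4m Ω B h2
  obtain ⟨s1, -, -⟩ := hO4s Ω B halg h2
  have hO : O4 B (α ^ 2) := by
    have e1 : α ^ 2 = (x ^ 2 + 1) * (y ^ 2)⁻¹ := by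
      rw [← hxy]
      field_simp
    rw [e1]
    exact m1 _ _ (hV1a Ω B halg h2 x hx) (m2 _ (s1 y hy hy0))
  obtain ⟨d, u, hd, hu, hu0, hdu⟩ := hO4c Ω B halg h2 (α ^ 2) hα hO
  have hfu : ∀ σ : Ω ≃ₐ[FB B] Ω, σ u = u := fun σ => σ.commutes ⟨u, hu⟩
  have hψ1' : g₁ α = α := by
    rw [hσ]
    left
    rw [hψ4, hψ1]
    show Multiplicative.ofAdd (V2s_r 0) = _
    rw [map_zero]
  have hψ2' : g₂ α = α := by
    rw [hσ]
    left
    rw [hψ4, hψ2]
    show Multiplicative.ofAdd (V2s_r 0) = _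
    rw [map_zero]
  have hself : ∀ s : Ω, s = -s → s = 0 := by
    intro s h
    have : (2 : Ω) * s = 0 := by linear_combination h
    rcases mul_eq_zero.1 this with h | h
    · exact absurd h two_ne_zero
    · exact h
  have hquo : (α / u) ^ 2 = (d : Ω) := by
    rw [div_pow, hdu]
    field_simp
  have hquo0 : α / u ≠ 0 := div_ne_zero hα0 hu0
  rcases hd with h | h | h | h
  · -- `d = 1`
    rw [h, Int.cast_one] at hquo
    apply hgα
    have e1 : α = α / u * u := by field_simp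
    have hquo' : α / u * (α / u) = 1 := by rw [← sq]; exact hquo
    rcases mul_self_eq_one_iff.1 hquo' with h1 | h1
    · rw [h1, one_mul] at e1
      rw [e1, hfu]
    · rw [h1, neg_one_mul] at e1
      rw [e1, map_neg, hfu]
  · -- `d = 2`
    rw [h] at hquo
    have e1 := hg1 (α / u) (by rw [hquo]; norm_num)
    rw [map_div₀, hψ1', hfu] at e1
    exact hquo0 (hself _ e1)
  · -- `d = 5`
    rw [h] at hquo
    have e1 := hg2 (α / u) (by rw [hquo]; norm_num)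
    rw [map_div₀, hψ2', hfu] at e1
    exact hquo0 (hself _ e1)
  · -- `d = 10`
    rw [h] at hquo
    obtain ⟨t, ht⟩ := IsAlgClosed.exists_pow_nat_eq (5 : Ω) (n := 2) (by norm_num)
    have ht0 : t ≠ 0 := by
      intro h0
      rw [h0] at ht
      norm_num at ht
    have e1 := hg1 (α / u / t) (by
      rw [div_pow, hquo, ht]
      norm_num)
    rw [map_div₀, map_div₀, hψ1', hfu, hg1' t ht] at e1
    exact div_ne_zero hquo0 ht0 (hself _ e1)

end Pool.Agent.Lib.MP_869d3b_nt.Lo
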