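import Pool.Agent.Lib.MP_869d3b_nt.L.P_EXT
import Pool.Agent.Lib.MP_869d3b_nt.L.P_L1
import Pool.Agent.Lib.MP_869d3b_nt.L.P_L10
import Pool.Agent.Lib.MP_869d3b_nt.L.P_L10p
import Pool.Agent.Lib.MP_869d3b_nt.L.P_L2
import Pool.Agent.Lib.MP_869d3b_nt.L.P_L3
import Pool.Agent.Lib.MP_869d3b_nt.L.P_L4
import Pool.Agent.Lib.MP_869d3b_nt.L.P_L5
import Pool.Agent.Lib.MP_869d3b_nt.L.P_L6a
import Pool.Agent.Lib.MP_869d3b_nt.L.P_L6b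
import Pool.Agent.Lib.MP_869d3b_nt.L.P_L6c
import Pool.Agent.Lib.MP_869d3b_nt.L.P_L7
import Pool.Agent.Lib.MP_869d3b_nt.L.P_L7a
import Pool.Agent.Lib.MP_869d3b_nt.L.P_L7b
import Pool.Agent.Lib.MP_869d3b_nt.L.P_L7c
import Pool.Agent.Lib.MP_869d3b_nt.L.P_NSQ
import Pool.Agent.Lib.MP_869d3b_nt.L.P_O4c
import Pool.Agent.Lib.MP_869d3b_nt.L.P_O4m
import Pool.Agent.Lib.MP_869d3b_nt.L.P_O4s
import Pool.Agent.Lib.MP_869d3b_nt.L.P_R1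
import Pool.Agent.Lib.MP_869d3b_nt.L.P_R1a
import Pool.Agent.Lib.MP_869d3b_nt.L.P_R1b
import Pool.Agent.Lib.MP_869d3b_nt.L.P_SQ8
import Pool.Agent.Lib.MP_869d3b_nt.L.P_TRA
import Pool.Agent.Lib.MP_869d3b_nt.L.P_V1
import Pool.Agent.Lib.MP_869d3b_nt.L.P_V1a
import Pool.Agent.Lib.MP_869d3b_nt.L.P_V2
import Pool.Agent.Lib.MP_869d3b_nt.L.P_V2g
import Pool.Agent.Lib.MP_869d3b_nt.L.P_V2s
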