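import Pool.Agent.Lib.MP_869d3b_nt.L.StmL

/-!
# MP_869d3b_nt, local part: piece LOC
-/

set_option autoImplicit false

namespace Pool.Agent.Lib.MP_869d3b_nt.Lo

open NumberField

/-- The integers of `M` are in every valuation ring. -/
private theorem loc_int_mem {M : Type} [Field M] (B : ValuationSubring M)
    (a : 𝓞 M) : (a : M) ∈ B := by
  have h1 : IsIntegral ℤ (a : M) := a.isIntegral_coe
  have h2 : IsIntegral B (a : M) := h1.tower_top
  obtain ⟨y, hy⟩ := (IsIntegrallyClosed.isIntegral_iff (R := B) (K := M)).1 h2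
  rw [← hy]
  exact y.2

private theorem loc_add {M : Type} [Field M] (a b : 𝓞 M) : ((a + b : 𝓞 M) : M) = a + b :=
  map_add (algebraMap (𝓞 M) M) a b

private theorem loc_mul {M : Type} [Field M] (a b : 𝓞 M) : ((a * b : 𝓞 M) : M) = a * b :=
  map_mul (algebraMap (𝓞 M) M) a b

private theorem loc_one {M : Type} [Field M] : ((1 : 𝓞 M) : M) = 1 :=
  map_one (algebraMap (𝓞 M) M)

private theorem loc_zero {M : Type} [Field M] : ((0 : 𝓞 M) : M) = 0 :=
  map_zero (algebraMap (𝓞 M) M)

/-- The prime of `𝓞 M` of the integers in the maximal ideal of `B`. -/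
private def locP {M : Type} [Field M] (B : ValuationSubring M) : Ideal (𝓞 M) where
  carrier := {b | (b : M) ∈ B.nonunits}
  add_mem' := by
    intro a b ha hb
    change ((a + b : 𝓞 M) : M) ∈ B.nonunits
    rw [loc_add]
    exact nonunits_add ha hb
  zero_mem' := by
    change ((0 : 𝓞 M) : M) ∈ B.nonunits
    rw [loc_zero]
    exact B.nonunits.zero_mem
  smul_mem' := by
    intro c x hx
    change ((c * x : 𝓞 M) : M) ∈ B.nonunits
    rw [loc_mul, mul_comm]
    exact nonunits_mul hx (loc_int_mem B c)

private theorem mem_locP {M : Type} [Field M] (B : ValuationSubring M) (b : 𝓞 M) :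
    b ∈ locP B ↔ (b : M) ∈ B.nonunits := Iff.rfl

private theorem locP_prime {M : Type} [Field M] (B : ValuationSubring M) : (locP B).IsPrime := by
  constructor
  · intro h
    have h1 : (1 : 𝓞 M) ∈ locP B := by rw [h]; exact Submodule.mem_top
    rw [mem_locP, loc_one] at h1
    exact one_not_nonunits h1
  · intro x y hxy
    rw [mem_locP, loc_mul, ValuationSubring.mem_nonunits_iff, map_mul] at hxy
    rw [mem_locP, mem_locP, ValuationSubring.mem_nonunits_iff, ValuationSubring.mem_nonunits_iff]
    by_contra h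
    rw [not_or, not_lt, not_lt] at h
    exact absurd hxy (not_lt.2 (one_le_mul_of_one_le_of_one_le h.1 h.2))

theorem piece_LOC : S_LOC := by
  intro M _ _ B h2 x
  constructor
  · intro hx
    by_cases hx0 : x = 0
    · exact ⟨0, 1, by simpa using one_not_nonunits, by simp [hx0]⟩
    haveI hP : (locP B).IsPrime := locP_prime B
    have h0 : locP B ≠ ⊥ := by
      intro h
      have h1 : (2 : 𝓞 M) ∈ locP B := by
        rw [mem_locP]
        exact_mod_cast h2
      rw [h, Ideal.mem_bot] at h1
      exact two_ne_zero h1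
    have hS : (locP B).primeCompl ≤ nonZeroDivisors (𝓞 M) := Ideal.primeCompl_le_nonZeroDivisors _
    let A := Localization.subalgebra.ofField M (locP B).primeCompl hS
    haveI : IsLocalization.AtPrime A (locP B) :=
      Localization.subalgebra.isLocalization_ofField M (locP B).primeCompl hS
    haveI : IsFractionRing A M :=
      Localization.subalgebra.isFractionRing_ofField M (locP B).primeCompl hS
    haveI : IsDiscreteValuationRing A :=
      IsLocalization.AtPrime.isDiscreteValuationRing_of_dedekind_domain (𝓞 M) h0 A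
    have key : ∀ y : A, ∃ a b : 𝓞 M, (b : M) ∉ B.nonunits ∧ (y : M) = (a : M) / (b : M) := by
      intro y
      obtain ⟨a, s, hs, h⟩ := y.2
      refine ⟨a, s, ?_, ?_⟩
      · exact hs
      · rw [div_eq_mul_inv]
        exact h
    rcases ValuationRing.isInteger_or_isInteger A x with ⟨y, hy⟩ | ⟨y, hy⟩
    · obtain ⟨a, b, hb, h⟩ := key y
      exact ⟨a, b, hb, by rw [← h]; exact hy.symm⟩
    · obtain ⟨a, b, hb, h⟩ := key y
      have hxi : x⁻¹ = (a : M) / (b : M) := by rw [← h]; exact hy.symm
      by_cases ha : (a : M) ∈ B.nonunits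
      · exfalso
        have h3 : x⁻¹ ∈ B.nonunits := by
          rw [hxi, div_eq_mul_inv]
          exact nonunits_mul ha (inv_mem_of_not_nonunits hb)
        have h4 := nonunits_mul h3 hx
        rw [inv_mul_cancel₀ hx0] at h4
        exact one_not_nonunits h4
      · exact ⟨b, a, ha, by rw [← inv_inv x, hxi, inv_div]⟩
  · rintro ⟨a, b, hb, rfl⟩
    rw [div_eq_mul_inv]
    exact B.mul_mem _ _ (loc_int_mem B a) (inv_mem_of_not_nonunits hb)

end Pool.Agent.Lib.MP_869d3b_nt.Lo
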