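import Pool.Agent.Lib.MP_869d3b_nt.StmI
import Pool.Agent.Lib.MP_869d3b_nt.L.AllL
import Pool.Agent.Lib.MP_869d3b_nt.L.P_LOC

/-!
# MP_869d3b_nt: the interface statements of `StmI` from the pieces of the local part
-/

set_option autoImplicit false

namespace Pool.Agent.Lib.MP_869d3b_nt

open Lo

theorem lo_L1 : Lo.S_L1 := piece_L1 piece_L2

theorem lo_L3 : Lo.S_L3 := piece_L3 lo_L1 piece_L2

theorem lo_L4 : Lo.S_L4 := piece_L4 lo_L1

theorem lo_L5 : Lo.S_L5 := piece_L5 lo_L1 piece_L2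

theorem lo_SQ8 : Lo.S_SQ8 := piece_SQ8 lo_L5

theorem lo_O4c : Lo.S_O4c := piece_O4c lo_L4 lo_L5

theorem lo_NSQ : Lo.S_NSQ := piece_NSQ lo_SQ8

theorem lo_L6a : Lo.S_L6a := piece_L6a lo_L4

theorem lo_L6c : Lo.S_L6c := piece_L6c lo_L4 lo_L6a piece_L6b lo_SQ8

theorem lo_L7 : Lo.S_L7 := piece_L7 lo_L5 piece_L6b piece_L7a piece_L7b piece_L7c

theorem lo_R1 : Lo.S_R1 := piece_R1 piece_R1a piece_R1b

theorem lo_V2g : Lo.S_V2g := piece_V2g lo_NSQ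

theorem lo_V2s : Lo.S_V2s :=
  piece_V2s piece_V1 (piece_V1a lo_L5) piece_O4m (piece_O4s lo_L5) lo_O4c lo_NSQ

theorem lo_V2 : Lo.S_V2 := piece_V2 lo_V2g lo_V2s

variable (Ω : Type) [Field Ω] [CharZero Ω]

theorem p_R1 : S_R1 Ω := by
  intro p hp B hpB L σ hpL hσp hin z y r hz hy hr hC hz0 hσz hσy hrz
  exact lo_R1 Ω B L σ p z y r hp hpB hin hpL hz hy hr hC hσp hσz hσy hrz hz0

theorem p_L1 : S_L1 Ω := by
  intro halg B h2 x
  exact lo_L1 Ω B halg h2 x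

theorem p_L3 : S_L3 Ω := by
  intro halg B h2 L σ hin x hxL hx
  exact lo_L3 Ω B halg h2 L σ (fun y hy hyB => nonunits_mem (hin y hy hyB)) x hxL hx

theorem p_V2 : S_V2 Ω := by
  intro hcl halg B h2
  exact lo_V2 Ω B halg h2

theorem two_nonunits_of {Ω : Type} [Field Ω] {B : ValuationSubring Ω} {p : Ω}
    (hp : p ^ 2 = p - 2) (hpB : p ∈ B.nonunits) : (2 : Ω) ∈ B.nonunits := by
  have h : (2 : Ω) = p * (1 - p) := by linear_combination hp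
  rw [h]
  exact nonunits_mul hpB (sub_mem (one_mem B) (nonunits_mem hpB))

theorem p_loc : S_loc Ω := by
  intro hcl halg p hp B hpB
  have h2 : (2 : Ω) ∈ B.nonunits := two_nonunits_of hp hpB
  have hsq : ∀ c : Ω, ∃ x : Ω, x ^ 2 = c := fun c => IsAlgClosed.exists_pow_nat_eq c two_pos
  obtain ⟨⟨u, hu, hu0, hpu⟩, hns⟩ := lo_L6c Ω B p halg h2 hpB hp
  obtain ⟨h6p, h6r, h6x⟩ := lo_L6a Ω B halg h2
  obtain ⟨x, hx⟩ := hsq (-39)
  have hxF := h6x x hx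
  have hx0 : x ≠ 0 := by
    rintro rfl
    norm_num at hx
  have h5F : (5 : Ω) ∈ FB B := by exact_mod_cast natCast_mem (FB B) 5
  refine ⟨h2, h6p p hp, ⟨u, hu, hu0, hpu⟩, ⟨x / 5, div_mem hxF h5F, ?_, ?_⟩,
    ⟨x, hxF, hx0, by rw [hx]; ring⟩, ?_, h6r, ?_⟩
  · exact div_ne_zero hx0 (by norm_num)
  · rw [div_pow, hx]
    norm_num
  · rintro ⟨w, hw, hw2⟩
    exact hns w hw hw2
  · intro z y hz hy hz0 hC
    obtain ⟨d, w, hd, hw, hw0, hzw⟩ := lo_O4c Ω B halg h2 z hz (lo_L7 Ω B p z y halg h2 hpB hp hz hy hz0 hC)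
    rcases hd with rfl | rfl | rfl | rfl
    · exact Or.inl ⟨w, hw, hw0, by exact_mod_cast hzw⟩
    · exact Or.inr (Or.inl ⟨w, hw, hw0, by exact_mod_cast hzw⟩)
    · exact Or.inr (Or.inr (Or.inl ⟨w, hw, hw0, by exact_mod_cast hzw⟩))
    · exact Or.inr (Or.inr (Or.inr ⟨w, hw, hw0, by exact_mod_cast hzw⟩))

theorem p_L10 : S_L10 Ω := by
  intro hcl halg B0 B h0 h T
  obtain ⟨g, hg⟩ := piece_L10 (piece_TRA piece_LOC) Ω B0 B halg h0 h T
  refine ⟨g, fun x hx => hg x ?_⟩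
  have hle : Subfield.closure (T : Set Ω) ≤ (IntermediateField.adjoin ℚ (T : Set Ω)).toSubfield := by
    rw [Subfield.closure_le]
    exact IntermediateField.subset_adjoin ℚ (T : Set Ω)
  exact hle hx

end Pool.Agent.Lib.MP_869d3b_nt
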