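import Pool.Agent.Lib.MP_869d3b_nt.Defs

/-!
# MP_869d3b_nt, local part: elementary facts about a valuation ring `B` with `2 ∈ B.nonunits`
-/

set_option autoImplicit false

namespace Pool.Agent.Lib.MP_869d3b_nt

section

variable {Ω : Type} [Field Ω] {B : ValuationSubring Ω}


theorem int_two_pow_odd {n : ℤ} (hn : n ≠ 0) : ∃ (k : ℕ) (m : ℤ), Odd m ∧ n = 2 ^ k * m := by
  have h : FiniteMultiplicity (2 : ℤ) n := Int.finiteMultiplicity_iff.2 ⟨by decide, hn⟩
  obtain ⟨m, hm, h⟩ := h.exists_eq_pow_mul_and_not_dvd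
  exact ⟨_, m, by rwa [← Int.not_even_iff_odd, even_iff_two_dvd], hm⟩

theorem mem_iff_val {x : Ω} : x ∈ B ↔ B.valuation x ≤ 1 := (B.valuation_le_one_iff x).symm

theorem nonunits_mem {x : Ω} (hx : x ∈ B.nonunits) : x ∈ B := B.nonunits_subset hx

theorem nonunits_mul {x y : Ω} (hx : x ∈ B.nonunits) (hy : y ∈ B) : x * y ∈ B.nonunits := by
  rw [ValuationSubring.mem_nonunits_iff] at hx ⊢
  rw [map_mul]
  rw [mem_iff_val] at hy
  exact mul_lt_one_of_lt_of_le hx hy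

theorem nonunits_add {x y : Ω} (hx : x ∈ B.nonunits) (hy : y ∈ B.nonunits) :
    x + y ∈ B.nonunits := B.nonunits.add_mem hx hy

theorem nonunits_sub {x y : Ω} (hx : x ∈ B.nonunits) (hy : y ∈ B.nonunits) :
    x - y ∈ B.nonunits := B.nonunits.sub_mem hx hy

theorem one_not_nonunits : (1 : Ω) ∉ B.nonunits := by
  rw [ValuationSubring.mem_nonunits_iff, map_one]
  exact lt_irrefl 1

/-- `1 + x` is a unit for `x` in the maximal ideal. -/
theorem one_add_not_nonunits {x : Ω} (hx : x ∈ B.nonunits) : 1 + x ∉ B.nonunits := by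
  intro h
  have := nonunits_sub h hx
  rw [add_sub_cancel_right] at this
  exact one_not_nonunits this

/-- an element which is not in the maximal ideal has its inverse in `B`. -/
theorem inv_mem_of_not_nonunits {x : Ω} (hx : x ∉ B.nonunits) : x⁻¹ ∈ B := by
  rw [ValuationSubring.mem_nonunits_iff_or, not_or, not_not] at hx
  exact hx.2

theorem not_nonunits_of_inv_mem {x : Ω} (h0 : x ≠ 0) (hx : x⁻¹ ∈ B) : x ∉ B.nonunits := by
  rw [ValuationSubring.mem_nonunits_iff_or, not_or, not_not]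
  exact ⟨h0, hx⟩

variable (h2 : (2 : Ω) ∈ B.nonunits)

include h2

theorem two_mem : (2 : Ω) ∈ B := nonunits_mem h2

theorem odd_not_nonunits (n : ℤ) (hn : Odd n) : (n : Ω) ∉ B.nonunits := by
  obtain ⟨m, rfl⟩ := hn
  have h1 : (2 : Ω) * (m : Ω) ∈ B.nonunits := nonunits_mul h2 (intCast_mem B m)
  have := one_add_not_nonunits h1
  intro h
  apply this
  push_cast at h
  rwa [add_comm] at h

theorem odd_inv_mem (n : ℤ) (hn : Odd n) : (n : Ω)⁻¹ ∈ B :=
  inv_mem_of_not_nonunits (odd_not_nonunits h2 n hn)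

theorem two_val_lt : B.valuation 2 < 1 := by
  rwa [← ValuationSubring.mem_nonunits_iff]

/-- an element congruent to an odd integer modulo the maximal ideal is a unit. -/
theorem unit_of_congr {w : Ω} (i : ℤ) (hi : Odd i) (h : w - i ∈ B.nonunits) :
    w ∈ B ∧ w⁻¹ ∈ B ∧ w ∉ B.nonunits := by
  have h1 : w ∉ B.nonunits := by
    intro hw
    have := nonunits_sub hw h
    rw [sub_sub_cancel] at this
    exact odd_not_nonunits h2 i hi this
  refine ⟨?_, inv_mem_of_not_nonunits h1, h1⟩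
  have := B.add_mem _ _ (nonunits_mem h) (intCast_mem B i)
  rwa [sub_add_cancel] at this

variable [CharZero Ω]

theorem unit_of_congr8 {w : Ω} (i : ℤ) (hi : Odd i) (h : (w - i) / 8 ∈ B) :
    w ∈ B ∧ w⁻¹ ∈ B ∧ w ∉ B.nonunits := by
  refine unit_of_congr h2 i hi ?_
  have h1 : (2 : Ω) * (4 * ((w - i) / 8)) ∈ B.nonunits := by
    refine nonunits_mul h2 (B.mul_mem _ _ ?_ h)
    exact_mod_cast intCast_mem B 4
  convert h1 using 1
  ring

theorem unit_of_congr4 {w : Ω} (i : ℤ) (hi : Odd i) (h : (w - i) / 4 ∈ B) :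
    w ∈ B ∧ w⁻¹ ∈ B ∧ w ∉ B.nonunits := by
  refine unit_of_congr h2 i hi ?_
  have h1 : (2 : Ω) * (2 * ((w - i) / 4)) ∈ B.nonunits := by
    refine nonunits_mul h2 (B.mul_mem _ _ (two_mem h2) h)
  convert h1 using 1
  ring

omit [CharZero Ω] in
theorem pow_two_mem (j : ℕ) : (2 : Ω) ^ j ∈ B := pow_mem (two_mem h2) j

theorem half_not_mem : (1 / 2 : Ω) ∉ B := by
  intro h
  have := nonunits_mul h2 h
  rw [mul_one_div_cancel (two_ne_zero)] at this
  exact one_not_nonunits this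

/-- `2 ^ j * w ∈ B` with `w` a unit and `j` an integer forces `0 ≤ j`. -/
theorem zpow_mul_mem {j : ℤ} {w : Ω} (hw : w⁻¹ ∈ B) (hw0 : w ≠ 0) (h : (2 : Ω) ^ j * w ∈ B) :
    0 ≤ j := by
  by_contra hj
  push Not at hj
  obtain ⟨m, hm⟩ : ∃ m : ℕ, j = -1 - m := ⟨(-1 - j).toNat, by omega⟩
  apply half_not_mem h2
  have h1 : (2 : Ω) ^ j * w * w⁻¹ * 2 ^ m ∈ B :=
    B.mul_mem _ _ (B.mul_mem _ _ h hw) (pow_two_mem h2 m)
  rw [mul_assoc ((2 : Ω) ^ j), mul_inv_cancel₀ hw0, mul_one, hm, sub_eq_add_neg,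
    zpow_add₀ two_ne_zero, zpow_neg, zpow_neg, zpow_one, zpow_natCast, mul_assoc,
    inv_mul_cancel₀ (pow_ne_zero _ two_ne_zero), mul_one] at h1
  simpa using h1

omit [CharZero Ω] in
/-- `2 ^ j ∈ B` for an integer `j ≥ 0`. -/
theorem zpow_mem' {j : ℤ} (hj : 0 ≤ j) : (2 : Ω) ^ j ∈ B := by
  obtain ⟨m, rfl⟩ := Int.eq_ofNat_of_zero_le hj
  rw [zpow_natCast]
  exact pow_two_mem h2 m

/-- `n / 2 ^ j ∈ B` for integers `n` means that `2 ^ j ∣ n`. -/
theorem int_div_mem {n : ℤ} {j : ℕ} : (n : Ω) / 2 ^ j ∈ B ↔ (2 : ℤ) ^ j ∣ n := by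
  constructor
  · intro h
    rcases eq_or_ne n 0 with rfl | hn
    · exact dvd_zero _
    obtain ⟨k, m, hm, hnm⟩ := int_two_pow_odd hn
    have hm0 : (m : Ω) ≠ 0 := by
      rw [Int.cast_ne_zero]
      rintro rfl
      simp at hm
    have h1 : (2 : Ω) ^ ((k : ℤ) - j) * (m : Ω) ∈ B := by
      convert h using 1
      rw [hnm, zpow_sub₀ two_ne_zero]
      push_cast
      rw [zpow_natCast, zpow_natCast]
      ring
    have h3 := zpow_mul_mem h2 (odd_inv_mem h2 m hm) hm0 h1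
    rw [hnm]
    exact dvd_mul_of_dvd_left (pow_dvd_pow _ (by omega)) _
  · rintro ⟨m, rfl⟩
    push_cast
    rw [mul_div_cancel_left₀ _ (pow_ne_zero _ two_ne_zero)]
    exact intCast_mem B m

/-- a non-zero integer divides a power of `2` in `B`. -/
theorem exists_pow_div_mem (m : ℤ) (hm : m ≠ 0) : ∃ j : ℕ, (2 : Ω) ^ j / (m : Ω) ∈ B := by
  obtain ⟨k, n, hn, hmn⟩ := int_two_pow_odd hm
  refine ⟨k, ?_⟩
  have : (2 : Ω) ^ k / (m : Ω) = (n : Ω)⁻¹ := by
    rw [hmn]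
    push_cast
    rw [div_mul_eq_div_div, div_self (pow_ne_zero _ two_ne_zero), one_div]
  rw [this]
  exact odd_inv_mem h2 n hn

/-- a rational number times a power of `2` is in `B`. -/
theorem exists_pow_mul_rat_mem (q : ℚ) : ∃ j : ℕ, (2 : Ω) ^ j * (q : Ω) ∈ B := by
  obtain ⟨j, hj⟩ := exists_pow_div_mem h2 (q.den : ℤ) (by exact_mod_cast q.den_ne_zero)
  refine ⟨j, ?_⟩
  have := B.mul_mem _ _ hj (intCast_mem B q.num)
  convert this using 1
  rw [Rat.cast_def]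
  push_cast
  ring

end

end Pool.Agent.Lib.MP_869d3b_nt
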