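import Pool.Agent.Lib.MP_869d3b_nt.L.StmL

/-!
# MP_869d3b_nt, local part: piece EXT
-/

set_option autoImplicit false

namespace Pool.Agent.Lib.MP_869d3b_nt.Lo

theorem piece_EXT : S_EXT := by
  intro M Ω _ _ j B
  obtain ⟨A, h, hloc⟩ := IsLocalRing.exists_factor_valuationRing (R := B) (K := Ω)
    (j.comp B.subtype)
  refine ⟨A, ?_⟩
  ext x
  rw [ValuationSubring.mem_comap]
  constructor
  · intro hx
    by_contra hn
    have h1 : x⁻¹ ∈ B := (B.mem_or_inv_mem x).resolve_left hn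
    have hx0 : x ≠ 0 := by
      rintro rfl
      exact hn B.zero_mem
    have h2 : IsUnit (((j.comp B.subtype).codRestrict A.toSubring h) ⟨x⁻¹, h1⟩) := by
      refine IsUnit.of_mul_eq_one (⟨j x, hx⟩ : A.toSubring) ?_
      apply Subtype.ext
      change j x⁻¹ * j x = 1
      rw [← map_mul, inv_mul_cancel₀ hx0, map_one]
    obtain ⟨y, hy⟩ := (hloc.map_nonunit _ h2).exists_right_inv
    have h3 : x⁻¹ * (y : M) = 1 := congrArg Subtype.val hy
    have h4 : (y : M) = x := by
      rw [inv_mul_eq_iff_eq_mul₀ hx0, mul_one] at h3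
      exact h3
    exact hn (h4 ▸ y.2)
  · intro hx
    exact h ⟨x, hx⟩

end Pool.Agent.Lib.MP_869d3b_nt.Lo
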