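import Pool.Agent.Lib.MP_869d3b_nt.L.StmL

/-!
# MP_869d3b_nt, local part, piece L6b
-/

set_option autoImplicit false

namespace Pool.Agent.Lib.MP_869d3b_nt.Lo

theorem piece_L6b : S_L6b := by
  intro Ω _ _ B p h2 hp hpe
  have hnat : ∀ n : ℤ, (n : Ω) ∈ B := fun n => intCast_mem B n
  have h1p : (1 - p) ∉ B.nonunits := by
    have := one_add_not_nonunits (B := B) (x := -p) (by
      have := nonunits_mul hp (hnat (-1))
      simpa using this)
    rwa [← sub_eq_add_neg] at this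
  have h1p0 : (1 - p) ≠ 0 := by
    intro h
    apply h1p
    rw [h]
    exact B.nonunits.zero_mem
  have hinv := inv_mem_of_not_nonunits h1p
  obtain ⟨a, ha, hpa⟩ : ∃ a ∈ B, p = 2 * a := by
    refine ⟨(1 - p)⁻¹, hinv, ?_⟩
    rw [eq_comm, mul_inv_eq_iff_eq_mul₀ h1p0]
    linear_combination hpe
  have h20 : (2 : Ω) ≠ 0 := two_ne_zero
  have hae : a = 1 + 2 * a ^ 2 := by
    apply mul_left_cancel₀ h20
    rw [hpa] at hpe
    linear_combination -hpe
  obtain ⟨b, hb, hab⟩ : ∃ b ∈ B, a ^ 2 = 1 + 4 * b := by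
    refine ⟨a ^ 2 + a ^ 4, B.add_mem _ _ (pow_mem ha 2) (pow_mem ha 4), ?_⟩
    have : a ^ 2 = (1 + 2 * a ^ 2) ^ 2 := by rw [← hae]
    linear_combination this
  have hpb : p = 6 + 16 * b := by
    rw [hpa]
    linear_combination 2 * hae + 4 * hab
  refine ⟨?_, ?_, ?_⟩
  · have : (p - 6) / 16 = b := by rw [hpb]; ring
    rwa [this]
  · have : (p + 2) / 8 = 1 + 2 * b := by rw [hpb]; ring
    rw [this]
    exact B.add_mem _ _ B.one_mem (B.mul_mem _ _ (two_mem h2) hb)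
  · have : (p ^ 4 / 16 - 1) / 8 = b + 2 * b ^ 2 := by
      have h4 : p ^ 4 = 16 * (a ^ 2) ^ 2 := by rw [hpa]; ring
      rw [h4, hab]
      ring
    rw [this]
    exact B.add_mem _ _ hb (B.mul_mem _ _ (two_mem h2) (pow_mem hb 2))

end Pool.Agent.Lib.MP_869d3b_nt.Lo
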