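import Pool.Agent.Lib.MP_869d3b_nt.L.StmL

set_option autoImplicit false

namespace Pool.Agent.Lib.MP_869d3b_nt.Lo

theorem piece_R1 (hR1a : S_R1a) (hR1b : S_R1b) : S_R1 := by
  intro Ω _ _ B L σ p z y r h1 h2 h3 h4 h5 h6 h7 h8 h9 h10 h11 h12 h13
  by_cases h : (2 : Ω) ∈ B.nonunits
  · exact hR1b Ω B L σ p z y r h h1 h2 h3 h4 h5 h6 h7 h8 h9 h10 h11 h12 h13
  · exact hR1a Ω B L σ p z y r h h1 h2 h3 h4 h5 h6 h7 h8 h9 h10 h11 h12 h13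

end Pool.Agent.Lib.MP_869d3b_nt.Lo
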