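import Pool.Agent.Lib.MP_869d3b_nt.L.LTool

/-!
# MP_869d3b_nt, local part: the statements of the pieces (sections 1, 2 and V1, V2 of the paper
`/team-store/MP_869d3b_paper.md`)

`B` is always a valuation ring of a field `Ω` of characteristic zero (algebraic over `ℚ`) with
`2 ∈ B.nonunits` (`2` in the maximal ideal), `FB B` the field of the limits of rational numbers,
`O4 B x` : `x = 2 ^ j * w` with `w ≡ 1 mod 4 B`.  Tools: `L/LTool.lean` (odd integers are units,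
`int_div_mem : (n : Ω) / 2 ^ j ∈ B ↔ 2 ^ j ∣ n`, `zpow_mul_mem`, `exists_pow_mul_rat_mem`,
`unit_of_congr8`, ...).
-/

set_option autoImplicit false

namespace Pool.Agent.Lib.MP_869d3b_nt.Lo

/-! ## 1. Limits of rational numbers -/

/-- **L2.** An element of `Ω` which is divisible by all powers of `2` in `B` is zero.

Proof. Suppose `x ≠ 0`. `x⁻¹` is algebraic over `ℚ`, so there is an integer `m ≠ 0` with `m * x⁻¹`
integral over `ℤ` (Mathlib: `exists_integral_multiple` / `IsAlgebraic.exists_integral_multiple`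
for `ℤ`, after `IsAlgebraic ℤ x⁻¹` from `IsAlgebraic ℚ x⁻¹`, e.g.
`IsFractionRing.isAlgebraic_iff ℤ ℚ Ω`). A valuation ring is integrally closed, so `m * x⁻¹ ∈ B`
(`ValuationSubring` contains `ℤ`; `IsIntegrallyClosed B`, or directly `B.valuation` of a root of a
monic polynomial with coefficients in `B` is `≤ 1`; e.g. `Valuation.mem_of_integral`,
`ValuationRing.isIntegrallyClosed`). By `exists_pow_div_mem` `2 ^ j / m ∈ B` for some `j`, hence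
`2 ^ j * x⁻¹ = (2 ^ j / m) * (m * x⁻¹) ∈ B`. With `x / 2 ^ (j + 1) ∈ B` the product
`(2 ^ j * x⁻¹) * (x / 2 ^ (j + 1)) = 1 / 2` is in `B`, contradiction to `half_not_mem`. -/
def S_L2 : Prop :=
  ∀ (Ω : Type) [Field Ω] [CharZero Ω] (B : ValuationSubring Ω), Algebra.IsAlgebraic ℚ Ω →
    (2 : Ω) ∈ B.nonunits → ∀ x : Ω, (∀ N : ℕ, x / 2 ^ N ∈ B) → x = 0

/-- **L1.** `FB B` is the set of the limits of rational numbers. Uses `S_L2`.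

Proof. `←` is `Subfield.subset_closure`. `→`: `Subfield.closure_induction` (or show that
`{x | Lim B x}` is the carrier of a subfield and use `Subfield.closure_le`). The closure properties:
* `1` and all rational numbers `q`: take `q` itself.
* `x + y`, `-x`: `(x - q) / 2 ^ N + (y - r) / 2 ^ N`.
* BOUND: for `Lim B x` there is `i` with `2 ^ i * x ∈ B`: `x = q + b` with `b ∈ B` (`N = 0`), and
  `2 ^ i * q ∈ B` by `exists_pow_mul_rat_mem`.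
* `x * y`: choose `i` with `2 ^ i * x ∈ B`, `2 ^ i * y ∈ B`, and `q`, `r` with
  `(x - q) / 2 ^ (N + i) ∈ B`, `(y - r) / 2 ^ (N + i) ∈ B`. Then `2 ^ i * r = 2 ^ i * y - 2 ^ i * (y - r)` is
  in `B` and `(x * y - q * r) / 2 ^ N = (2 ^ i * x) * ((y - r) / 2 ^ (N + i)) +
  (2 ^ i * r) * ((x - q) / 2 ^ (N + i))`.
* `x⁻¹` for `x ≠ 0`: by `S_L2` there is `M` with `x / 2 ^ M ∉ B`, so `2 ^ M / x ∈ B`
  (`B.mem_or_inv_mem`). Choose `q` with `(x - q) / 2 ^ (N + 2 * M) ∈ B`. Then `q / 2 ^ M ∉ B`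
  (otherwise `x / 2 ^ M = q / 2 ^ M + (x - q) / 2 ^ M ∈ B`), so `q ≠ 0`, `2 ^ M / q ∈ B`, and
  `(x⁻¹ - q⁻¹) / 2 ^ N = - ((x - q) / 2 ^ (N + 2 * M)) * (2 ^ M / x) * (2 ^ M / q)`; `q⁻¹` is rational. -/
def S_L1 : Prop :=
  ∀ (Ω : Type) [Field Ω] [CharZero Ω] (B : ValuationSubring Ω), Algebra.IsAlgebraic ℚ Ω →
    (2 : Ω) ∈ B.nonunits → ∀ x : Ω, x ∈ FB B ↔ Lim B x

/-- **L3.** An automorphism of `Ω` with `σ x - x ∈ B` for all `x ∈ L ∩ B` (`L` a subfield) fixes the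
elements of `L` which are limits of rational numbers. Uses `S_L1`, `S_L2`.

Proof. Let `x ∈ L`, `x ∈ FB B`, so `Lim B x` (`S_L1`). For `N` choose `q : ℚ` with
`u = (x - q) / 2 ^ N ∈ B`. `u ∈ L`, so `σ u - u = (σ x - x) / 2 ^ N ∈ B`. For all `N`: `σ x - x = 0` by `S_L2`. -/
def S_L3 : Prop :=
  ∀ (Ω : Type) [Field Ω] [CharZero Ω] (B : ValuationSubring Ω), Algebra.IsAlgebraic ℚ Ω →
    (2 : Ω) ∈ B.nonunits →
    ∀ (L : Subfield Ω) (σ : Ω ≃+* Ω), (∀ x ∈ L, x ∈ B → σ x - x ∈ B) →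
      ∀ x : Ω, x ∈ L → x ∈ FB B → σ x = x

/-- **L4.** Every square root of `c ∈ FB B`, `c ≡ 1 mod 8 B`, is in `FB B` and is `± 1 mod 4 B`.
Uses `S_L1`.

Proof. (a) `x ^ 2 ∈ B`, so `x ∈ B` (`B.valuation`, or `mem_or_inv_mem`), and with `u = (x - 1) / 2`:
`u * (u + 1) = (c - 1) / 4 ∈ 2 B`. So `u ∈ B` (`u ^ 2 + u ∈ B`; if `u⁻¹ ∈ B.nonunits` then ...; or
`u ∉ B` gives `B.valuation (u * (u + 1)) > 1`), `u` or `u + 1` is not in the maximal ideal (their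
difference is `1`), so its inverse is in `B`, and the other one is in `2 B`: `(x - 1) / 4 ∈ B` or
`(x + 1) / 4 ∈ B`. Replacing `x` by `-x` (`FB B` is closed under negation) assume `(x - 1) / 4 ∈ B`.
(b) CLAIM: for every `j ≥ 3` there is a rational `q` with `(q - 1) / 4 ∈ B` (cast to `Ω`) and
`(c - q ^ 2) / 2 ^ j ∈ B`. `j = 3`: `q = 1`. Step: let `d = (c - q ^ 2) / 2 ^ j ∈ B`, an element of `FB B`, so
there is a rational number `e` with `(d - e) / 2 ∈ B` (`S_L1`: `Lim B d`, `N = 1`), `e ∈ B`; write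
`e = m / n` with `n` odd (or: choose an integer `e`: a rational number in `B` is congruent mod `2 B`
to `0` or `1`, since its denominator is odd). So `d / 2 ∈ B` (take the same `q`) or `(d - 1) / 2 ∈ B`:
take `q' = q + 2 ^ (j - 1)`: `c - q' ^ 2 = 2 ^ j * d - 2 ^ j * q - 2 ^ (2 j - 2)`, and
`(c - q' ^ 2) / 2 ^ (j + 1) = (d - 1) / 2 - (q - 1) / 2 - 2 ^ (j - 3) ∈ B`. (`(q' - 1) / 4 ∈ B` as `j ≥ 3`.)
(c) For `N` take `q` from (b) with `j = N + 3`. `(x - q) * (x + q) = c - q ^ 2 ∈ 2 ^ j B` and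
`(x + q) / 2 = 1 + (x - 1) / 2 + (q - 1) / 2` is congruent to `1` modulo `2 B`, so a unit (`one_add_not_nonunits`,
`inv_mem_of_not_nonunits`): `(x - q) / 2 ^ (j - 1) ∈ B`. So `Lim B x`. -/
def S_L4 : Prop :=
  ∀ (Ω : Type) [Field Ω] [CharZero Ω] (B : ValuationSubring Ω), Algebra.IsAlgebraic ℚ Ω →
    (2 : Ω) ∈ B.nonunits → ∀ c x : Ω, c ∈ FB B → (c - 1) / 8 ∈ B → x ^ 2 = c →
      x ∈ FB B ∧ ((x - 1) / 4 ∈ B ∨ (x + 1) / 4 ∈ B)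

/-- **L5.** Every non-zero limit of rational numbers is `2 ^ j * w` with `w` congruent to `1`, `3`,
`5` or `7` modulo `8 B`. Uses `S_L1`, `S_L2`.

Proof. By `S_L2` there is `M` with `x / 2 ^ M ∉ B`. Choose `q : ℚ` with `(x - q) / 2 ^ (M + 3) ∈ B` (`S_L1`).
`q ≠ 0` (otherwise `x / 2 ^ M ∈ B`). Write `q = 2 ^ j * (m / n)`, `m`, `n` odd integers, `j : ℤ`
(`int_two_pow_odd` for `q.num` and `q.den`). Put `w = x / 2 ^ j`. `j ≤ M`: otherwise `q / 2 ^ M ∈ B`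
(`m / n ∈ B` by `odd_inv_mem`) and `x / 2 ^ M = q / 2 ^ M + (x - q) / 2 ^ M ∈ B`. So
`(w - m / n) / 8 = ((x - q) / 2 ^ (M + 3)) * 2 ^ (M - j) ∈ B`. Choose `i ∈ {1, 3, 5, 7}` with `8 ∣ m - i * n`
(`n * n ≡ 1 mod 8`; take `i = (m * n) % 8`, odd): `(m / n - i) / 8 = ((m - i * n) / 8) / n ∈ B`. `w ∈ FB B`
because `FB B` is a subfield. -/
def S_L5 : Prop :=
  ∀ (Ω : Type) [Field Ω] [CharZero Ω] (B : ValuationSubring Ω), Algebra.IsAlgebraic ℚ Ω →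
    (2 : Ω) ∈ B.nonunits → ∀ x : Ω, x ∈ FB B → x ≠ 0 →
      ∃ (j : ℤ) (w : Ω) (i : ℤ), x = 2 ^ j * w ∧ w ∈ FB B ∧ (w - i) / 8 ∈ B ∧
        (i = 1 ∨ i = 3 ∨ i = 5 ∨ i = 7)

/-- **SQ8.** A square `x ^ 2 = 2 ^ j * w`, `w ≡ i mod 8 B`, `i` odd, has `j` even and `i ≡ 1 mod 8`.
Uses `S_L5`.

Proof. By `S_L5` `x = 2 ^ a * v`, `(v - m) / 8 ∈ B`, `m ∈ {1, 3, 5, 7}`. Then
`(v ^ 2 - m ^ 2) / 8 = ((v - m) / 8) * (v + m) ∈ B` and `8 ∣ m ^ 2 - 1`, so `(v ^ 2 - 1) / 8 ∈ B`. From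
`2 ^ (2 a) * v ^ 2 = 2 ^ j * w` with `v ^ 2`, `w` units (`unit_of_congr8`) and `zpow_mul_mem` (twice:
`2 ^ (2 a - j) * v ^ 2 = w ∈ B`, and the same with the roles exchanged) `2 a = j`, so `v ^ 2 = w` and
`((i : Ω) - 1) / 8 = (v ^ 2 - 1) / 8 - (w - i) / 8 ∈ B`, hence `8 ∣ i - 1` by `int_div_mem` (`j = 3`). -/
def S_SQ8 : Prop :=
  ∀ (Ω : Type) [Field Ω] [CharZero Ω] (B : ValuationSubring Ω), Algebra.IsAlgebraic ℚ Ω →
    (2 : Ω) ∈ B.nonunits → ∀ (x w : Ω) (j i : ℤ), x ∈ FB B → x ≠ 0 → x ^ 2 = 2 ^ j * w →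
      (w - i) / 8 ∈ B → Odd i → Even j ∧ (8 : ℤ) ∣ i - 1

/-- **O4m.** `O4` is multiplicative and closed under inversion; an element with `O4` is not zero.
No dependency (use `LTool`).

Proof. `2 ^ j * w * (2 ^ j' * w') = 2 ^ (j + j') * (w * w')`,
`(w * w' - 1) / 4 = w * ((w' - 1) / 4) + (w - 1) / 4`, `w ∈ B`. Inverse: `w⁻¹ ∈ B` by `unit_of_congr4`
(with `i = 1`), `(w⁻¹ - 1) / 4 = - w⁻¹ * ((w - 1) / 4)`, `w ≠ 0` because
`(0 - 1) / 4 ∉ B` (`int_div_mem` with `n = -1`, `j = 2`). -/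
def S_O4m : Prop :=
  ∀ (Ω : Type) [Field Ω] [CharZero Ω] (B : ValuationSubring Ω), (2 : Ω) ∈ B.nonunits →
    (∀ x y : Ω, O4 B x → O4 B y → O4 B (x * y)) ∧ (∀ x : Ω, O4 B x → O4 B x⁻¹) ∧
      ∀ x : Ω, O4 B x → x ≠ 0

/-- **O4s.** Squares of non-zero elements of `FB B` have `O4`; for `x ∈ FB B`, `x ≠ 0`, one of
`O4 x`, `O4 (-x)` holds; they do not both hold (for any `x`). Uses `S_L5`.

Proof. `x = 2 ^ j * w`, `w ≡ i mod 8`. `x ^ 2 = 2 ^ (2 j) * w ^ 2` and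
`(w ^ 2 - 1) / 4 = (w - i) / 4 * (w + i) + (i ^ 2 - 1) / 4 ∈ B`. If `i ∈ {1, 5}`: `(w - 1) / 4 ∈ B`; if
`i ∈ {3, 7}`: `(-w - 1) / 4 ∈ B`, `-x = 2 ^ j * (-w)`. Not both: `x = 2 ^ j * w`, `-x = 2 ^ k * w'`,
`w`, `w'` units, so `j = k` (`zpow_mul_mem` twice) and `w' = -w`, and
`(w - 1) / 4 + (-w - 1) / 4 = -1 / 2 ∈ B`, contradiction to `half_not_mem`. -/
def S_O4s : Prop :=
  ∀ (Ω : Type) [Field Ω] [CharZero Ω] (B : ValuationSubring Ω), Algebra.IsAlgebraic ℚ Ω →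
    (2 : Ω) ∈ B.nonunits →
      (∀ x : Ω, x ∈ FB B → x ≠ 0 → O4 B (x ^ 2)) ∧
      (∀ x : Ω, x ∈ FB B → x ≠ 0 → O4 B x ∨ O4 B (-x)) ∧
      (∀ x : Ω, ¬ (O4 B x ∧ O4 B (-x)))

/-- **O4c.** An element `x ∈ FB B` with `O4 x` is `d * u ^ 2` with `d ∈ {1, 2, 5, 10}` and
`u ∈ FB B`. Here `Ω` is algebraically closed. Uses `S_L4`, `S_L5`.

Proof. `x ≠ 0` (see `S_O4m`; `O4` of `0` would give `-1 / 4 ∈ B`). `x = 2 ^ j * w`, `w ∈ FB B`,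
`w ≡ i mod 8`, `i ∈ {1, 3, 5, 7}` by `S_L5`, and `x = 2 ^ k * w'`, `w' ≡ 1 mod 4`; `j = k`, `w = w'`
(`zpow_mul_mem`), so `(i - 1) / 4 ∈ B`, `i ∈ {1, 5}` (`int_div_mem`). Write `j = 2 a` or `j = 2 a + 1`. Let
`d₀ = i ∈ {1, 5}`, `c = w / d₀`: `(c - 1) / 8 = ((w - i) / 8) / i ∈ B` (`odd_inv_mem`). Take `v` with
`v ^ 2 = c` (`IsAlgClosed.exists_pow_nat_eq`), `v ∈ FB B` by `S_L4`, `u = 2 ^ a * v`,
`d = d₀` or `2 * d₀`. -/
def S_O4c : Prop :=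
  ∀ (Ω : Type) [Field Ω] [CharZero Ω] [IsAlgClosed Ω] (B : ValuationSubring Ω),
    Algebra.IsAlgebraic ℚ Ω → (2 : Ω) ∈ B.nonunits → ∀ x : Ω, x ∈ FB B → O4 B x →
      ∃ (d : ℤ) (u : Ω), (d = 1 ∨ d = 2 ∨ d = 5 ∨ d = 10) ∧ u ∈ FB B ∧ u ≠ 0 ∧ x = d * u ^ 2

/-- **NSQ.** `-1`, `2`, `5`, `10` are not squares in `FB B`. Uses `S_SQ8`.

Proof. `x ^ 2 = -1`: `S_SQ8` with `j = 0`, `w = -1`, `i = -1` gives `8 ∣ -2`. `x ^ 2 = 2`: `j = 1`,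
`w = 1`, `i = 1`: `1` is not even. `x ^ 2 = 5`: `j = 0`, `i = 5`: `8 ∣ 4`. `x ^ 2 = 10`: `j = 1`, `w = 5`. -/
def S_NSQ : Prop :=
  ∀ (Ω : Type) [Field Ω] [CharZero Ω] (B : ValuationSubring Ω), Algebra.IsAlgebraic ℚ Ω →
    (2 : Ω) ∈ B.nonunits → ∀ x : Ω, x ∈ FB B → x ^ 2 ≠ -1 ∧ x ^ 2 ≠ 2 ∧ x ^ 2 ≠ 5 ∧ x ^ 2 ≠ 10

/-- **L6a.** The roots of `p ^ 2 = p - 2`, of `r ^ 2 = 2145`, of `x ^ 2 = -39` are in `FB B`.
Uses `S_L4`.

Proof. `s = 2 p - 1` has `s ^ 2 = -7 ≡ 1 mod 8` (`(-7 - 1) / 8 = -1 ∈ B`), so `s ∈ FB B` (`S_L4`; the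
rational number `-7` is in the subfield `FB B`) and `p = (1 + s) / 2 ∈ FB B`. `2145 - 1 = 8 * 268`,
`-39 - 1 = - 8 * 5`. -/
def S_L6a : Prop :=
  ∀ (Ω : Type) [Field Ω] [CharZero Ω] (B : ValuationSubring Ω), Algebra.IsAlgebraic ℚ Ω →
    (2 : Ω) ∈ B.nonunits →
      (∀ p : Ω, p ^ 2 = p - 2 → p ∈ FB B) ∧ (∀ r : Ω, r ^ 2 = 2145 → r ∈ FB B) ∧
      ∀ x : Ω, x ^ 2 = -39 → x ∈ FB B

/-- **L6b.** The root `p` of `p ^ 2 = p - 2` in the maximal ideal of `B` is `6` modulo `16 B`;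
consequences. No dependency (use `LTool`).

Proof. `1 - p` is a unit (`p ∈ B.nonunits`), `p * (1 - p) = 2`, so `p / 2 = (1 - p)⁻¹ ∈ B`; `p = 2 a`,
`a ∈ B`; `p = 2 + p ^ 2 = 2 + 4 a ^ 2`, so `a = 1 + 2 a ^ 2`, `a ^ 2 = 1 + 4 a ^ 2 + 4 a ^ 4 = 1 + 4 b`, `b ∈ B`, and
`p = 2 + 4 (1 + 4 b) = 6 + 16 b`. `p + 2 = 8 (1 + 2 b)`.
`p ^ 4 / 16 = a ^ 4 = (1 + 4 b) ^ 2 = 1 + 8 b + 16 b ^ 2`. -/
def S_L6b : Prop :=
  ∀ (Ω : Type) [Field Ω] [CharZero Ω] (B : ValuationSubring Ω) (p : Ω), (2 : Ω) ∈ B.nonunits →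
    p ∈ B.nonunits → p ^ 2 = p - 2 →
      (p - 6) / 16 ∈ B ∧ (p + 2) / 8 ∈ B ∧ (p ^ 4 / 16 - 1) / 8 ∈ B

/-- **L6c.** For the root `p` in the maximal ideal: `-p ∈ 10 (FB B)²`, `-(1 - p)` is not a square in
`FB B`. Here `Ω` is algebraically closed. Uses `S_L4`, `S_L6a`, `S_L6b`, `S_SQ8`.

Proof. `p = 6 + 16 b`, `b ∈ B`. `c = -p / 10 = (-3 - 8 b) / 5`, `(c - 1) / 8 = (-8 - 8 b) / 40 = -(1 + b) / 5 ∈ B`
(`odd_inv_mem`), `c ∈ FB B`; choose `u` with `u ^ 2 = c` (`IsAlgClosed.exists_pow_nat_eq`): `u ∈ FB B`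
(`S_L4`). `-(1 - p) = 5 + 16 b`, `S_SQ8` with `j = 0`, `i = 5`. -/
def S_L6c : Prop :=
  ∀ (Ω : Type) [Field Ω] [CharZero Ω] [IsAlgClosed Ω] (B : ValuationSubring Ω) (p : Ω),
    Algebra.IsAlgebraic ℚ Ω → (2 : Ω) ∈ B.nonunits → p ∈ B.nonunits → p ^ 2 = p - 2 →
      (∃ u : Ω, u ∈ FB B ∧ u ≠ 0 ∧ -p = 10 * u ^ 2) ∧ ∀ x : Ω, x ∈ FB B → x ^ 2 ≠ -(1 - p)

/-! ## The local image (L7)

Common data of the three arithmetical statements: `i ∈ {3, 7}`, `w ≡ i`, `v² ≡ 1`, `u ≡ 1 mod 8 B`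
and `2 ^ (2 a) * v ^ 2 = 2 ^ j * w * (2 ^ j * w - 1) * (2 ^ j * w - 16 * u)`; claim: contradiction. -/

/-- The common hypotheses of the arithmetical statements. -/
structure L7H {Ω : Type} [Field Ω] (B : ValuationSubring Ω) (a j i : ℤ) (v w u : Ω) : Prop where
  hi : i = 3 ∨ i = 7
  hw : (w - i) / 8 ∈ B
  hv : (v ^ 2 - 1) / 8 ∈ B
  hu : (u - 1) / 8 ∈ B
  eq : (2 : Ω) ^ (2 * a) * v ^ 2 = 2 ^ j * w * (2 ^ j * w - 1) * (2 ^ j * w - 16 * u)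

/-- **L7a.** `j ≤ -1` is impossible. No dependency (use `LTool`).

Proof. All of `v ^ 2`, `w`, `u` are units of `B` (`unit_of_congr8`). Put `t = 2 ^ (-j) / w ∈ 2 B`
(`-j ≥ 1`). The right side is `2 ^ (3 j) * w ^ 3 * ((1 - t) * (1 - 16 * u * t))` and `1 - t`, `1 - 16 u t` are units. So
`2 a = 3 j` (`zpow_mul_mem` twice) and `v ^ 2 = w ^ 3 * ((1 - t) * (1 - 16 u t))`. Hence `j` is even, `j ≤ -2`,
`t ∈ 4 B`, and modulo `4 B`: `v ^ 2 ≡ 1`, `w ^ 3 ≡ i ^ 3 ≡ 3`, `(1 - t) (1 - 16 u t) ≡ 1`. So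
`(1 - i ^ 3) / 4 ∈ B`, i.e. `4 ∣ 1 - i ^ 3` (`int_div_mem`), contradiction for `i = 3, 7`
(`1 - 27 = -26`, `1 - 343 = -342`). -/
def S_L7a : Prop :=
  ∀ (Ω : Type) [Field Ω] [CharZero Ω] (B : ValuationSubring Ω) (a j i : ℤ) (v w u : Ω),
    (2 : Ω) ∈ B.nonunits → L7H B a j i v w u → j ≤ -1 → False

/-- **L7b.** `j ∈ {0, 1, 2, 3}` is impossible. No dependency (use `LTool`).

Proof. Write `w = i + 8 w'`, `v ^ 2 = 1 + 8 v'`, `u = 1 + 8 u'` with `w', v', u' ∈ B`.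
`j = 0`: right side `w * (w - 1) * (w - 16 u)`; `w`, `w - 16 u` are units, `w - 1 = 2 * ((i - 1) / 2 + 4 w')` with
`(i - 1) / 2 ∈ {1, 3}` odd, so `w - 1 = 2 * unit`: `2 a = 1`, impossible (`zpow_mul_mem` twice, parity).
`j = 1`: right side `4 * (w * (2 w - 1) * (w - 8 u))`, the bracket is a unit, so `2 a = 2` and
`v ^ 2 = w (2 w - 1) (w - 8 u)`; modulo `8 B`: `1 ≡ i * (2 i - 1) * i`, i.e. `8 ∣ 1 - i ^ 2 (2 i - 1)`
(`int_div_mem`); `i = 3`: `1 - 45 = -44`, `i = 7`: `1 - 637 = -636`, not divisible by `8`.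
`j = 2`: right side `16 * (w * (4 w - 1) * (w - 4 u))`, `2 a = 4`, modulo `8 B`:
`1 ≡ i (4 i - 1) (i - 4)`: `i = 3`: `3 * 11 * (-1) = -33 ≡ 7`, `i = 7`: `7 * 27 * 3 = 567 ≡ 7`. Impossible.
`j = 3`: right side `64 * (w * (8 w - 1) * (w - 2 u))`, `2 a = 6`, modulo `8 B`:
`1 ≡ i * (-1) * (i - 2)`: `i = 3`: `-3`, `i = 7`: `-35 ≡ 5`. Impossible. -/
def S_L7b : Prop :=
  ∀ (Ω : Type) [Field Ω] [CharZero Ω] (B : ValuationSubring Ω) (a j i : ℤ) (v w u : Ω),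
    (2 : Ω) ∈ B.nonunits → L7H B a j i v w u → 0 ≤ j → j ≤ 3 → False

/-- **L7c.** `j ≥ 4` is impossible. No dependency (use `LTool`).

Proof. `j = 4`: right side `2 ^ 8 * (w * (16 w - 1)) * (w - u)`, and `w - u = 2 * ((i - 1) / 2 + 4 (w' - u'))` is
`2 * unit` (`(i - 1) / 2 ∈ {1, 3}`), so `2 a = 9`, impossible. `j ≥ 5`: the right side is
`2 ^ (j + 4) * (w * u * (1 - 2 ^ j * w) * (1 - 2 ^ (j - 4) * w / u))`, the bracket is a unit (`j - 4 ≥ 1`), so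
`2 a = j + 4`, `j` is even, `j ≥ 6`, and modulo `4 B`: `v ^ 2 ≡ 1`, the bracket `≡ i`. So `4 ∣ 1 - i`
(`int_div_mem`), impossible for `i = 3, 7`. -/
def S_L7c : Prop :=
  ∀ (Ω : Type) [Field Ω] [CharZero Ω] (B : ValuationSubring Ω) (a j i : ℤ) (v w u : Ω),
    (2 : Ω) ∈ B.nonunits → L7H B a j i v w u → 4 ≤ j → False

/-- **L7.** LOCAL IMAGE: the `z`-coordinate of a point over `FB B` has `O4`. Uses `S_L5`, `S_L6b`,
`S_L7a`, `S_L7b`, `S_L7c`.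

Proof. `y = 0`: `z = 1` (`O4 1`: `j = 0`, `w = 1`) or `z = p ^ 4 = 2 ^ 4 * (p ^ 4 / 16)` with
`(p ^ 4 / 16 - 1) / 4 ∈ B` by `S_L6b`. `y ≠ 0`: by `S_L5` `z = 2 ^ j * w`, `w ≡ i`, `y = 2 ^ a * v`, `v ≡ m mod 8`,
`m ∈ {1, 3, 5, 7}`, so `(v ^ 2 - 1) / 8 ∈ B` (`(v - m) / 8 * (v + m) + (m ^ 2 - 1) / 8`). `u = p ^ 4 / 16`,
`(u - 1) / 8 ∈ B`. The equation `OnC` is `L7H.eq`. If `i ∈ {3, 7}`: contradiction by `S_L7a/b/c`. If
`i ∈ {1, 5}`: `(w - 1) / 4 = 2 * ((w - i) / 8) + (i - 1) / 4 ∈ B`. -/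
def S_L7 : Prop :=
  ∀ (Ω : Type) [Field Ω] [CharZero Ω] (B : ValuationSubring Ω) (p z y : Ω),
    Algebra.IsAlgebraic ℚ Ω → (2 : Ω) ∈ B.nonunits → p ∈ B.nonunits → p ^ 2 = p - 2 →
      z ∈ FB B → y ∈ FB B → z ≠ 0 → OnC p z y → O4 B z

/-! ## Conjugation and extension of valuation rings -/

/-- **EXT.** Every valuation ring of `M` extends to `Ω ⊇ M`.

Proof. `B` is a local ring; the local subring `j(B)` of `Ω` is dominated by a valuation ring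
(`LocalSubring.exists_le_valuationSubring` or
`LocalSubring.exists_valuationRing_of_...` in `Mathlib/RingTheory/Valuation/LocalSubring.lean`), call it
`B'`: `j(B) ≤ B'` and `B'.nonunits ∩ j(B) = j(B.nonunits)`. Then `B'.comap j = B`: `⊇` clear; if `x ∉ B`
then `x⁻¹ ∈ B.nonunits`, `j x⁻¹ ∈ B'.nonunits`, so `j x ∉ B'`. -/
def S_EXT : Prop :=
  ∀ (M Ω : Type) [Field M] [Field Ω] (j : M →+* Ω) (B : ValuationSubring M),
    ∃ B' : ValuationSubring Ω, B'.comap j = B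

/-- **LOC.** A valuation ring `B` of a number field `M` with `2 ∈ B.nonunits` is the localisation
of `𝓞 M` at the prime `max(B) ∩ 𝓞 M`: `x ∈ B` iff `x = a / b` with `a, b ∈ 𝓞 M`, `b ∉ B.nonunits`.

Proof. `𝓞 M ⊆ B` (`B` is integrally closed and contains `ℤ`). `←`: `b⁻¹ ∈ B`
(`inv_mem_of_not_nonunits`). `→`: let `P` be the prime ideal of `𝓞 M` of the `b` with
`(b : M) ∈ B.nonunits`; the localisation of the Dedekind domain `𝓞 M` at `P` is a valuation ring of `M`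
(it is a discrete valuation ring, `P ≠ 0` because `2 ∈ P`; e.g.
`IsLocalization.AtPrime.isDiscreteValuationRing_of_dedekind_domain`, or use
`HeightOneSpectrum.valuation`: choose by `HeightOneSpectrum` theory `a, b` with `x = a / b` and `b ∉ P` or
`x⁻¹ = a / b` with `b ∉ P`). If `x⁻¹ = a / b` with `b ∉ P`: if `a ∉ P` then `x = b / a` is of the required form;
if `a ∈ P` then `x⁻¹ ∈ B.nonunits` and `x ∈ B`, contradiction. -/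
def S_LOC : Prop :=
  ∀ (M : Type) [Field M] [NumberField M] (B : ValuationSubring M), (2 : M) ∈ B.nonunits →
    ∀ x : M, x ∈ B ↔ ∃ a b : NumberField.RingOfIntegers M, (b : M) ∉ B.nonunits ∧
      x = (a : M) / (b : M)

/-- **TRA.** Two valuation rings of a Galois number field `M/ℚ` with `2` in the maximal ideals are
conjugate. Uses `S_LOC`.

Proof. Let `P₁`, `P₂` be the primes of `𝓞 M` of the elements in `B₁.nonunits`, `B₂.nonunits`; both lie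
over the prime `(2)` of `ℤ` (they contain `2`). The Galois group acts transitively on the primes
above `(2)` (`Ideal.exists_smul_eq_of_comap_eq`, `Algebra.IsInvariant.exists_smul_of_under_eq`,
`IsGaloisGroup`, or `Ideal.exists_map_eq_of_isGalois`): there is `g : M ≃ₐ[ℚ] M` with
`(g a : M) ∈ B₂.nonunits ↔ (a : M) ∈ B₁.nonunits` for all `a ∈ 𝓞 M`. By `S_LOC`
`x ∈ B₁ ↔ g x ∈ B₂`. -/
def S_TRA : Prop :=
  ∀ (M : Type) [Field M] [NumberField M] [IsGalois ℚ M] (B₁ B₂ : ValuationSubring M),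
    (2 : M) ∈ B₁.nonunits → (2 : M) ∈ B₂.nonunits →
    ∃ g : M ≃ₐ[ℚ] M, ∀ x : M, x ∈ B₁ ↔ g x ∈ B₂

/-- **L10.** Two valuation rings of `Ω` with `2` in the maximal ideal are conjugate at every finite
level. Uses `S_TRA`.

Proof. Let `M` be the normal closure in `Ω` of `ℚ(X)` (`IntermediateField.normalClosure`, or a
splitting field in `Ω` of the product of the minimal polynomials; a finite Galois extension of `ℚ`,
`NumberField M`). Apply `S_TRA` to `B₀.comap (algebraMap M Ω)` and `B.comap (algebraMap M Ω)` and extend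
`g₀ : M ≃ₐ[ℚ] M` to an automorphism of `Ω` (`AlgEquiv.liftNormal g₀ Ω` with `Normal ℚ Ω`, since `Ω` is
algebraically closed and algebraic over `ℚ`; or `IsAlgClosure`). -/
def S_L10 : Prop :=
  ∀ (Ω : Type) [Field Ω] [CharZero Ω] [IsAlgClosed Ω] (B₀ B : ValuationSubring Ω),
    Algebra.IsAlgebraic ℚ Ω → (2 : Ω) ∈ B₀.nonunits → (2 : Ω) ∈ B.nonunits →
    ∀ X : Finset Ω, ∃ g : Ω ≃+* Ω, ∀ x ∈ IntermediateField.adjoin ℚ (X : Set Ω),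
      x ∈ B₀ ↔ g x ∈ B

/-- **L10p.** The same with a root `p` of `p ^ 2 = p - 2` in both maximal ideals: `g` can be chosen
with `g p = p`. Uses `S_L10`.

Proof. Apply `S_L10` to `insert p X`. `g p` is a root of the same equation: `g p = p` or
`g p = 1 - p`. `p ∈ B₀.nonunits`: `p = 0` is impossible (`0 ≠ -2`), so `p⁻¹ ∉ B₀`
(`ValuationSubring.mem_nonunits_iff_or`), `p⁻¹ ∈ adjoin`, so `(g p)⁻¹ ∉ B`, `g p ∈ B.nonunits`. If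
`g p = 1 - p`: both `p` and `1 - p` are in `B.nonunits`, contradiction to `one_add_not_nonunits`. -/
def S_L10p : Prop :=
  ∀ (Ω : Type) [Field Ω] [CharZero Ω] [IsAlgClosed Ω] (B₀ B : ValuationSubring Ω) (p : Ω),
    Algebra.IsAlgebraic ℚ Ω → (2 : Ω) ∈ B₀.nonunits → (2 : Ω) ∈ B.nonunits → p ^ 2 = p - 2 →
    p ∈ B₀.nonunits → p ∈ B.nonunits →
    ∀ X : Finset Ω, ∃ g : Ω ≃+* Ω, g p = p ∧ ∀ x ∈ IntermediateField.adjoin ℚ (X : Set Ω),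
      x ∈ B₀ ↔ g x ∈ B

/-! ## 2. Unramifiedness outside `p` -/

/-- **R1a.** The case `2 ∉ B.nonunits` (`2` a unit). No dependency.

Proof. Suppose `σ r ≠ r`; `(σ r) ^ 2 = σ z = z = r ^ 2`, so `σ r = -r`. `r ≠ 0`. First `y = 0`: `z = 1` or `z = p ^ 4`,
`r = ± 1` or `r = ± p ^ 2`, which are fixed by `σ`; contradiction. Let `y ≠ 0`. `p ∈ B` (root of a monic
polynomial: if `p ∉ B` then `B.valuation p > 1` and `B.valuation (p ^ 2) > B.valuation (p - 2)`), so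
`B.valuation p = 1`, `B.valuation (p ^ 4) = 1`. It is enough to find `c ∈ L` with `B.valuation c = 1`, `σ c = -c`:
then `σ c - c = -2 c` has valuation `1` and is not in `B.nonunits`, contradiction to the hypothesis.
`B.valuation z = 1`: `c = r`. `B.valuation z < 1`: `z - 1` and `z - p ^ 4` have valuation `1`, so
`B.valuation y ^ 2 = B.valuation z = B.valuation r ^ 2`, `c = y / r`. `B.valuation z > 1`: `z - 1`, `z - p ^ 4` have the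
valuation of `z`, `B.valuation y ^ 2 = B.valuation r ^ 6`, `c = y / r ^ 3`. (In a linearly ordered
commutative group with zero `a ^ 2 = b ^ 2 → a = b`: `pow_left_injective` / `pow_left_inj₀`.) -/
def S_R1a : Prop :=
  ∀ (Ω : Type) [Field Ω] [CharZero Ω] (B : ValuationSubring Ω) (L : Subfield Ω) (σ : Ω ≃+* Ω)
    (p z y r : Ω), (2 : Ω) ∉ B.nonunits → p ^ 2 = p - 2 → p ∉ B.nonunits →
    (∀ x ∈ L, x ∈ B → σ x - x ∈ B.nonunits) → p ∈ L → z ∈ L → y ∈ L → r ∈ L →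
    OnC p z y → σ p = p → σ z = z → σ y = y → r ^ 2 = z → z ≠ 0 → σ r = r

/-- **R1b.** The case `2 ∈ B.nonunits`. No dependency.

Proof. As in `S_R1a` we may assume `σ r = -r`, `r ≠ 0`, `y ≠ 0`, `p` a unit of `B`. Let `q = 1 - p`; `p * q = 2`, so
`q / 2 = p⁻¹ ∈ B` (a unit), `q ^ 4 / 16 ∈ B`, and `1 - p ^ 4 = q ^ 4` (from `p ^ 2 = p - 2`).
KEY: if `c ∈ L`, `(c ^ 2 - 1) / 4 ∈ B` and `σ c = -c` then contradiction: `θ = (1 + c) / 2` satisfies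
`θ ^ 2 - θ = (c ^ 2 - 1) / 4 ∈ B`, so `θ ∈ B`; `σ θ - θ = -c`; and `c ^ 2 ≡ 1 mod 4 B`, so `c ∉ B.nonunits`
(`unit_of_congr4`), contradiction to the hypothesis on `σ`.
Case 1: `B.valuation z > 1`. `t = 1 / z ∈ B.nonunits`, `1 - t` is a unit, `c = r * y / (z ^ 2 * (1 - t))`;
`c ^ 2 = z * y ^ 2 / (z ^ 4 (1 - t) ^ 2) = (1 - p ^ 4 t) / (1 - t) = 1 + q ^ 4 * t / (1 - t)`.
Case 2: `z ∈ B`, `h = z - 1`. `h ≠ 0` because `y ≠ 0`. If `h / 4 ∈ B`: `c = r`, `c ^ 2 = z = 1 + h`. Otherwise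
`4 / h ∈ B.nonunits` (`ValuationSubring.inv_mem_nonunits_iff`), `e = q ^ 4 / h = (q ^ 4 / 16) * 4 * (4 / h)`, so
`e / 4 ∈ B.nonunits`; `y ^ 2 = z h (h + q ^ 4) = z h ^ 2 (1 + e)`; `c = r * h / y`, `c ^ 2 = z h ^ 2 / y ^ 2 = 1 / (1 + e)`,
`(c ^ 2 - 1) / 4 = - (e / 4) / (1 + e) ∈ B`. -/
def S_R1b : Prop :=
  ∀ (Ω : Type) [Field Ω] [CharZero Ω] (B : ValuationSubring Ω) (L : Subfield Ω) (σ : Ω ≃+* Ω)
    (p z y r : Ω), (2 : Ω) ∈ B.nonunits → p ^ 2 = p - 2 → p ∉ B.nonunits →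
    (∀ x ∈ L, x ∈ B → σ x - x ∈ B.nonunits) → p ∈ L → z ∈ L → y ∈ L → r ∈ L →
    OnC p z y → σ p = p → σ z = z → σ y = y → r ^ 2 = z → z ≠ 0 → σ r = r

/-- **R1.** Uses `S_R1a`, `S_R1b`. -/
def S_R1 : Prop :=
  ∀ (Ω : Type) [Field Ω] [CharZero Ω] (B : ValuationSubring Ω) (L : Subfield Ω) (σ : Ω ≃+* Ω)
    (p z y r : Ω), p ^ 2 = p - 2 → p ∉ B.nonunits →
    (∀ x ∈ L, x ∈ B → σ x - x ∈ B.nonunits) → p ∈ L → z ∈ L → y ∈ L → r ∈ L →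
    OnC p z y → σ p = p → σ z = z → σ y = y → r ^ 2 = z → z ≠ 0 → σ r = r

/-! ## 5. Characters of the absolute Galois group of `FB B` -/

/-- **V1a.** `x ^ 2 + 1` has `O4` for `x ∈ FB B`. Uses `S_L5`.

Proof. `x = 0`: `1 = 2 ^ 0 * 1`. `x = 2 ^ j * w`, `w ≡ i mod 8`, `i` odd; `w ^ 2 = 1 + 8 b`, `b ∈ B`.
`j ≥ 1`: `x ^ 2 + 1 = 2 ^ 0 * (1 + 4 ^ j w ^ 2)`. `j = 0`: `w ^ 2 + 1 = 2 * (1 + 4 b)`. `j ≤ -1`:
`x ^ 2 + 1 = 2 ^ (2 j) * (w ^ 2 + 2 ^ (-2 j))`, `-2 j ≥ 2`, so `(w ^ 2 + 2 ^ (-2 j) - 1) / 4 = 2 b + 2 ^ (-2 j - 2) ∈ B`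
(`zpow_mem'`). -/
def S_V1a : Prop :=
  ∀ (Ω : Type) [Field Ω] [CharZero Ω] (B : ValuationSubring Ω), Algebra.IsAlgebraic ℚ Ω →
    (2 : Ω) ∈ B.nonunits → ∀ x : Ω, x ∈ FB B → O4 B (x ^ 2 + 1)

/-- **V1.** If `√a` (`a ∈ F` not a square) lies in a cyclic extension of degree `4` of `F` and `-1` is
not a square in `F`, then `a y ^ 2 = x ^ 2 + 1` with `x, y ∈ F`, `y ≠ 0`. The cyclic extension is given by a
homomorphism `ψ : Gal(Ω/F) → ℤ/4` with open kernel, an element `g` with `ψ g = 1`, and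
`σ α = α ↔ ψ σ ∈ {0, 2}`. No dependency.

Proof. Let `G = Gal(Ω/F)`, `H = ψ.ker` (open normal, so closed), `H₁ = {σ | ψ σ ∈ {0, 2}} = H ∪ g ^ 2 H`. By
the infinite Galois correspondence (`InfiniteGalois.fixingSubgroup_fixedField` for closed subgroups)
the fixed field of `H` is not contained in that of `H₁` (`g ^ 2 ∈ H₁ \ H`): there is `γ ∈ Ω` fixed by
`H`, and `β = γ - g ^ 2 γ ≠ 0` (else `γ` is fixed by `H₁`; if all `γ` fixed by `H` were fixed by `g ^ 2`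
then `g ^ 2 ∈ H`). `g ^ 4 ∈ H`, so `g ^ 2 β = -β`; `β` is fixed by `H` (`H` is normal). Put `b = g β / β`:
`g ^ 2 b = (g (g ^ 2 β)) / (g ^ 2 β) = b` and `b` is fixed by `H`, so by `H₁`, i.e. by every `σ` with `σ α = α`.
So `b ∈ F(α)` (`InfiniteGalois`, `IntermediateField.fixedField_fixingSubgroup` for `F⟮α⟯`), so
`b = x + y α` with `x, y ∈ F` (`α ^ 2 = a ∈ F`). `g α = -α` (`(g α) ^ 2 = a`, `g α ≠ α` because `ψ g = 1 ∉ {0, 2}`).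
`b * g b = (g β / β) * (g ^ 2 β / g β) = -1`, so `(x + y α) (x - y α) = -1`: `x ^ 2 - a y ^ 2 = -1`. `y ≠ 0`, otherwise
`x ^ 2 = -1`. -/
def S_V1 : Prop :=
  ∀ (Ω : Type) [Field Ω] [CharZero Ω] [IsAlgClosed Ω] (F : Subfield Ω)
    [Algebra.IsAlgebraic F Ω] (ψ : (Ω ≃ₐ[F] Ω) →* Multiplicative (ZMod 4))
    (g : Ω ≃ₐ[F] Ω) (α : Ω), IsOpen (ψ.ker : Set (Ω ≃ₐ[F] Ω)) →
    ψ g = Multiplicative.ofAdd 1 → α ^ 2 ∈ F → (∀ x ∈ F, x ^ 2 ≠ -1) →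
    (∀ σ : Ω ≃ₐ[F] Ω, σ α = α ↔ (ψ σ = Multiplicative.ofAdd 0 ∨ ψ σ = Multiplicative.ofAdd 2)) →
    ∃ x y : Ω, x ∈ F ∧ y ∈ F ∧ y ≠ 0 ∧ α ^ 2 * y ^ 2 = x ^ 2 + 1

/-- **V2g.** There are automorphisms `g₁`, `g₂` over `FB B` with `g₁ √2 = -√2`, `g₁ √5 = √5`,
`g₂ √5 = -√5`. Uses `S_NSQ`.

Proof. Let `F = FB B`, `s ^ 2 = 2`, `t ^ 2 = 5` in `Ω`. `s ∉ F(t)`: if `s = a + b t` (`a, b ∈ F`) then
`2 = a ^ 2 + 5 b ^ 2 + 2 a b t` and `t ∉ F`, so `a b = 0`: `2 = a ^ 2` or `2 = 5 b ^ 2`, `10 = (5 b) ^ 2`; contradiction to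
`S_NSQ`. So the minimal polynomial of `s` over `F(t)` is `X ^ 2 - 2`, there is an automorphism of `Ω` over
`F(t)` with `s ↦ -s` (`Ω` is normal over `F(t)`: `exists_algHom_of_splits...`, `minpoly.isConjRoot`,
`IsConjRoot.exists_algEquiv`, or the infinite Galois correspondence: the fixed field of the
automorphisms of `Ω` over `F(t)` is `F(t)`, so some automorphism moves `s`, and then `s ↦ -s`). Same
for `g₂`: `t ∉ F`, the fixed field of all automorphisms over `F` is `F`. The other square roots are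
`-s`, `-t`. -/
def S_V2g : Prop :=
  ∀ (Ω : Type) [Field Ω] [CharZero Ω] [IsAlgClosed Ω] (B : ValuationSubring Ω),
    Algebra.IsAlgebraic ℚ Ω → (2 : Ω) ∈ B.nonunits →
    ∃ g₁ g₂ : Ω ≃ₐ[FB B] Ω, (∀ s : Ω, s ^ 2 = 2 → g₁ s = -s) ∧ (∀ t : Ω, t ^ 2 = 5 → g₁ t = t) ∧
      (∀ t : Ω, t ^ 2 = 5 → g₂ t = -t)

/-- **V2s.** A continuous homomorphism `ψ : Gal(Ω/FB B) → ℤ₂` which vanishes at `g₁`, `g₂` (as in
`S_V2g`) has only even values. Uses `S_V1`, `S_V1a`, `S_O4m`, `S_O4s`, `S_O4c`, `S_NSQ`.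

Proof. Suppose some value is odd (a unit of `ℤ_[2]`). Let `ψ₄` be `ψ` modulo `4`
(`PadicInt.toZModPow 2`), its kernel is open (preimage of the open set `4 ℤ_[2]`), and let
`g` be with `ψ₄ g = 1` (an odd value is `1` or `3` modulo `4`, take `g` or `g⁻¹`). `H₁ = {σ | ψ₄ σ ∈ {0, 2}}` is an
open subgroup of index `2`; its fixed field `E` has degree `2` over `F = FB B`
(`InfiniteGalois`), so `E = F(α)`, `α ^ 2 ∈ F` (characteristic `≠ 2`), and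
`σ α = α ↔ σ ∈ H₁`. (Elementary: take `γ` fixed by `H₁`, `γ ∉ F`, i.e. `g γ ≠ γ`, `α = γ - g γ`; `g ^ 2 ∈ H₁`, `H₁` is
normal, so `g α = -α`, `h α = α` for `h ∈ H₁`, `α ^ 2` is fixed by `H₁` and `g`, so by `Gal(Ω/F)`, so
`α ^ 2 ∈ F`; `γ` exists: otherwise the fixed field of `H₁` is that of `Gal(Ω/F)`, and `H₁` is closed.)
`S_V1`: `α ^ 2 y ^ 2 = x ^ 2 + 1`, so `O4 (α ^ 2)` (`S_V1a`, `S_O4s`, `S_O4m`), `α ^ 2 = d u ^ 2`, `d ∈ {1, 2, 5, 10}`,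
`u ∈ F`, `u ≠ 0` (`S_O4c`). `(α / u) ^ 2 = d`. `d = 1`: `α = ± u` is fixed by `g`, contradiction (`g α = -α`).
`d = 2`: `g₁ (α / u) = -α / u`, so `g₁ α ≠ α`, but `ψ₄ g₁ = 0`; contradiction. `d = 5`: the same with `g₂`. `d = 10`:
with `t ^ 2 = 5` the element `α / (u t)` is a square root of `2`, `g₁ (α / (u t)) = - α / (u t)`, `g₁ t = t`, so
`g₁ α = -α`. -/
def S_V2s : Prop :=
  ∀ (Ω : Type) [Field Ω] [CharZero Ω] [IsAlgClosed Ω] (B : ValuationSubring Ω),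
    Algebra.IsAlgebraic ℚ Ω → (2 : Ω) ∈ B.nonunits →
    ∀ g₁ g₂ : Ω ≃ₐ[FB B] Ω, (∀ s : Ω, s ^ 2 = 2 → g₁ s = -s) → (∀ t : Ω, t ^ 2 = 5 → g₁ t = t) →
      (∀ t : Ω, t ^ 2 = 5 → g₂ t = -t) →
    ∀ ψ : (Ω ≃ₐ[FB B] Ω) →* Multiplicative ℤ_[2], Continuous ψ → ψ g₁ = 1 → ψ g₂ = 1 →
      ∀ σ, ∃ c : ℤ_[2], ψ σ = Multiplicative.ofAdd (2 * c)

/-- **V2.** There are `g₁`, `g₂ ∈ Gal(Ω/FB B)` such that every continuous homomorphism to `ℤ₂`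
which vanishes at `g₁` and `g₂` is trivial. Uses `S_V2g`, `S_V2s`.

Proof. Take `g₁`, `g₂` from `S_V2g`. Claim: for every `n` and every continuous `ψ` with `ψ g₁ = ψ g₂ = 1` all
values are in `2 ^ n ℤ₂`. Induction on `n`: by `S_V2s` `ψ σ = 2 c σ`, `c : Gal → ℤ₂` is again a
homomorphism (`ℤ₂` is a domain) and continuous (`c σ = ψ σ / 2`: multiplication by `2` is a closed
embedding of `ℤ₂`; or locally constant modulo `2 ^ m`: `c σ - c τ ∈ 2 ^ m ↔ ψ σ - ψ τ ∈ 2 ^ (m + 1)`), and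
`c g₁ = c g₂ = 0`. An element of `ℤ₂` divisible by all `2 ^ n` is `0`. -/
def S_V2 : Prop :=
  ∀ (Ω : Type) [Field Ω] [CharZero Ω] [IsAlgClosed Ω] (B : ValuationSubring Ω),
    Algebra.IsAlgebraic ℚ Ω → (2 : Ω) ∈ B.nonunits →
    ∃ g₁ g₂ : Ω ≃ₐ[FB B] Ω,
      ∀ ψ : (Ω ≃ₐ[FB B] Ω) →* Multiplicative ℤ_[2], Continuous ψ → ψ g₁ = 1 → ψ g₂ = 1 → ψ = 1

end Pool.Agent.Lib.MP_869d3b_nt.Lo
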